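import Mathlib

set_option autoImplicit false

namespace Pool.Agent.Helper94.BiOrder

/-- Positive cone of a total order invariant under multiplication on both sides. -/
structure Cone (G : Type*) [Group G] (P : Set G) : Prop where
  mul : ∀ a ∈ P, ∀ b ∈ P, a * b ∈ P
  one : (1 : G) ∉ P
  conj : ∀ a ∈ P, ∀ g : G, g⁻¹ * a * g ∈ P
  tot : ∀ a : G, a ≠ 1 → a ∈ P ∨ a⁻¹ ∈ P

theorem abelian_cone (A : Type*) [CommGroup A]
    (htf : ∀ a : A, ∀ n : ℕ, 0 < n → a ^ n = 1 → a = 1) : ∃ P : Set A, Cone A P := by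
  classical
  let S : Set (Set A) := {P | (∀ a ∈ P, ∀ b ∈ P, a * b ∈ P) ∧ (1 : A) ∉ P}
  obtain ⟨P, hP⟩ : ∃ P, Maximal (fun x => x ∈ S) P := by
    refine zorn_subset S ?_
    intro c hc hch
    refine ⟨⋃₀ c, ⟨?_, ?_⟩, fun s hs => Set.subset_sUnion_of_mem hs⟩
    · rintro a ⟨s, hs, has⟩ b ⟨t, ht, hbt⟩
      rcases hch.total hs ht with h | h
      · exact ⟨t, ht, (hc ht).1 a (h has) b hbt⟩
      · exact ⟨s, hs, (hc hs).1 a has b (h hbt)⟩
    · rintro ⟨s, hs, h1⟩
      exact (hc hs).2 h1
  have hPm : ∀ a ∈ P, ∀ b ∈ P, a * b ∈ P := hP.prop.1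
  have hP1 : (1 : A) ∉ P := hP.prop.2
  have key : ∀ g : A, g ∉ P → ∃ n : ℕ, 0 < n ∧ (g ^ n = 1 ∨ ∃ p ∈ P, p * g ^ n = 1) := by
    intro g hg
    by_contra hcon
    push Not at hcon
    let Q : Set A := {x | x ∈ P ∨ ∃ n : ℕ, 0 < n ∧ (x = g ^ n ∨ ∃ p ∈ P, x = p * g ^ n)}
    have hQ : Q ∈ S := by
      refine ⟨?_, ?_⟩
      · rintro a (ha | ⟨n, hn, ha⟩) b (hb | ⟨m, hm, hb⟩)
        · exact Or.inl (hPm a ha b hb)
        · right
          refine ⟨m, hm, Or.inr ?_⟩
          rcases hb with rfl | ⟨p, hp, rfl⟩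
          · exact ⟨a, ha, rfl⟩
          · exact ⟨a * p, hPm a ha p hp, by rw [mul_assoc]⟩
        · right
          refine ⟨n, hn, Or.inr ?_⟩
          rcases ha with rfl | ⟨p, hp, rfl⟩
          · exact ⟨b, hb, by rw [mul_comm]⟩
          · exact ⟨p * b, hPm p hp b hb, by rw [mul_assoc, mul_assoc, mul_comm b]⟩
        · right
          refine ⟨n + m, by omega, ?_⟩
          rcases ha with rfl | ⟨p, hp, rfl⟩
          · rcases hb with rfl | ⟨q, hq, rfl⟩
            · exact Or.inl (by rw [pow_add])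
            · exact Or.inr ⟨q, hq, by rw [pow_add, mul_left_comm]⟩
          · rcases hb with rfl | ⟨q, hq, rfl⟩
            · exact Or.inr ⟨p, hp, by rw [pow_add, mul_assoc]⟩
            · exact Or.inr ⟨p * q, hPm p hp q hq, by
                rw [pow_add]; simp only [mul_assoc, mul_left_comm]⟩
      · rintro (h | ⟨n, hn, h⟩)
        · exact hP1 h
        · rcases h with h | ⟨p, hp, h⟩
          · exact (hcon n hn).1 h.symm
          · exact (hcon n hn).2 p hp h.symm
    have hle : P ⊆ Q := fun x hx => Or.inl hx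
    have hgQ : g ∈ Q := Or.inr ⟨1, one_pos, Or.inl (pow_one g).symm⟩
    exact hg (hP.le_of_ge hQ hle hgQ)
  have hpow : ∀ (m : ℕ) (p : A), 0 < m → p ∈ P → p ^ m ∈ P := by
    intro m p hm hp
    induction m with
    | zero => omega
    | succ m ih =>
      rcases Nat.eq_zero_or_pos m with h | h
      · subst h; simpa using hp
      · rw [pow_succ]; exact hPm _ (ih h) _ hp
  refine ⟨P, hPm, hP1, ?_, ?_⟩
  · intro a ha g
    rwa [mul_comm, ← mul_assoc, mul_inv_cancel, one_mul]
  · intro a ha
    by_contra hcon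
    push Not at hcon
    obtain ⟨n, hn, h1⟩ := key a hcon.1
    obtain ⟨m, hm, h2⟩ := key a⁻¹ hcon.2
    rcases h1 with h1 | ⟨p, hp, h1⟩
    · exact ha (htf a n hn h1)
    · rcases h2 with h2 | ⟨q, hq, h2⟩
      · refine ha (htf a m hm ?_)
        rw [inv_pow, inv_eq_one] at h2
        exact h2
      · have e1 : p ^ m * a ^ (n * m) = 1 := by
          rw [pow_mul, ← mul_pow, h1, one_pow]
        have e2 : q ^ n * (a⁻¹) ^ (n * m) = 1 := by
          rw [mul_comm n m, pow_mul, ← mul_pow, h2, one_pow]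
        have e3 : p ^ m * q ^ n = 1 := by
          have : (p ^ m * a ^ (n * m)) * (q ^ n * (a⁻¹) ^ (n * m)) = p ^ m * q ^ n := by
            rw [inv_pow]
            rw [mul_mul_mul_comm, mul_inv_cancel, mul_one]
          rw [← this, e1, e2, one_mul]
        exact hP1 (e3 ▸ hPm _ (hpow m p hm hp) _ (hpow n q hn hq))

/-- In a torsion-free Engel group the central quotient is torsion-free. -/
theorem central_of_pow {G : Type*} [Group G] (htf : ∀ a : G, ∀ n : ℕ, 0 < n → a ^ n = 1 → a = 1)
    (g : G) (hE : ∀ x : G, ∃ k : ℕ, (fun z : G => z⁻¹ * g⁻¹ * z * g)^[k] x = 1) (n : ℕ) (hn : 0 < n)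
    (hg : ∀ x : G, x * g ^ n = g ^ n * x) : ∀ x : G, x * g = g * x := by
  intro x
  by_contra hx
  classical
  let f : G → G := fun z => z⁻¹ * g⁻¹ * z * g
  have hf1 : ∀ z, f z = 1 ↔ z * g = g * z := by
    intro z
    constructor
    · intro h
      have h' : z⁻¹ * g⁻¹ * z * g = 1 := h
      calc z * g = g * z * (z⁻¹ * g⁻¹ * z * g) := by group
        _ = g * z := by rw [h', mul_one]
    · intro h
      change z⁻¹ * g⁻¹ * z * g = 1
      rw [mul_assoc, h]
      group
  obtain ⟨k, hk⟩ := hE x
  have hmin := Nat.find_spec (⟨k, hk⟩ : ∃ k, f^[k] x = 1)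
  have hlt : ∀ j < Nat.find (⟨k, hk⟩ : ∃ k, f^[k] x = 1), f^[j] x ≠ 1 :=
    fun j hj => Nat.find_min (⟨k, hk⟩ : ∃ k, f^[k] x = 1) hj
  generalize Nat.find (⟨k, hk⟩ : ∃ k, f^[k] x = 1) = m at hmin hlt
  have hm2 : 2 ≤ m := by
    by_contra h
    interval_cases h' : m
    · have : x = 1 := by simpa using hmin
      exact hx (by rw [this]; simp)
    · have : f x = 1 := by simpa using hmin
      exact hx ((hf1 x).1 this)
  obtain ⟨j, rfl⟩ : ∃ j, m = j + 2 := ⟨m - 2, by omega⟩
  set y := f^[j] x with hy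
  set d := f y with hd
  have hd1 : d ≠ 1 := by
    have := hlt (j + 1) (by omega)
    rwa [Function.iterate_succ_apply'] at this
  have hdg : d * g = g * d := by
    rw [← hf1]
    have := hmin
    rwa [Function.iterate_succ_apply', Function.iterate_succ_apply'] at this
  -- g⁻¹ y g = y d
  have hyd : g⁻¹ * y * g = y * d := by
    change g⁻¹ * y * g = y * (y⁻¹ * g⁻¹ * y * g)
    group
  have hpow : ∀ i : ℕ, (g ^ i)⁻¹ * y * g ^ i = y * d ^ i := by
    intro i
    induction i with
    | zero => simp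
    | succ i ih =>
      have e1 : (g ^ (i + 1))⁻¹ * y * g ^ (i + 1) = g⁻¹ * ((g ^ i)⁻¹ * y * g ^ i) * g := by
        rw [pow_succ]; group
      have e2 : g⁻¹ * d ^ i * g = d ^ i := by
        have : Commute d g := hdg
        have h3 : d ^ i * g = g * d ^ i := this.pow_left i
        rw [mul_assoc, h3, ← mul_assoc, inv_mul_cancel, one_mul]
      rw [e1, ih]
      calc g⁻¹ * (y * d ^ i) * g = (g⁻¹ * y * g) * (g⁻¹ * d ^ i * g) := by group
        _ = y * d * d ^ i := by rw [hyd, e2]
        _ = y * d ^ (i + 1) := by rw [mul_assoc, pow_succ']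
  have h1 := hpow n
  have h2 : (g ^ n)⁻¹ * y * g ^ n = y := by
    rw [mul_assoc, hg y, ← mul_assoc, inv_mul_cancel, one_mul]
  rw [h2] at h1
  have h3 : d ^ n = 1 := by
    have := mul_left_cancel (a := y) (b := 1) (c := d ^ n) (by rw [mul_one]; exact h1)
    exact this.symm
  exact hd1 (htf d n hn h3)

theorem engel_quot {G Q : Type*} [Group G] [Group Q] (φ : G →* Q) (hφ : Function.Surjective φ)
    (k : ℕ) (hE : ∀ x y : G, (fun z : G => z⁻¹ * y⁻¹ * z * y)^[k] x = 1) (x y : Q) :
    (fun z : Q => z⁻¹ * y⁻¹ * z * y)^[k] x = 1 := by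
  obtain ⟨a, rfl⟩ := hφ x
  obtain ⟨b, rfl⟩ := hφ y
  have h : ∀ j : ℕ, (fun z : Q => z⁻¹ * (φ b)⁻¹ * z * φ b)^[j] (φ a) =
      φ ((fun z : G => z⁻¹ * b⁻¹ * z * b)^[j] a) := by
    intro j
    induction j with
    | zero => rfl
    | succ j ih =>
      rw [Function.iterate_succ_apply', Function.iterate_succ_apply', ih]
      simp only [map_mul, map_inv]
  rw [h, hE, map_one]

/-- Torsion-free nilpotent Engel groups are orderable. -/
theorem nilp_cone (k c : ℕ) : ∀ (G : Type) [Group G],
    (∀ a : G, ∀ n : ℕ, 0 < n → a ^ n = 1 → a = 1) →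
    (∀ x y : G, (fun z : G => z⁻¹ * y⁻¹ * z * y)^[k] x = 1) →
    Subgroup.upperCentralSeries G c = ⊤ → ∃ P : Set G, Cone G P := by
  classical
  induction c with
  | zero =>
    intro G _ _ _ h
    rw [Subgroup.upperCentralSeries_zero] at h
    have h1 : ∀ g : G, g = 1 := fun g => by
      have : g ∈ (⊥ : Subgroup G) := by rw [h]; trivial
      exact Subgroup.mem_bot.1 this
    exact ⟨∅, fun a ha => ha.elim, fun h => h.elim, fun a ha => ha.elim, fun a ha => (ha (h1 a)).elim⟩
  | succ c ih =>
    intro G _ htf hE h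
    have hq1 : Subgroup.upperCentralSeries (G ⧸ Subgroup.center G) c = ⊤ := by
      have h2 := Subgroup.comap_upperCentralSeries_quotient_center (G := G) c
      rw [Nat.succ_eq_add_one, h] at h2
      rw [← Subgroup.map_comap_eq_self_of_surjective
        (QuotientGroup.mk'_surjective (Subgroup.center G)) (Subgroup.upperCentralSeries _ c), h2,
        Subgroup.map_top_of_surjective _ (QuotientGroup.mk'_surjective _)]
    have hqtf : ∀ a : G ⧸ Subgroup.center G, ∀ n : ℕ, 0 < n → a ^ n = 1 → a = 1 := by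
      intro a n hn ha
      obtain ⟨g, rfl⟩ := QuotientGroup.mk_surjective a
      rw [← QuotientGroup.mk_pow, QuotientGroup.eq_one_iff, Subgroup.mem_center_iff] at ha
      rw [QuotientGroup.eq_one_iff, Subgroup.mem_center_iff]
      intro x
      exact central_of_pow htf g (fun x => ⟨k, hE x g⟩) n hn (fun x => ha x) x
    obtain ⟨P', hP'⟩ := ih (G ⧸ Subgroup.center G) hqtf
      (engel_quot (QuotientGroup.mk' (Subgroup.center G)) (QuotientGroup.mk'_surjective _) k hE) hq1
    let instC : CommGroup (Subgroup.center G) :=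
      { (inferInstance : Group (Subgroup.center G)) with
        mul_comm := fun a b => Subtype.ext (Subgroup.mem_center_iff.1 b.2 a) }
    obtain ⟨Z, hZ⟩ : ∃ Z : Set (Subgroup.center G), Cone (Subgroup.center G) Z :=
      @abelian_cone (Subgroup.center G) instC (by
      intro a n hn ha
      apply Subtype.ext
      change (a : G) = 1
      refine htf (a : G) n hn ?_
      have := congrArg (fun t : Subgroup.center G => (t : G)) ha
      exact this)
    refine ⟨{g | (QuotientGroup.mk g : G ⧸ Subgroup.center G) ∈ P' ∨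
      ∃ hg : g ∈ Subgroup.center G, (⟨g, hg⟩ : Subgroup.center G) ∈ Z}, ?_, ?_, ?_, ?_⟩
    · rintro a (ha | ⟨ha, ha'⟩) b (hb | ⟨hb, hb'⟩)
      · left
        rw [QuotientGroup.mk_mul]
        exact hP'.mul _ ha _ hb
      · left
        rw [QuotientGroup.mk_mul, (QuotientGroup.eq_one_iff b).2 hb, mul_one]
        exact ha
      · left
        rw [QuotientGroup.mk_mul, (QuotientGroup.eq_one_iff a).2 ha, one_mul]
        exact hb
      · right
        exact ⟨Subgroup.mul_mem _ ha hb, hZ.mul _ ha' _ hb'⟩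
    · rintro (h1 | ⟨h1, h2⟩)
      · rw [QuotientGroup.mk_one] at h1
        exact hP'.one h1
      · exact hZ.one h2
    · rintro a (ha | ⟨ha, ha'⟩) g
      · left
        have := hP'.conj _ ha (QuotientGroup.mk g)
        rwa [← QuotientGroup.mk_inv, ← QuotientGroup.mk_mul, ← QuotientGroup.mk_mul] at this
      · right
        have h1 : g⁻¹ * a * g = a := by
          rw [mul_assoc, ← Subgroup.mem_center_iff.1 ha g, ← mul_assoc, inv_mul_cancel, one_mul]
        refine ⟨by rw [h1]; exact ha, ?_⟩
        have h2 : (⟨g⁻¹ * a * g, by rw [h1]; exact ha⟩ : Subgroup.center G) = ⟨a, ha⟩ :=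
          Subtype.ext h1
        rw [h2]
        exact ha'
    · intro a ha
      by_cases hc : a ∈ Subgroup.center G
      · have hne : (⟨a, hc⟩ : Subgroup.center G) ≠ 1 := fun h => ha (congrArg Subtype.val h)
        rcases hZ.tot _ hne with h1 | h1
        · exact Or.inl (Or.inr ⟨hc, h1⟩)
        · exact Or.inr (Or.inr ⟨Subgroup.inv_mem _ hc, h1⟩)
      · have hne : (QuotientGroup.mk a : G ⧸ Subgroup.center G) ≠ 1 := fun h =>
          hc ((QuotientGroup.eq_one_iff a).1 h)
        rcases hP'.tot _ hne with h1 | h1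
        · exact Or.inl (Or.inl h1)
        · exact Or.inr (Or.inl (by rw [QuotientGroup.mk_inv]; exact h1))

/-- The order defined by a cone. -/
theorem order_of_cone {G : Type*} [Group G] {P : Set G} (hP : Cone G P) :
    ∃ lo : LinearOrder G, ∀ a b c : G, lo.le a b → lo.le (c * a) (c * b) ∧ lo.le (a * c) (b * c) := by
  classical
  let lo : LinearOrder G :=
    { le := fun a b => a = b ∨ a⁻¹ * b ∈ P
      lt := fun a b => a⁻¹ * b ∈ P
      le_refl := fun a => Or.inl rfl
      le_trans := by
        rintro a b c (rfl | h1) (rfl | h2)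
        · exact Or.inl rfl
        · exact Or.inr h2
        · exact Or.inr h1
        · right
          have := hP.mul _ h1 _ h2
          rwa [mul_assoc, mul_inv_cancel_left] at this
      le_antisymm := by
        rintro a b (rfl | h1) (h | h2)
        · rfl
        · rfl
        · exact h.symm
        · exfalso
          have := hP.mul _ h1 _ h2
          rw [mul_assoc, mul_inv_cancel_left, inv_mul_cancel] at this
          exact hP.one this
      le_total := by
        intro a b
        by_cases hab : a = b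
        · exact Or.inl (Or.inl hab)
        · have hne : a⁻¹ * b ≠ 1 := fun h => hab (inv_mul_eq_one.1 h)
          rcases hP.tot _ hne with h | h
          · exact Or.inl (Or.inr h)
          · right; right
            rwa [mul_inv_rev, inv_inv] at h
      lt_iff_le_not_ge := by
        intro a b
        constructor
        · intro h
          refine ⟨Or.inr h, ?_⟩
          rintro (h2 | h2)
          · subst h2
            rw [inv_mul_cancel] at h
            exact hP.one h
          · have := hP.mul _ h _ h2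
            rw [mul_assoc, mul_inv_cancel_left, inv_mul_cancel] at this
            exact hP.one this
        · rintro ⟨h | h, h2⟩
          · exact (h2 (Or.inl h.symm)).elim
          · exact h
      toDecidableLE := Classical.decRel _ }
  refine ⟨lo, ?_⟩
  intro a b c h
  rcases h with rfl | h
  · exact ⟨Or.inl rfl, Or.inl rfl⟩
  · refine ⟨Or.inr ?_, Or.inr ?_⟩
    · have : (c * a)⁻¹ * (c * b) = a⁻¹ * b := by group
      rw [this]; exact h
    · have : (a * c)⁻¹ * (b * c) = c⁻¹ * (a⁻¹ * b) * c := by group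
      rw [this]; exact hP.conj _ h c

/-- right-orderable groups are torsion-free -/
theorem tf_of_ro {G : Type*} [Group G] (lo : LinearOrder G)
    (hmul : ∀ a b c : G, lo.le a b → lo.le (a * c) (b * c)) (a : G) (n : ℕ) (hn : 0 < n)
    (ha : a ^ n = 1) : a = 1 := by
  let _ := lo
  have hmul' : ∀ a b c : G, a < b → a * c < b * c := fun a b c h =>
    lt_of_le_of_ne (hmul a b c h.le) (fun he => h.ne (mul_right_cancel he))
  rcases lt_trichotomy 1 a with h | h | h
  · exfalso
    have : ∀ m : ℕ, 1 < a ^ (m + 1) := by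
      intro m
      induction m with
      | zero => simpa using h
      | succ m ih =>
        rw [pow_succ]
        calc 1 < a := h
          _ = 1 * a := (one_mul a).symm
          _ < a ^ (m + 1) * a := hmul' _ _ _ ih
    obtain ⟨m, rfl⟩ : ∃ m, n = m + 1 := ⟨n - 1, by omega⟩
    exact (this m).ne' ha
  · exact h.symm
  · exfalso
    have : ∀ m : ℕ, a ^ (m + 1) < 1 := by
      intro m
      induction m with
      | zero => simpa using h
      | succ m ih =>
        rw [pow_succ]
        calc a ^ (m + 1) * a < 1 * a := hmul' _ _ _ ih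
          _ = a := one_mul a
          _ < 1 := h
    obtain ⟨m, rfl⟩ : ∃ m, n = m + 1 := ⟨n - 1, by omega⟩
    exact (this m).ne ha

end Pool.Agent.Helper94.BiOrder
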