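import Mathlib

set_option autoImplicit false

namespace Pool.Agent.Helper94

open Matrix

section elem

variable {R : Type*} [CommRing R]

/-- The elementary matrix `1 + r e_{ij}` as a unit of the ring of `3 × 3` matrices. -/
def El (i j : Fin 3) (h : i ≠ j) (r : R) : (Matrix (Fin 3) (Fin 3) R)ˣ where
  val := 1 + single i j r
  inv := 1 + single i j (-r)
  val_inv := by
    have h1 : single i j r * single i j (-r) = (0 : Matrix (Fin 3) (Fin 3) R) :=
      single_mul_single_of_ne _ _ _ _ (Ne.symm h) _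
    have h2 : single i j r + single i j (-r) = (0 : Matrix (Fin 3) (Fin 3) R) := by
      rw [← single_add]; simp
    calc (1 + single i j r) * (1 + single i j (-r))
        = 1 + (single i j r + single i j (-r)) + single i j r * single i j (-r) := by noncomm_ring
      _ = 1 := by rw [h1, h2]; simp
  inv_val := by
    have h1 : single i j (-r) * single i j r = (0 : Matrix (Fin 3) (Fin 3) R) :=
      single_mul_single_of_ne _ _ _ _ (Ne.symm h) _
    have h2 : single i j r + single i j (-r) = (0 : Matrix (Fin 3) (Fin 3) R) := by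
      rw [← single_add]; simp
    calc (1 + single i j (-r)) * (1 + single i j r)
        = 1 + (single i j r + single i j (-r)) + single i j (-r) * single i j r := by noncomm_ring
      _ = 1 := by rw [h1, h2]; simp

theorem El_val (i j : Fin 3) (h : i ≠ j) (r : R) :
    ((El i j h r : (Matrix (Fin 3) (Fin 3) R)ˣ) : Matrix (Fin 3) (Fin 3) R) = 1 + single i j r := rfl

theorem El_inv (i j : Fin 3) (h : i ≠ j) (r : R) :
    (El i j h r)⁻¹ = El i j h (-r) := by
  apply Units.ext; rfl

theorem El_mul (i j : Fin 3) (h : i ≠ j) (r s : R) :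
    El i j h r * El i j h s = El i j h (r + s) := by
  apply Units.ext
  have h1 : single i j r * single i j s = (0 : Matrix (Fin 3) (Fin 3) R) :=
      single_mul_single_of_ne _ _ _ _ (Ne.symm h) _
  rw [Units.val_mul, El_val, El_val, El_val, single_add]
  calc (1 + single i j r) * (1 + single i j s)
        = 1 + (single i j r + single i j s) + single i j r * single i j s := by noncomm_ring
      _ = _ := by rw [h1]; simp

theorem El_zero (i j : Fin 3) (h : i ≠ j) : El i j h (0 : R) = 1 := by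
  apply Units.ext; simp [El_val]

theorem El_comm {i j k : Fin 3} (hij : i ≠ j) (hjk : j ≠ k) (hik : i ≠ k) (r s : R) :
    (El i j hij r)⁻¹ * (El j k hjk s)⁻¹ * El i j hij r * El j k hjk s = El i k hik (r * s) := by
  rw [El_inv, El_inv]
  apply Units.ext
  simp only [Units.val_mul, El_val]
  have hn1 : single i j (-r) = -single i j r := by
    ext a b; by_cases h1 : i = a <;> by_cases h2 : j = b <;> simp [single, h1, h2]
  have hn2 : single j k (-s) = -single j k s := by
    ext a b; by_cases h1 : j = a <;> by_cases h2 : k = b <;> simp [single, h1, h2]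
  rw [hn1, hn2]
  set X : Matrix (Fin 3) (Fin 3) R := single i j r
  set Y : Matrix (Fin 3) (Fin 3) R := single j k s
  have hXX : X * X = 0 := single_mul_single_of_ne _ _ _ _ (Ne.symm hij) _
  have hYY : Y * Y = 0 := single_mul_single_of_ne _ _ _ _ (Ne.symm hjk) _
  have hYX : Y * X = 0 := single_mul_single_of_ne _ _ _ _ (Ne.symm hik) _
  have hXY : X * Y = single i k (r * s) := single_mul_single_same _ _ _ _ _
  rw [← hXY]
  calc (1 + -X) * (1 + -Y) * (1 + X) * (1 + Y)
      = 1 + X * Y - X * X - Y * Y - X * X * Y - Y * X - Y * X * Y + X * (Y * X) + X * (Y * Y)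
        + X * (Y * X) * Y := by noncomm_ring
    _ = 1 + X * Y := by simp [hXX, hYY, hYX]

/-- `K` contains all elementary matrices with entries in `I`. -/
def HasEl (K : Subgroup (Matrix (Fin 3) (Fin 3) R)ˣ) (I : Ideal R) : Prop :=
  ∀ (i j : Fin 3) (h : i ≠ j) (r : R), r ∈ I → El i j h r ∈ K

theorem mem_of_mul_ideal {K : Subgroup (Matrix (Fin 3) (Fin 3) R)ˣ} {i j : Fin 3} {h : i ≠ j}
    {I I' : Ideal R} (H : ∀ r ∈ I, ∀ s ∈ I', El i j h (r * s) ∈ K) :
    ∀ r ∈ I * I', El i j h r ∈ K := by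
  intro r hr
  refine Submodule.mul_induction_on hr H ?_
  intro x y hx hy
  rw [← El_mul]
  exact K.mul_mem hx hy

/-- Key step: if `K` is normalised by `L`, contains `1 + e_{01}`, and `L` contains all elementary
matrices over the ideal `I`, then `K` contains all elementary matrices over `I ^ 3`. -/
theorem step {K L : Subgroup (Matrix (Fin 3) (Fin 3) R)ˣ}
    (hnorm : ∀ a ∈ L, ∀ b ∈ K, a * b * a⁻¹ ∈ K)
    (ha : El 0 1 (by decide) 1 ∈ K) {I : Ideal R} (hL : HasEl L I) : HasEl K (I ^ 3) := by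
  have c1 : ∀ g ∈ L, ∀ k ∈ K, g⁻¹ * k⁻¹ * g * k ∈ K := by
    intro g hg k hk
    have := hnorm g⁻¹ (L.inv_mem hg) k⁻¹ (K.inv_mem hk)
    rw [inv_inv] at this
    exact K.mul_mem this hk
  have c2 : ∀ k ∈ K, ∀ g ∈ L, k⁻¹ * g⁻¹ * k * g ∈ K := by
    intro k hk g hg
    have := hnorm g⁻¹ (L.inv_mem hg) k hk
    rw [inv_inv] at this
    have h2 : k⁻¹ * g⁻¹ * k * g = k⁻¹ * (g⁻¹ * k * g) := by group
    rw [h2]
    exact K.mul_mem (K.inv_mem hk) this
  have h02 : (0 : Fin 3) ≠ 2 := by decide
  have h01 : (0 : Fin 3) ≠ 1 := by decide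
  have h10 : (1 : Fin 3) ≠ 0 := by decide
  have h12 : (1 : Fin 3) ≠ 2 := by decide
  have h20 : (2 : Fin 3) ≠ 0 := by decide
  have h21 : (2 : Fin 3) ≠ 1 := by decide
  have e02 : ∀ r ∈ I, El 0 2 h02 r ∈ K := by
    intro r hr
    have := c2 _ ha _ (hL 1 2 h12 r hr)
    rw [El_comm _ _ h02, one_mul] at this
    exact this
  have e21 : ∀ r ∈ I, El 2 1 h21 r ∈ K := by
    intro r hr
    have := c1 _ (hL 2 0 h20 r hr) _ ha
    rw [El_comm _ _ h21, mul_one] at this
    exact this
  have e20 : ∀ r ∈ I * I, El 2 0 h20 r ∈ K := by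
    apply mem_of_mul_ideal
    intro r hr s hs
    have := c2 _ (e21 r hr) _ (hL 1 0 h10 s hs)
    rw [El_comm _ _ h20] at this
    exact this
  have e12 : ∀ r ∈ I * I, El 1 2 h12 r ∈ K := by
    apply mem_of_mul_ideal
    intro r hr s hs
    have := c1 _ (hL 1 0 h10 r hr) _ (e02 s hs)
    rw [El_comm _ _ h12] at this
    exact this
  have e01 : ∀ r ∈ I * I, El 0 1 h01 r ∈ K := by
    apply mem_of_mul_ideal
    intro r hr s hs
    have := c2 _ (e02 r hr) _ (hL 2 1 h21 s hs)
    rw [El_comm _ _ h01] at this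
    exact this
  have e10 : ∀ r ∈ I * I * I, El 1 0 h10 r ∈ K := by
    apply mem_of_mul_ideal
    intro r hr s hs
    have := c2 _ (e12 r hr) _ (hL 2 0 h20 s hs)
    rw [El_comm _ _ h10] at this
    exact this
  have p3 : I ^ 3 = I * I * I := by ring
  have l1 : I ^ 3 ≤ I * I := by
    rw [p3]; exact Ideal.mul_le_left
  have l2 : I ^ 3 ≤ I := l1.trans Ideal.mul_le_left
  intro i j h r hr
  fin_cases i <;> fin_cases j <;> first | exact absurd rfl h | skip
  · exact e01 r (l1 hr)
  · exact e02 r (l2 hr)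
  · exact e10 r (p3 ▸ hr)
  · exact e12 r (l1 hr)
  · exact e20 r (l1 hr)
  · exact e21 r (l2 hr)

/-- The iterated step along a subnormal chain. -/
theorem chain {K : ℕ → Subgroup (Matrix (Fin 3) (Fin 3) R)ˣ} {n : ℕ}
    (hmono : ∀ i < n, K i ≤ K (i + 1))
    (hnorm : ∀ i < n, ∀ a ∈ K (i + 1), ∀ b ∈ K i, a * b * a⁻¹ ∈ K i)
    (ha : El 0 1 (by decide) 1 ∈ K 0) {J : Ideal R} (hJ : HasEl (K n) J) :
    ∃ m : ℕ, HasEl (K 0) (J ^ m) := by
  have hak : ∀ i ≤ n, El 0 1 (by decide) (1 : R) ∈ K i := by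
    intro i
    induction i with
    | zero => intro _; exact ha
    | succ i ih => intro hi; exact hmono i (by omega) (ih (by omega))
  have key : ∀ k ≤ n, ∃ m : ℕ, HasEl (K (n - k)) (J ^ m) := by
    intro k
    induction k with
    | zero => intro _; exact ⟨1, by simpa using hJ⟩
    | succ k ih =>
      intro hk
      obtain ⟨m, hm⟩ := ih (by omega)
      refine ⟨m * 3, ?_⟩
      rw [pow_mul]
      have e : n - k = n - (k + 1) + 1 := by omega
      refine step (L := K (n - (k + 1) + 1)) (hnorm _ (by omega)) (hak _ (by omega)) ?_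
      rw [← e]; exact hm
  obtain ⟨m, hm⟩ := key n le_rfl
  exact ⟨m, by simpa using hm⟩

end elem

end Pool.Agent.Helper94
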