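import Mathlib
import Pool.Agent.Helper94.EngelOrderA

set_option autoImplicit false

/-!
# Components of an element, linked pairs and infinite chains of linked components
-/

namespace Pool.Agent.Helper94

namespace RA

section complete

variable {Ω G : Type*} [CompleteLinearOrder Ω] [Group G] (A : RA Ω G)

/-- The order automorphism given by `g`. -/
def iso (g : G) : Ω ≃o Ω where
  toFun z := A.act z g
  invFun z := A.act z g⁻¹
  left_inv z := A.act_act_inv z g
  right_inv z := A.act_inv_act z g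
  map_rel_iff' := A.le_iff _ _ _

theorem act_iSup {ι : Sort*} (f : ι → Ω) (g : G) : A.act (⨆ i, f i) g = ⨆ i, A.act (f i) g :=
  (A.iso g).map_iSup f

theorem act_iInf {ι : Sort*} (f : ι → Ω) (g : G) : A.act (⨅ i, f i) g = ⨅ i, A.act (f i) g :=
  (A.iso g).map_iInf f

theorem pow_mono {z : Ω} {u : G} (h : z < A.act z u) (m : ℕ) :
    A.act z (u ^ m) < A.act z (u ^ (m + 1)) := by
  rw [pow_succ', A.act_mul]
  exact A.act_mono _ _ _ h

theorem act_iSup_pow {z : Ω} {u : G} (h : z < A.act z u) :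
    A.act (⨆ m : ℕ, A.act z (u ^ m)) u = ⨆ m : ℕ, A.act z (u ^ m) := by
  rw [A.act_iSup]
  apply le_antisymm
  · refine iSup_le fun m => ?_
    rw [← A.act_mul, ← pow_succ]
    exact le_iSup (fun m : ℕ => A.act z (u ^ m)) (m + 1)
  · refine iSup_le fun m => ?_
    refine le_trans (A.pow_mono h m).le ?_
    rw [pow_succ, A.act_mul]
    exact le_iSup (fun m : ℕ => A.act (A.act z (u ^ m)) u) m

theorem pow_anti {z : Ω} {u : G} (h : A.act z u < z) (m : ℕ) :
    A.act z (u ^ (m + 1)) < A.act z (u ^ m) := by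
  rw [pow_succ', A.act_mul]
  exact A.act_mono _ _ _ h

theorem act_iInf_pow {z : Ω} {u : G} (h : A.act z u < z) :
    A.act (⨅ m : ℕ, A.act z (u ^ m)) u = ⨅ m : ℕ, A.act z (u ^ m) := by
  rw [A.act_iInf]
  apply le_antisymm
  · refine le_iInf fun m => ?_
    refine le_trans ?_ (A.pow_anti h m).le
    rw [pow_succ, A.act_mul]
    exact iInf_le (fun m : ℕ => A.act (A.act z (u ^ m)) u) m
  · refine le_iInf fun m => ?_
    rw [← A.act_mul, ← pow_succ]
    exact iInf_le (fun m : ℕ => A.act z (u ^ m)) (m + 1)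

/-- The component of `u` at a point moved to the right by `u`. -/
theorem exists_up {z : Ω} {u : G} (h : z < A.act z u) :
    A.Up u (⨅ m : ℕ, A.act z (u⁻¹ ^ m)) (⨆ m : ℕ, A.act z (u ^ m)) ∧
      (⨅ m : ℕ, A.act z (u⁻¹ ^ m)) < z ∧ z < ⨆ m : ℕ, A.act z (u ^ m) := by
  have h' : A.act z u⁻¹ < z := A.act_inv_lt_iff.2 h
  have h1 : (⨅ m : ℕ, A.act z (u⁻¹ ^ m)) < z := by
    refine lt_of_le_of_lt ?_ h'
    have := iInf_le (fun m : ℕ => A.act z (u⁻¹ ^ m)) 1
    simpa using this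
  have h2 : z < ⨆ m : ℕ, A.act z (u ^ m) := by
    refine lt_of_lt_of_le h ?_
    have := le_iSup (fun m : ℕ => A.act z (u ^ m)) 1
    simpa using this
  refine ⟨⟨h1.trans h2, ?_, A.act_iSup_pow h, ?_⟩, h1, h2⟩
  · have := A.act_iInf_pow h'
    rwa [A.fix_inv_iff] at this
  · intro w hw1 hw2
    by_contra hcon
    push Not at hcon
    obtain ⟨k, hk⟩ := iInf_lt_iff.1 hw1
    obtain ⟨m, hm⟩ := lt_iSup_iff.1 hw2
    have e1 : ∀ j : ℕ, A.act w (u ^ j) ≤ w := by
      intro j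
      induction j with
      | zero => simp [A.act_one]
      | succ j ih =>
        rw [pow_succ', A.act_mul]
        exact le_trans ((A.le_iff _ _ _).2 hcon) ih
    have e2 : A.act (A.act z (u⁻¹ ^ k)) (u ^ (k + m)) < A.act w (u ^ (k + m)) :=
      A.act_mono _ _ _ hk
    have e3 : A.act (A.act z (u⁻¹ ^ k)) (u ^ (k + m)) = A.act z (u ^ m) := by
      rw [← A.act_mul]
      congr 1
      rw [pow_add]
      simp
    rw [e3] at e2
    exact absurd (e2.trans_le (e1 _)) (not_lt.2 hm.le)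

/-- The component of `u` at a point moved by `u`. -/
theorem exists_cmp {z : Ω} {u : G} (h : A.act z u ≠ z) :
    ∃ l p, A.Cmp u l p ∧ l < z ∧ z < p := by
  rcases lt_or_gt_of_ne h with h1 | h1
  · have h2 : z < A.act z u⁻¹ := A.lt_act_inv_iff.2 h1
    obtain ⟨h3, h4, h5⟩ := A.exists_up h2
    exact ⟨_, _, Or.inr h3, h4, h5⟩
  · obtain ⟨h3, h4, h5⟩ := A.exists_up h1
    exact ⟨_, _, Or.inl h3, h4, h5⟩

/-- A linked pair of components of `u` and `v`. -/
structure Linked (u v : G) (a₁ e₁ a₂ e₂ : Ω) : Prop where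
  h₁ : A.Cmp u a₁ e₁
  h₂ : A.Cmp v a₂ e₂
  lt₁ : a₁ < a₂
  lt₂ : a₂ < e₁
  lt₃ : e₁ < e₂

/-- One step to the right in a chain of linked components. -/
theorem Linked.step {n : ℕ} (hE : EngelLaw n G) {u v : G} {a₁ e₁ a₂ e₂ : Ω}
    (h : A.Linked u v a₁ e₁ a₂ e₂) : ∃ a₃ e₃, A.Linked v u a₂ e₂ a₃ e₃ := by
  have h1 : A.act a₂ u ≠ a₂ := h.h₁.ne A h.lt₁ h.lt₂
  have h2 : A.act e₂ u ≠ e₂ := fun h3 => h1 (A.P3' hE h.h₂ h3)
  obtain ⟨a₃, e₃, h3, h4, h5⟩ := A.exists_cmp h2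
  refine ⟨a₃, e₃, h.h₂, h3, ?_, h4, h5⟩
  have h6 : e₁ ≤ a₃ := by
    by_contra hcon
    push Not at hcon
    exact h3.ne A hcon (h.lt₃.trans h5) (h.h₁.fp A)
  exact h.lt₂.trans_le h6

/-- The data of a linked pair, with the two generators indexed by `Bool`. -/
structure LData (gen : Bool → G) where
  b : Bool
  a₁ : Ω
  e₁ : Ω
  a₂ : Ω
  e₂ : Ω
  h : A.Linked (gen b) (gen (!b)) a₁ e₁ a₂ e₂

/-- The next linked pair. -/
noncomputable def LData.next {n : ℕ} (hE : EngelLaw n G) {gen : Bool → G} (X : A.LData gen) :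
    A.LData gen where
  b := !X.b
  a₁ := X.a₂
  e₁ := X.e₂
  a₂ := (X.h.step A hE).choose
  e₂ := (X.h.step A hE).choose_spec.choose
  h := by
    have := (X.h.step A hE).choose_spec.choose_spec
    rwa [Bool.not_not]

/-- An infinite chain of linked components. -/
structure Chain (gen : Bool → G) where
  par : ℕ → Bool
  a : ℕ → Ω
  e : ℕ → Ω
  hpar : ∀ i, par (i + 1) = !par i
  cmp : ∀ i, A.Cmp (gen (par i)) (a i) (e i)
  lt₁ : ∀ i, a i < a (i + 1)
  lt₂ : ∀ i, a (i + 1) < e i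
  lt₃ : ∀ i, e i < e (i + 1)

theorem exists_chain {n : ℕ} (hE : EngelLaw n G) {gen : Bool → G} (X : A.LData gen) :
    Nonempty (A.Chain gen) := by
  let Y : ℕ → A.LData gen := fun i => Nat.rec X (fun _ Z => Z.next A hE) i
  refine ⟨⟨fun i => (Y i).b, fun i => (Y i).a₁, fun i => (Y i).e₁, ?_, ?_, ?_, ?_, ?_⟩⟩
  · intro i; rfl
  · intro i; exact (Y i).h.h₁
  · intro i; exact (Y i).h.lt₁
  · intro i; exact (Y i).h.lt₂
  · intro i; exact (Y i).h.lt₃

end complete

end RA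

end Pool.Agent.Helper94
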