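import Mathlib
import Pool.Agent.Helper94.EngelOrderB

set_option autoImplicit false

/-!
# Ping-pong along an infinite chain of linked components
-/

namespace Pool.Agent.Helper94

open Filter

namespace RA

section limits

variable {Ω G : Type*} [CompleteLinearOrder Ω] [Group G] (A : RA Ω G)

theorem Up.pow_mem {g : G} {l p : Ω} (h : A.Up g l p) {z : Ω} (h1 : l < z) (h2 : z < p) (m : ℕ) :
    l < A.act z (g ^ m) ∧ A.act z (g ^ m) < p ∧ z ≤ A.act z (g ^ m) := by
  induction m with
  | zero => simp [A.act_one, h1, h2]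
  | succ m ih =>
    obtain ⟨i1, i2, i3⟩ := ih
    rw [pow_succ, A.act_mul]
    have h3 := h.up _ i1 i2
    refine ⟨i1.trans h3, ?_, i3.trans h3.le⟩
    calc A.act (A.act z (g ^ m)) g < A.act p g := A.act_mono _ _ _ i2
      _ = p := h.fp

theorem Up.tendsto {g : G} {l p : Ω} (h : A.Up g l p) {z : Ω} (h1 : l < z) (h2 : z < p) {w : Ω}
    (hw : w < p) : ∀ᶠ N : ℕ in atTop, w < A.act z (g ^ N) := by
  have hz := h.up z h1 h2
  obtain ⟨hU, hU1, hU2⟩ := A.exists_up hz
  have hle : (⨆ m : ℕ, A.act z (g ^ m)) ≤ p := iSup_le fun m => (h.pow_mem A h1 h2 m).2.1.le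
  have heq : (⨆ m : ℕ, A.act z (g ^ m)) = p := by
    rcases lt_or_eq_of_le hle with hlt | heq
    · exact ((h.up _ (h1.trans hU2) hlt).ne' hU.fp).elim
    · exact heq
  rw [← heq] at hw
  obtain ⟨m, hm⟩ := lt_iSup_iff.1 hw
  have hmono : Monotone fun m : ℕ => A.act z (g ^ m) :=
    monotone_nat_of_le_succ fun m => (A.pow_mono hz m).le
  filter_upwards [eventually_ge_atTop m] with N hN
  exact hm.trans_le (hmono hN)

theorem Up.pow_mem_inv {g : G} {l p : Ω} (h : A.Up g⁻¹ l p) {z : Ω} (h1 : l < z) (h2 : z < p)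
    (m : ℕ) : l < A.act z (g ^ m) ∧ A.act z (g ^ m) < p ∧ A.act z (g ^ m) ≤ z := by
  have hd : ∀ w, l < w → w < p → A.act w g < w := fun w hw1 hw2 =>
    A.lt_act_inv_iff.1 (h.up w hw1 hw2)
  induction m with
  | zero => simp [A.act_one, h1, h2]
  | succ m ih =>
    obtain ⟨i1, i2, i3⟩ := ih
    rw [pow_succ, A.act_mul]
    have h3 := hd _ i1 i2
    refine ⟨?_, h3.trans i2, h3.le.trans i3⟩
    calc l = A.act l g := (A.fix_inv_iff.1 h.fl).symm
      _ < A.act (A.act z (g ^ m)) g := A.act_mono _ _ _ i1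

theorem Up.tendsto_inv {g : G} {l p : Ω} (h : A.Up g⁻¹ l p) {z : Ω} (h1 : l < z) (h2 : z < p)
    {w : Ω} (hw : l < w) : ∀ᶠ N : ℕ in atTop, A.act z (g ^ N) < w := by
  have hz' := h.up z h1 h2
  have hz : A.act z g < z := A.lt_act_inv_iff.1 hz'
  obtain ⟨hU, hU1, hU2⟩ := A.exists_up hz'
  simp only [inv_inv] at hU hU1 hU2
  have hle : l ≤ (⨅ m : ℕ, A.act z (g ^ m)) := le_iInf fun m => (h.pow_mem_inv A h1 h2 m).1.le
  have heq : l = (⨅ m : ℕ, A.act z (g ^ m)) := by
    rcases lt_or_eq_of_le hle with hlt | heq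
    · exact ((h.up _ hlt (hU1.trans h2)).ne' hU.fl).elim
    · exact heq
  rw [heq] at hw
  obtain ⟨m, hm⟩ := iInf_lt_iff.1 hw
  have hmono : Antitone fun m : ℕ => A.act z (g ^ m) :=
    antitone_nat_of_succ_le fun m => (A.pow_anti hz m).le
  filter_upwards [eventually_ge_atTop m] with N hN
  exact (hmono hN).trans_lt hm

end limits

namespace Chain

variable {Ω G : Type*} [CompleteLinearOrder Ω] [Group G] {A : RA Ω G} {gen : Bool → G}
  (C : A.Chain gen)

/-- The sequence `f` is eventually inside the `i`-th component and tends to its right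
(`s = true`) or left (`s = false`) end point. -/
def St (f : ℕ → Ω) (i : ℕ) : Bool → Prop
  | true => (∀ᶠ N in atTop, C.a i < f N ∧ f N < C.e i) ∧ ∀ z < C.e i, ∀ᶠ N in atTop, z < f N
  | false => (∀ᶠ N in atTop, C.a i < f N ∧ f N < C.e i) ∧ ∀ z > C.a i, ∀ᶠ N in atTop, f N < z

/-- `g` moves the `i`-th component to the right (`s = true`) or left (`s = false`). -/
def Tw (g : G) (i : ℕ) : Bool → Prop
  | true => A.Up g (C.a i) (C.e i)
  | false => A.Up g⁻¹ (C.a i) (C.e i)

/-- The group element given by a signed letter. -/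
def el (gen : Bool → G) (x : Bool × Bool) : G := if x.2 then gen x.1 else (gen x.1)⁻¹

theorem exists_tw (i : ℕ) (x : Bool × Bool) (hx : x.1 = C.par i) :
    ∃ s, C.Tw (el gen x) i s := by
  obtain ⟨b, c⟩ := x
  simp only at hx
  subst hx
  rcases C.cmp i with h | h
  · cases c
    · exact ⟨false, by simpa [Tw, el] using h⟩
    · exact ⟨true, by simpa [Tw, el] using h⟩
  · cases c
    · exact ⟨true, by simpa [Tw, el] using h⟩
    · exact ⟨false, by simpa [Tw, el] using h⟩

theorem st_same {f : ℕ → Ω} {i : ℕ} {s : Bool} {g : G} (hf : C.St f i s) (hg : C.Tw g i s) :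
    C.St (fun N => A.act (f N) (g ^ N)) i s := by
  cases s
  · obtain ⟨h1, h2⟩ := hf
    refine ⟨?_, fun z hz => ?_⟩
    · filter_upwards [h1] with N hN
      exact ⟨(hg.pow_mem_inv A hN.1 hN.2 N).1, (hg.pow_mem_inv A hN.1 hN.2 N).2.1⟩
    · filter_upwards [h1, h2 z hz] with N hN hN2
      exact (hg.pow_mem_inv A hN.1 hN.2 N).2.2.trans_lt hN2
  · obtain ⟨h1, h2⟩ := hf
    refine ⟨?_, fun z hz => ?_⟩
    · filter_upwards [h1] with N hN
      exact ⟨(hg.pow_mem A hN.1 hN.2 N).1, (hg.pow_mem A hN.1 hN.2 N).2.1⟩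
    · filter_upwards [h1, h2 z hz] with N hN hN2
      exact hN2.trans_le (hg.pow_mem A hN.1 hN.2 N).2.2

/-- If `f` tends to a point `E` of the `i`-th component from the left then `f N g^N` tends to the
end point of that component to which `g` moves. -/
theorem st_of_left {f : ℕ → Ω} {E : Ω} {i : ℕ} {s : Bool} {g : G} (hE1 : C.a i < E)
    (hE2 : E < C.e i) (h1 : ∀ᶠ N in atTop, f N < E) (h2 : ∀ z < E, ∀ᶠ N in atTop, z < f N)
    (hg : C.Tw g i s) : C.St (fun N => A.act (f N) (g ^ N)) i s := by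
  cases s
  · refine ⟨?_, fun z hz => ?_⟩
    · filter_upwards [h1, h2 _ hE1] with N hN hN2
      have := hg.pow_mem_inv A hN2 (hN.trans hE2) N
      exact ⟨this.1, this.2.1⟩
    · filter_upwards [h1, hg.tendsto_inv A hE1 hE2 hz] with N hN hN2
      exact (A.act_mono _ _ _ hN).trans hN2
  · refine ⟨?_, fun z hz => ?_⟩
    · filter_upwards [h1, h2 _ hE1] with N hN hN2
      have := hg.pow_mem A hN2 (hN.trans hE2) N
      exact ⟨this.1, this.2.1⟩
    · have hr1 : A.act E g⁻¹ < E := A.act_inv_lt_iff.2 (hg.up _ hE1 hE2)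
      have hr2 : C.a i < A.act E g⁻¹ := by
        calc C.a i = A.act (C.a i) g⁻¹ := (A.fix_inv hg.fl).symm
          _ < A.act E g⁻¹ := A.act_mono _ _ _ hE1
      filter_upwards [h2 _ hr1, hg.tendsto A hr2 (hr1.trans hE2) hz] with N hN hN2
      exact hN2.trans (A.act_mono _ _ _ hN)

/-- If `f` tends to a point `E` of the `i`-th component from the right then `f N g^N` tends to the
end point of that component to which `g` moves. -/
theorem st_of_right {f : ℕ → Ω} {E : Ω} {i : ℕ} {s : Bool} {g : G} (hE1 : C.a i < E)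
    (hE2 : E < C.e i) (h1 : ∀ᶠ N in atTop, E < f N) (h2 : ∀ z > E, ∀ᶠ N in atTop, f N < z)
    (hg : C.Tw g i s) : C.St (fun N => A.act (f N) (g ^ N)) i s := by
  cases s
  · refine ⟨?_, fun z hz => ?_⟩
    · filter_upwards [h1, h2 _ hE2] with N hN hN2
      have := hg.pow_mem_inv A (hE1.trans hN) hN2 N
      exact ⟨this.1, this.2.1⟩
    · have hr1 : E < A.act E g⁻¹ := hg.up _ hE1 hE2
      have hr2 : A.act E g⁻¹ < C.e i := by
        calc A.act E g⁻¹ < A.act (C.e i) g⁻¹ := A.act_mono _ _ _ hE2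
          _ = C.e i := hg.fp
      filter_upwards [h2 _ hr1, hg.tendsto_inv A (hE1.trans hr1) hr2 hz] with N hN hN2
      exact (A.act_mono _ _ _ hN).trans hN2
  · refine ⟨?_, fun z hz => ?_⟩
    · filter_upwards [h1, h2 _ hE2] with N hN hN2
      have := hg.pow_mem A (hE1.trans hN) hN2 N
      exact ⟨this.1, this.2.1⟩
    · filter_upwards [h1, hg.tendsto A hE1 hE2 hz] with N hN hN2
      exact hN2.trans (A.act_mono _ _ _ hN)

/-- The product of the `N`-th powers of the letters of a word. -/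
def prodL (gen : Bool → G) (L : List (Bool × Bool)) (N : ℕ) : G :=
  (L.map fun x => el gen x ^ N).prod

theorem main_claim (L : List (Bool × Bool)) : ∀ (x₀ : Bool × Bool) (i : ℕ) (s : Bool),
    L.length < i → x₀.1 = C.par i → C.Tw (el gen x₀) i s → FreeGroup.IsReduced (x₀ :: L) →
    ∃ j t, ∀ f, C.St f i s → C.St (fun N => A.act (f N) (prodL gen L N)) j t := by
  induction L with
  | nil =>
    intro x₀ i s _ _ _ _
    refine ⟨i, s, fun f hf => ?_⟩
    simpa [prodL, A.act_one] using hf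
  | cons x L ih =>
    intro x₀ i s hi hx₀ hT hR
    rw [FreeGroup.isReduced_cons_cons] at hR
    obtain ⟨hR1, hR2⟩ := hR
    have hfun : ∀ f : ℕ → Ω, (fun N => A.act (f N) (prodL gen (x :: L) N)) =
        fun N => A.act (A.act (f N) (el gen x ^ N)) (prodL gen L N) := by
      intro f
      funext N
      simp only [prodL, List.map_cons, List.prod_cons]
      rw [A.act_mul]
    simp only [hfun]
    by_cases hx : x₀.1 = x.1
    · have hxx : x₀ = x := Prod.ext hx (hR1 hx)
      subst hxx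
      obtain ⟨j, t, hjt⟩ := ih x₀ i s (by simp at hi; omega) hx₀ hT hR2
      exact ⟨j, t, fun f hf => hjt _ (C.st_same hf hT)⟩
    · have hx' : x.1 = !(C.par i) := by
        rw [← hx₀]
        revert hx
        cases x₀.1 <;> cases x.1 <;> simp
      cases s
      · -- `f` tends to `a i`, which lies in the component `i - 1`
        obtain ⟨k, rfl⟩ : ∃ k, i = k + 1 := ⟨i - 1, by simp at hi; omega⟩
        have hpar : x.1 = C.par k := by rw [hx', C.hpar, Bool.not_not]
        obtain ⟨s', hs'⟩ := C.exists_tw k x hpar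
        obtain ⟨j, t, hjt⟩ := ih x k s' (by simp at hi; omega) hpar hs' hR2
        refine ⟨j, t, fun f hf => hjt _ ?_⟩
        exact C.st_of_right (C.lt₁ k) (C.lt₂ k) (hf.1.mono fun N hN => hN.1) hf.2 hs'
      · have hpar : x.1 = C.par (i + 1) := by rw [hx', C.hpar]
        obtain ⟨s', hs'⟩ := C.exists_tw (i + 1) x hpar
        obtain ⟨j, t, hjt⟩ := ih x (i + 1) s' (by simp at hi; omega) hpar hs' hR2
        refine ⟨j, t, fun f hf => hjt _ ?_⟩
        exact C.st_of_left (C.lt₂ i) (C.lt₃ i) (hf.1.mono fun N hN => hN.2) hf.2 hs'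

include C in
/-- The two generators of a chain of linked components satisfy no law, even on powers. -/
theorem no_law (L : List (Bool × Bool)) (hL : L ≠ []) (hR : FreeGroup.IsReduced L) :
    ∃ N : ℕ, prodL gen L N ≠ 1 := by
  by_contra hcon
  push Not at hcon
  obtain ⟨x, L', rfl⟩ := List.exists_cons_of_ne_nil hL
  obtain ⟨i, hi, hpar⟩ : ∃ i, L'.length < i ∧ x.1 = C.par i := by
    by_cases h : x.1 = C.par (L'.length + 1)
    · exact ⟨L'.length + 1, by omega, h⟩
    · refine ⟨L'.length + 2, by omega, ?_⟩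
      rw [C.hpar (L'.length + 1)]
      revert h
      cases x.1 <;> cases C.par (L'.length + 1) <;> simp
  obtain ⟨s, hs⟩ := C.exists_tw i x hpar
  obtain ⟨j, t, hjt⟩ := C.main_claim L' x i s hi hpar hs hR
  have hz1 : C.a i < C.a (i + 1) := C.lt₁ i
  have hz2 : C.a (i + 1) < C.e i := C.lt₂ i
  have hst : C.St (fun N => A.act (C.a (i + 1)) (el gen x ^ N)) i s := by
    cases s
    · exact ⟨Eventually.of_forall fun N => ⟨(hs.pow_mem_inv A hz1 hz2 N).1,
        (hs.pow_mem_inv A hz1 hz2 N).2.1⟩, fun z hz => hs.tendsto_inv A hz1 hz2 hz⟩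
    · exact ⟨Eventually.of_forall fun N => ⟨(hs.pow_mem A hz1 hz2 N).1,
        (hs.pow_mem A hz1 hz2 N).2.1⟩, fun z hz => hs.tendsto A hz1 hz2 hz⟩
  have h1 := hjt _ hst
  have h2 : (fun N => A.act (A.act (C.a (i + 1)) (el gen x ^ N)) (prodL gen L' N)) =
      fun _ => C.a (i + 1) := by
    funext N
    rw [← A.act_mul]
    have := hcon N
    simp only [prodL, List.map_cons, List.prod_cons] at this
    simp only [prodL]
    rw [this, A.act_one]
  rw [h2] at h1
  cases t
  · obtain ⟨h3, h4⟩ := h1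
    have h5 := h3.exists.choose_spec
    exact lt_irrefl _ (h4 _ h5.1).exists.choose_spec
  · obtain ⟨h3, h4⟩ := h1
    have h5 := h3.exists.choose_spec
    exact lt_irrefl _ (h4 _ h5.2).exists.choose_spec

end Chain

/-- The `n`-Engel word in the free group on two letters. -/
def engelWord (n : ℕ) : FreeGroup Bool :=
  (fun z : FreeGroup Bool => z⁻¹ * (FreeGroup.of true)⁻¹ * z * FreeGroup.of true)^[n]
    (FreeGroup.of false)

theorem map_engel {G H : Type*} [Group G] [Group H] (φ : G →* H) (x y : G) (n : ℕ) :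
    φ ((fun z : G => z⁻¹ * y⁻¹ * z * y)^[n] x) =
      (fun z : H => z⁻¹ * (φ y)⁻¹ * z * φ y)^[n] (φ x) := by
  induction n with
  | zero => rfl
  | succ n ih =>
    rw [Function.iterate_succ_apply', Function.iterate_succ_apply', ← ih]
    simp

theorem engelWord_ne_one (n : ℕ) : engelWord n ≠ 1 := by
  intro h
  let σ : Equiv.Perm (Fin 3) := Equiv.swap 0 1 * Equiv.swap 1 2
  let τ : Equiv.Perm (Fin 3) := Equiv.swap 0 1
  let φ : FreeGroup Bool →* Equiv.Perm (Fin 3) := FreeGroup.lift fun b => if b then τ else σ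
  have h1 : φ (FreeGroup.of true) = τ := by simp [φ]
  have h2 : φ (FreeGroup.of false) = σ := by simp [φ]
  have h3 := map_engel φ (FreeGroup.of false) (FreeGroup.of true) n
  rw [h1, h2] at h3
  change φ (engelWord n) = _ at h3
  rw [h, map_one] at h3
  have h4 : ∀ m : ℕ, (fun z : Equiv.Perm (Fin 3) => z⁻¹ * τ⁻¹ * z * τ)^[m] σ = σ := by
    intro m
    apply Function.iterate_fixed
    decide
  rw [h4] at h3
  exact absurd h3 (by decide)

/-- There are no linked pairs in an Engel group. -/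
theorem not_linked {Ω G : Type*} [CompleteLinearOrder Ω] [Group G] (A : RA Ω G) {n : ℕ}
    (hE : EngelLaw n G) {u v : G} {a₁ e₁ a₂ e₂ : Ω} (h : A.Linked u v a₁ e₁ a₂ e₂) : False := by
  let gen : Bool → G := fun b => if b then u else v
  have hX : A.Linked (gen true) (gen (!true)) a₁ e₁ a₂ e₂ := h
  obtain ⟨C⟩ := A.exists_chain hE (gen := gen) ⟨true, a₁, e₁, a₂, e₂, hX⟩
  obtain ⟨N, hN⟩ := C.no_law (engelWord n).toWord
    (by rw [Ne, FreeGroup.toWord_eq_nil_iff]; exact engelWord_ne_one n)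
    FreeGroup.isReduced_toWord
  apply hN
  have h1 : FreeGroup.lift (fun b => gen b ^ N) (engelWord n) =
      Chain.prodL gen (engelWord n).toWord N := by
    conv_lhs => rw [← FreeGroup.mk_toWord (x := engelWord n), FreeGroup.lift_mk]
    unfold Chain.prodL
    congr 1
    apply List.map_congr_left
    rintro ⟨b, c⟩ _
    cases c <;> simp [Chain.el]
  rw [← h1, engelWord, map_engel]
  exact hE _ _

end RA

end Pool.Agent.Helper94
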