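import Mathlib
import Pool.Agent.Helper94.EngelOrderE

set_option autoImplicit false

/-!
# Convex jumps of right orders on Engel groups: the ordered group side
-/

namespace Pool.Agent.Helper94

theorem Iic_le {G : Type*} [LinearOrder G] {x y : G} (h : x ≤ y) :
    LowerSet.Iic x ≤ LowerSet.Iic y := by
  intro z hz
  exact le_trans (show z ≤ x from hz) h

theorem Iic_lt {G : Type*} [LinearOrder G] {x y : G} (h : x < y) :
    LowerSet.Iic x < LowerSet.Iic y := by
  refine lt_of_le_of_ne (Iic_le h.le) ?_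
  intro heq
  have h1 : y ∈ LowerSet.Iic x := by
    rw [heq]
    exact le_refl y
  exact absurd (show y ≤ x from h1) (not_le.2 h)

theorem lt_of_Iic_lt {G : Type*} [LinearOrder G] {x y : G}
    (h : LowerSet.Iic x < LowerSet.Iic y) : x < y := by
  by_contra hcon
  push Not at hcon
  exact absurd (Iic_le hcon) (not_le.2 h)

/-- The convex jump of a right order on an Engel group determined by a positive element. -/
theorem exists_jump {G : Type*} [Group G] [LinearOrder G]
    (hmul : ∀ a b c : G, a < b → a * c < b * c) {n : ℕ} (hE : EngelLaw n G)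
    {g : G} (hg : 1 < g) :
    ∃ S D : Subgroup G, S ≤ D ∧ g ∈ D ∧ g ∉ S ∧
      (∀ a b c : G, a ∈ D → c ∈ D → a ≤ b → b ≤ c → b ∈ D) ∧
      (∀ a b c : G, a ∈ S → c ∈ S → a ≤ b → b ≤ c → b ∈ S) ∧
      (∀ h : G, h ∈ D ↔ ∃ m : ℕ, (g⁻¹) ^ m < h ∧ h < g ^ m) ∧
      (∀ s c : G, s ∈ S → c ∈ D → c⁻¹ * s * c ∈ S) ∧
      (∀ x y : G, x ∈ D → x ∉ S → 1 < x → y ∈ D → ∃ m : ℕ, y < x ^ m) ∧
      (∀ x y : G, x ∈ D → x ∉ S → 1 < x → y ∈ D → y ∉ S → 1 < y → x * y ∉ S ∧ 1 < x * y) ∧
      (∀ x c : G, x ∈ D → x ∉ S → 1 < x → c ∈ D → c⁻¹ * x * c ∉ S ∧ 1 < c⁻¹ * x * c) ∧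
      (∀ x s : G, x ∈ D → x ∉ S → 1 < x → s ∈ S → x * s ∉ S ∧ 1 < x * s) := by
  set A := lowerAct hmul with hA
  have hI : ∀ x y : G, A.act (LowerSet.Iic x) y = LowerSet.Iic (x * y) := lowerAct_Iic hmul
  have hI1 : ∀ y : G, A.act (LowerSet.Iic 1) y = LowerSet.Iic y := by
    intro y; rw [hI, one_mul]
  have h1 : LowerSet.Iic (1 : G) < A.act (LowerSet.Iic (1 : G)) g := by
    rw [hI1]; exact Iic_lt hg
  obtain ⟨hU, hU1, hU2⟩ := A.exists_up h1
  have hpow : ∀ x : G, 1 < x → A.Up x (⨅ m : ℕ, A.act (LowerSet.Iic 1) (x⁻¹ ^ m))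
      (⨆ m : ℕ, A.act (LowerSet.Iic 1) (x ^ m)) := fun x hx => by
    have : LowerSet.Iic (1 : G) < A.act (LowerSet.Iic (1 : G)) x := by
      rw [hI1]; exact Iic_lt hx
    exact (A.exists_up this).1
  have hmemD0 : ∀ h : G, (⨅ m : ℕ, A.act (LowerSet.Iic 1) (g⁻¹ ^ m)) < LowerSet.Iic h →
      LowerSet.Iic h < (⨆ m : ℕ, A.act (LowerSet.Iic 1) (g ^ m)) →
      ∃ m : ℕ, (g⁻¹) ^ m < h ∧ h < g ^ m := by
    intro h e1 e2
    obtain ⟨i, hi⟩ := iInf_lt_iff.1 e1
    obtain ⟨j, hj⟩ := lt_iSup_iff.1 e2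
    rw [hI1] at hi hj
    have hi' := lt_of_Iic_lt hi
    have hj' := lt_of_Iic_lt hj
    refine ⟨max i j, ?_, ?_⟩
    · refine lt_of_le_of_lt ?_ hi'
      have hanti : Antitone fun m : ℕ => (g⁻¹) ^ m := by
        apply antitone_nat_of_succ_le
        intro m
        have : g⁻¹ * (g⁻¹) ^ m < 1 * (g⁻¹) ^ m := by
          apply hmul
          have := hmul _ _ g⁻¹ hg
          simpa using this
        rw [pow_succ']
        simpa using this.le
      exact hanti (le_max_left i j)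
    · refine lt_of_lt_of_le hj' ?_
      have hmono : Monotone fun m : ℕ => g ^ m := by
        apply monotone_nat_of_le_succ
        intro m
        have : 1 * g ^ m < g * g ^ m := hmul _ _ _ hg
        rw [pow_succ']
        simpa using this.le
      exact hmono (le_max_right i j)
  set l := (⨅ m : ℕ, A.act (LowerSet.Iic (1 : G)) (g⁻¹ ^ m)) with hl
  set p := (⨆ m : ℕ, A.act (LowerSet.Iic (1 : G)) (g ^ m)) with hp
  have hC : A.Cmp g l p := Or.inl hU
  have hmemD : ∀ h : G, h ∈ A.stab l p ↔ l < LowerSet.Iic h ∧ LowerSet.Iic h < p := by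
    intro h
    constructor
    · rintro ⟨e1, e2⟩
      rw [← hI1 h]
      exact ⟨by rw [← e1]; exact A.act_mono _ _ _ hU1, by
        conv_rhs => rw [← e2]
        exact A.act_mono _ _ _ hU2⟩
    · rintro ⟨e1, e2⟩
      exact A.fix_of_mem hE hC hU1 hU2 (by rw [hI1]; exact e1) (by rw [hI1]; exact e2)
  have hup : ∀ x : G, x ∈ A.stab l p → x ∉ A.small hE hC hU1 hU2 → 1 < x → A.Up x l p := by
    intro x e1 e2 e3
    exact A.up_of_not_small hE hC hU1 hU2 e1 e2 (by rw [hI1]; exact Iic_lt e3)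
  have hup' : ∀ x : G, A.Up x l p → x ∈ A.stab l p ∧ x ∉ A.small hE hC hU1 hU2 ∧ 1 < x := by
    intro x hx
    refine ⟨⟨hx.fl, hx.fp⟩, ?_, ?_⟩
    · rintro ⟨_, w, e1, e2, e3⟩
      exact (hx.up w e1 e2).ne' e3
    · have := hx.up _ hU1 hU2
      rw [hI1] at this
      exact lt_of_Iic_lt this
  have hconvD : ∀ a b c : G, a ∈ A.stab l p → c ∈ A.stab l p → a ≤ b → b ≤ c →
      b ∈ A.stab l p := by
    intro a b c ha hc hab hbc
    rw [hmemD] at ha hc ⊢
    exact ⟨ha.1.trans_le (Iic_le hab), (Iic_le hbc).trans_lt hc.2⟩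
  refine ⟨A.small hE hC hU1 hU2, A.stab l p, fun h hh => hh.1, ⟨hU.fl, hU.fp⟩, ?_, hconvD, ?_,
    ?_, ?_, ?_, ?_, ?_, ?_⟩
  · exact (hup' g hU).2.1
  · intro a b c ha hc hab hbc
    have hb := hconvD a b c ha.1 hc.1 hab hbc
    by_contra hbs
    obtain ⟨w, e1, e2, e3, e4⟩ := A.common_fix hE hC hc.1.1 hc.1.2 ha.2.choose_spec.1
      ha.2.choose_spec.2.1 ha.2.choose_spec.2.2 hc.2.choose_spec.1
      hc.2.choose_spec.2.1 hc.2.choose_spec.2.2
    have hab' : a < b := lt_of_le_of_ne hab (fun h => hbs (h ▸ ha))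
    have hbc' : b < c := lt_of_le_of_ne hbc (fun h => hbs (h ▸ hc))
    rcases lt_trichotomy (1 : G) b with h5 | h5 | h5
    · -- `b` moves everything up
      have hbU := hup b hb hbs h5
      set q := c * b⁻¹ with hq
      have hqc : q * b = c := by rw [hq, inv_mul_cancel_right]
      have hq1 : 1 < q := by
        have := hmul _ _ b⁻¹ hbc'
        rwa [mul_inv_cancel] at this
      have hqD : q ∈ A.stab l p := mul_mem hc.1 (inv_mem hb)
      by_cases hqS : q ∈ A.small hE hC hU1 hU2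
      · apply hbs
        have : b = q⁻¹ * c := by rw [← hqc, inv_mul_cancel_left]
        rw [this]
        exact mul_mem (inv_mem hqS) hc
      · have hqU := hup q hqD hqS hq1
        have e5 := hqU.up w e1 e2
        have e6 : A.act w q < p := by
          calc A.act w q < A.act p q := A.act_mono _ _ _ e2
            _ = p := hqU.fp
        have e7 := hbU.up _ (e1.trans e5) e6
        rw [← A.act_mul, hqc, e4] at e7
        exact lt_irrefl _ (e5.trans e7)
    · exact hbs (h5 ▸ one_mem _)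
    · -- `b` moves everything down
      have hbi : 1 < b⁻¹ := by
        have := hmul _ _ b⁻¹ h5
        rwa [mul_inv_cancel, one_mul] at this
      have hbU := hup b⁻¹ (inv_mem hb) (fun h => hbs (by simpa using inv_mem h)) hbi
      set q := b * a⁻¹ with hq
      have hqb : q * a = b := by rw [hq, inv_mul_cancel_right]
      have hq1 : 1 < q := by
        have := hmul _ _ a⁻¹ hab'
        rwa [mul_inv_cancel] at this
      have hqD : q ∈ A.stab l p := mul_mem hb (inv_mem ha.1)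
      by_cases hqS : q ∈ A.small hE hC hU1 hU2
      · apply hbs
        rw [← hqb]
        exact mul_mem hqS ha
      · have hqU := hup q hqD hqS hq1
        have e5 := A.act_mono _ _ a (hqU.up w e1 e2)
        rw [← A.act_mul, hqb, e3] at e5
        have e6 : A.act w b < w := A.lt_act_inv_iff.1 (hbU.up w e1 e2)
        exact lt_irrefl _ (e5.trans e6)
  · intro h
    rw [hmemD]
    constructor
    · rintro ⟨e1, e2⟩
      exact hmemD0 h e1 e2
    · rintro ⟨m, e1, e2⟩
      refine ⟨?_, ?_⟩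
      · refine lt_of_le_of_lt (iInf_le _ m) ?_
        rw [hI1]; exact Iic_lt e1
      · refine lt_of_lt_of_le ?_ (le_iSup _ m)
        rw [hI1]; exact Iic_lt e2
  · intro s c hs hc
    exact A.small_conj hE hC hU1 hU2 hs hc
  · intro x y hx hxs hx1 hy
    have hxU := hup x hx hxs hx1
    have hy' := ((hmemD y).1 hy).2
    have := (hxU.tendsto A hU1 hU2 hy').exists
    obtain ⟨m, hm⟩ := this
    rw [hI1] at hm
    exact ⟨m, lt_of_Iic_lt hm⟩
  · intro x y hx hxs hx1 hy hys hy1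
    have hxU := hup x hx hxs hx1
    have hyU := hup y hy hys hy1
    have : A.Up (x * y) l p := by
      refine ⟨hxU.lt, by rw [A.act_mul, hxU.fl, hyU.fl], by rw [A.act_mul, hxU.fp, hyU.fp], ?_⟩
      intro w e1 e2
      rw [A.act_mul]
      have e3 := hxU.up w e1 e2
      refine e3.trans (hyU.up _ (e1.trans e3) ?_)
      calc A.act w x < A.act p x := A.act_mono _ _ _ e2
        _ = p := hxU.fp
    exact ⟨(hup' _ this).2.1, (hup' _ this).2.2⟩
  · intro x c hx hxs hx1 hc
    have hxU := (hup x hx hxs hx1).conj A c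
    rw [hc.1, hc.2] at hxU
    exact ⟨(hup' _ hxU).2.1, (hup' _ hxU).2.2⟩
  · intro x s hx hxs hx1 hs
    have := A.up_mul_small hE hC hU1 hU2 (hup x hx hxs hx1) hs
    exact ⟨(hup' _ this).2.1, (hup' _ this).2.2⟩

end Pool.Agent.Helper94
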