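import Mathlib
import Pool.Agent.Helper94.EngelOrderF

set_option autoImplicit false

/-!
# Hölder commutativity and local indicability of right orderable Engel groups
-/

namespace Pool.Agent.Helper94

/-- An archimedean two-sided ordered group is commutative (Hölder). -/
theorem holder_comm {Q : Type*} [Group Q] [LinearOrder Q]
    (hl : ∀ a b c : Q, a < b → c * a < c * b) (hr : ∀ a b c : Q, a < b → a * c < b * c)
    (harch : ∀ x y : Q, 1 < x → ∃ m : ℕ, y < x ^ m) (a b : Q) : a * b = b * a := by
  have hl' : ∀ a b c : Q, a ≤ b → c * a ≤ c * b := fun a b c h => by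
    rcases lt_or_eq_of_le h with h | h
    · exact (hl _ _ _ h).le
    · rw [h]
  have hr' : ∀ a b c : Q, a ≤ b → a * c ≤ b * c := fun a b c h => by
    rcases lt_or_eq_of_le h with h | h
    · exact (hr _ _ _ h).le
    · rw [h]
  have hmm : ∀ a b c d : Q, a < b → c < d → a * c < b * d := fun a b c d h1 h2 =>
    (hr _ _ _ h1).trans (hl _ _ _ h2)
  have hmm' : ∀ a b c d : Q, a ≤ b → c ≤ d → a * c ≤ b * d := fun a b c d h1 h2 =>
    (hr' _ _ _ h1).trans (hl' _ _ _ h2)
  -- division with remainder
  have hdiv : ∀ x y : Q, 1 < x → 1 < y → ∃ m : ℕ, x ^ m ≤ y ∧ y < x ^ (m + 1) := by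
    classical
    intro x y hx hy
    have hex := harch x y hx
    have h1 := Nat.find_spec hex
    have h0 : Nat.find hex ≠ 0 := by
      intro h
      rw [h, pow_zero] at h1
      exact lt_asymm h1 hy
    obtain ⟨m, hm⟩ := Nat.exists_eq_succ_of_ne_zero h0
    refine ⟨m, ?_, ?_⟩
    · have := Nat.find_min hex (m := m) (by omega)
      exact not_lt.1 this
    · rw [← Nat.succ_eq_add_one, ← hm]; exact h1
  -- positive elements
  have hpos : ∀ a b : Q, 1 < a → 1 < b → ¬ b * a < a * b := by
    intro a b ha hb hlt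
    set x := a * b * (b * a)⁻¹ with hx
    have hx1 : 1 < x := by
      have := hr _ _ (b * a)⁻¹ hlt
      rwa [mul_inv_cancel] at this
    by_cases hmin : ∃ z : Q, 1 < z ∧ z < x
    · obtain ⟨z, hz1, hz2⟩ := hmin
      -- a `y > 1` with `y * y ≤ x`
      have hy : ∃ y : Q, 1 < y ∧ y * y ≤ x := by
        by_cases hzz : z * z ≤ x
        · exact ⟨z, hz1, hzz⟩
        · push Not at hzz
          refine ⟨x * z⁻¹, ?_, ?_⟩
          · have := hr _ _ z⁻¹ hz2
            rwa [mul_inv_cancel] at this
          · have h1 : x * z⁻¹ < z := by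
              have := hr _ _ z⁻¹ hzz
              rwa [mul_inv_cancel_right] at this
            have h2 := hl _ _ (x * z⁻¹) h1
            rw [inv_mul_cancel_right] at h2
            exact h2.le
      obtain ⟨y, hy1, hy2⟩ := hy
      obtain ⟨m, hm1, hm2⟩ := hdiv y a hy1 ha
      obtain ⟨k, hk1, hk2⟩ := hdiv y b hy1 hb
      have h1 : a * b < y ^ (m + 1) * y ^ (k + 1) := hmm _ _ _ _ hm2 hk2
      have h2 : y ^ k * y ^ m ≤ b * a := hmm' _ _ _ _ hk1 hm1
      have h3 : a * b = x * (b * a) := by rw [hx, inv_mul_cancel_right]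
      have h4 : y * y * (y ^ k * y ^ m) ≤ x * (b * a) := hmm' _ _ _ _ hy2 h2
      rw [← h3] at h4
      have h5 : y * y * (y ^ k * y ^ m) = y ^ (m + 1) * y ^ (k + 1) := by
        rw [← pow_add, ← pow_add, ← pow_two, ← pow_add]
        congr 1
        omega
      rw [h5] at h4
      exact absurd h1 (not_lt.2 h4)
    · push Not at hmin
      obtain ⟨m, hm1, hm2⟩ := hdiv x a hx1 ha
      obtain ⟨k, hk1, hk2⟩ := hdiv x b hx1 hb
      have key : ∀ (c : Q) (j : ℕ), x ^ j ≤ c → c < x ^ (j + 1) → c = x ^ j := by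
        intro c j h1 h2
        rcases lt_or_eq_of_le h1 with h3 | h3
        · exfalso
          have h4 := hl _ _ (x ^ j)⁻¹ h3
          rw [inv_mul_cancel] at h4
          have h5 := hl _ _ (x ^ j)⁻¹ h2
          rw [pow_succ, inv_mul_cancel_left] at h5
          exact absurd h5 (not_lt.2 (hmin _ h4))
        · exact h3.symm
      have e1 := key a m hm1 hm2
      have e2 := key b k hk1 hk2
      rw [e1, e2, ← pow_add, ← pow_add, add_comm] at hlt
      exact lt_irrefl _ hlt
  have hpos' : ∀ a b : Q, 1 < a → 1 < b → a * b = b * a := fun a b ha hb =>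
    le_antisymm (not_lt.1 (hpos a b ha hb)) (not_lt.1 (hpos b a hb ha))
  have hinv : ∀ a : Q, a < 1 → 1 < a⁻¹ := fun a ha => by
    have := hr _ _ a⁻¹ ha
    rwa [mul_inv_cancel, one_mul] at this
  have hC : ∀ a b : Q, Commute a b := by
    intro a b
    have h1 : ∀ a b : Q, 1 < b → Commute a b := by
      intro a b hb
      rcases lt_trichotomy a 1 with h | h | h
      · have : Commute a⁻¹ b := hpos' _ _ (hinv a h) hb
        exact Commute.inv_left_iff.1 this
      · rw [h]; exact Commute.one_left _
      · exact hpos' _ _ h hb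
    rcases lt_trichotomy b 1 with h | h | h
    · exact Commute.inv_right_iff.1 (h1 a b⁻¹ (hinv b h))
    · rw [h]; exact Commute.one_right _
    · exact h1 a b h
  exact hC a b

/-- A nontrivial finitely generated torsion free abelian group maps onto `ℤ`. -/
theorem exists_surj_of_comm {Q : Type*} [CommGroup Q] [Group.FG Q] [Nontrivial Q]
    (htf : ∀ (x : Q) (n : ℕ), n ≠ 0 → x ^ n = 1 → x = 1) :
    ∃ φ : Q →* Multiplicative ℤ, Function.Surjective φ := by
  have h1 : Module.Finite ℤ (Additive Q) := Module.Finite.iff_addGroup_fg.2 inferInstance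
  have h2 : IsAddTorsionFree (Additive Q) := by
    refine ⟨fun n hn x y hxy => ?_⟩
    have h3 : (x.toMul) ^ n = (y.toMul) ^ n := hxy
    have h4 : (x.toMul * (y.toMul)⁻¹) ^ n = 1 := by
      rw [mul_pow, inv_pow, h3, mul_inv_cancel]
    have h5 := htf _ n hn h4
    have h6 : x.toMul = y.toMul := by rwa [mul_inv_eq_one] at h5
    exact h6
  have h3 : Module.Free ℤ (Additive Q) := Module.free_of_finite_type_torsion_free'
  let b := Module.Free.chooseBasis ℤ (Additive Q)
  have hne : Nonempty (Module.Free.ChooseBasisIndex ℤ (Additive Q)) := by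
    by_contra hcon
    rw [not_nonempty_iff] at hcon
    have : Subsingleton (Additive Q) := b.repr.toEquiv.subsingleton
    exact not_subsingleton (Additive Q) this
  obtain ⟨i⟩ := hne
  refine ⟨AddMonoidHom.toMultiplicativeRight ((b.coord i).toAddMonoidHom), ?_⟩
  intro z
  refine ⟨(z.toAdd • b i).toMul, ?_⟩
  have : (b.coord i) (z.toAdd • b i) = z.toAdd := by simp
  change Multiplicative.ofAdd ((b.coord i) (z.toAdd • b i)) = z
  rw [this]
  rfl

end Pool.Agent.Helper94
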