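import Mathlib
import Pool.Agent.Helper277.ZG.All
import Pool.Agent.Helper94.BiOrder

set_option autoImplicit false

namespace Pool.Agent.Helper94.EngelTFAE

open Pool.Agent.Helper277 Pool.Agent.Helper94.BiOrder

theorem class_of_ro (n : ℕ) : ∃ c : ℕ, ∀ (G : Type) [Group G],
    (∀ x y : G, (fun z : G => z⁻¹ * y⁻¹ * z * y)^[n] x = 1) →
    ((∃ lo : LinearOrder G, ∀ a b c : G, lo.le a b → lo.le (a * c) (b * c)) →
      Subgroup.upperCentralSeries G c = ⊤) ∧
    ((∀ K : Subgroup G, K.FG → K ≠ ⊥ → ∃ φ : K →* Multiplicative ℤ, Function.Surjective φ) →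
      Subgroup.upperCentralSeries G c = ⊤) := by
  obtain ⟨c1, h1⟩ := ZG.H94.ZelGroup.zel_S01969_of zelLie n
  obtain ⟨c2, h2⟩ := ZG.H94.ZelGroup.class_glob zelLie n
  refine ⟨max c1 c2, ?_⟩
  intro G _ hE
  constructor
  · rintro ⟨lo, hmul⟩
    have h : Subgroup.upperCentralSeries G c1 = ⊤ := h1 G ⟨lo.le, fun x y => lo.le_total x y, fun x y h1 h2 => lo.le_antisymm x y h1 h2,
      fun x y z h1 h2 => lo.le_trans x y z h1 h2, hmul⟩ hE
    have hm := Subgroup.upperCentralSeries_mono G (le_max_left c1 c2)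
    rw [h] at hm
    exact top_le_iff.1 hm
  · intro hLI
    have h : Subgroup.upperCentralSeries G c2 = ⊤ := h2 G hE hLI
    have hm := Subgroup.upperCentralSeries_mono G (le_max_right c1 c2)
    rw [h] at hm
    exact top_le_iff.1 hm

theorem locInd_of_ro (n : ℕ) (G : Type) [Group G]
    (hE : ∀ x y : G, (fun z : G => z⁻¹ * y⁻¹ * z * y)^[n] x = 1)
    (hro : ∃ lo : LinearOrder G, ∀ a b c : G, lo.le a b → lo.le (a * c) (b * c)) :
    ∀ K : Subgroup G, K.FG → K ≠ ⊥ → ∃ φ : K →* Multiplicative ℤ, Function.Surjective φ := by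
  obtain ⟨lo, hmul⟩ := hro
  let _ := lo
  have hmul' : ∀ a b c : G, a < b → a * c < b * c := fun a b c h =>
    lt_of_le_of_ne (hmul a b c h.le) (fun he => h.ne (mul_right_cancel he))
  have htot : ∀ a b : G, a = b ∨ a < b ∨ b < a := by
    intro a b
    rcases lt_trichotomy a b with h | h | h
    · exact Or.inr (Or.inl h)
    · exact Or.inl h
    · exact Or.inr (Or.inr h)
  exact (ZG.H94.right_order_jumps (n := n) (G := G) hE
    (fun a b => a < b) (fun a => lt_irrefl a) (fun a b c => lt_trans) htot hmul').2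

theorem biord_of_nilp (n c : ℕ) (G : Type) [Group G]
    (hE : ∀ x y : G, (fun z : G => z⁻¹ * y⁻¹ * z * y)^[n] x = 1)
    (htf : ∀ a : G, ∀ m : ℕ, 0 < m → a ^ m = 1 → a = 1)
    (hc : Subgroup.upperCentralSeries G c = ⊤) :
    ∃ lo : LinearOrder G, ∀ a b c : G, lo.le a b →
      lo.le (c * a) (c * b) ∧ lo.le (a * c) (b * c) := by
  obtain ⟨P, hP⟩ := nilp_cone n c G htf hE hc
  exact order_of_cone hP

theorem tf_of_locInd {G : Type*} [Group G]
    (hLI : ∀ K : Subgroup G, K.FG → K ≠ ⊥ → ∃ φ : K →* Multiplicative ℤ, Function.Surjective φ)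
    (a : G) (m : ℕ) (hm : 0 < m) (ha : a ^ m = 1) : a = 1 := by
  by_contra hne
  have hfg : (Subgroup.zpowers a).FG := ⟨{a}, by simp [Subgroup.zpowers_eq_closure]⟩
  have hbot : Subgroup.zpowers a ≠ ⊥ := fun h => hne (Subgroup.zpowers_eq_bot.1 h)
  obtain ⟨φ, hφ⟩ := hLI _ hfg hbot
  obtain ⟨x, hx⟩ := hφ (Multiplicative.ofAdd 1)
  have hx1 : x ^ m = 1 := by
    obtain ⟨k, hk⟩ := Subgroup.mem_zpowers_iff.1 x.2
    apply Subtype.ext
    rw [Subgroup.coe_pow, ← hk, ← zpow_natCast, ← zpow_mul, mul_comm, zpow_mul, zpow_natCast, ha,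
      one_zpow]
    rfl
  have h1 := congrArg φ hx1
  rw [MonoidHom.map_pow, hx, MonoidHom.map_one] at h1
  have h2 : (m • (1 : ℤ)) = 0 := h1
  simp at h2
  omega

end Pool.Agent.Helper94.EngelTFAE
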