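import Mathlib

set_option autoImplicit false

namespace Pool.Agent.Helper94

open Matrix

section ringpart

variable {R A : Type*} [CommRing R] [Ring A] [Algebra R A]

theorem N_mul_pow {N : Submodule R A} (hN : N * N ≤ N) (n : ℕ) : N * N ^ (n + 1) ≤ N ^ (n + 1) := by
  rw [pow_succ', ← mul_assoc]
  exact mul_le_mul' hN le_rfl

theorem comm_mem {N : Submodule R A} (hN : N * N ≤ N) {h k : Aˣ} {n : ℕ}
    (hh : (h : A) - 1 ∈ N ^ (n + 1)) (hk : (k : A) - 1 ∈ N)
    (hh' : ((h⁻¹ : Aˣ) : A) - 1 ∈ N) (hk' : ((k⁻¹ : Aˣ) : A) - 1 ∈ N) :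
    ((h⁻¹ * k⁻¹ * h * k : Aˣ) : A) - 1 ∈ N ^ (n + 2) := by
  set Z : A := ((h : A) - 1) * ((k : A) - 1) - ((k : A) - 1) * ((h : A) - 1) with hZ
  have hZm : Z ∈ N ^ (n + 2) := by
    apply Submodule.sub_mem
    · rw [pow_succ]; exact Submodule.mul_mem_mul hh hk
    · rw [pow_succ']; exact Submodule.mul_mem_mul hk hh
  have e : ((h⁻¹ * k⁻¹ * h * k : Aˣ) : A) - 1 = ((h⁻¹ : Aˣ) : A) * (((k⁻¹ : Aˣ) : A) * Z) := by
    have e1 : Z = (h : A) * k - k * h := by rw [hZ]; noncomm_ring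
    rw [e1, mul_sub, mul_sub]
    simp [Units.val_mul, mul_assoc]
  have act : ∀ u : A, u - 1 ∈ N → ∀ z ∈ N ^ (n + 2), u * z ∈ N ^ (n + 2) := by
    intro u hu z hz
    have : u * z = z + (u - 1) * z := by noncomm_ring
    rw [this]
    exact Submodule.add_mem _ hz (N_mul_pow hN (n + 1) (Submodule.mul_mem_mul hu hz))
  rw [e]
  exact act _ hh' _ (act _ hk' _ hZm)

/-- The subgroup of units `g` with `g - 1` and `g⁻¹ - 1` in `N`. -/
def unitGroup (N : Submodule R A) (hN : N * N ≤ N) : Subgroup Aˣ where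
  carrier := {g | (g : A) - 1 ∈ N ∧ ((g⁻¹ : Aˣ) : A) - 1 ∈ N}
  one_mem' := by simp
  mul_mem' := by
    rintro a b ⟨ha, ha'⟩ ⟨hb, hb'⟩
    have key : ∀ x y : A, x - 1 ∈ N → y - 1 ∈ N → x * y - 1 ∈ N := by
      intro x y hx hy
      have : x * y - 1 = (x - 1) * (y - 1) + (x - 1) + (y - 1) := by noncomm_ring
      rw [this]
      exact N.add_mem (N.add_mem (hN (Submodule.mul_mem_mul hx hy)) hx) hy
    refine ⟨by rw [Units.val_mul]; exact key _ _ ha hb, ?_⟩
    rw [_root_.mul_inv_rev, Units.val_mul]; exact key _ _ hb' ha'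
  inv_mem' := by
    rintro a ⟨ha, ha'⟩
    exact ⟨ha', by simpa using ha⟩

theorem mem_unitGroup {N : Submodule R A} {hN : N * N ≤ N} {g : Aˣ} :
    g ∈ unitGroup N hN ↔ (g : A) - 1 ∈ N ∧ ((g⁻¹ : Aˣ) : A) - 1 ∈ N := Iff.rfl

theorem foldl_mem {N : Submodule R A} (hN : N * N ≤ N) (hs : List Aˣ)
    (hhs : ∀ b ∈ hs, b ∈ unitGroup N hN) :
    ∀ (n : ℕ) (h0 : Aˣ), h0 ∈ unitGroup N hN → (h0 : A) - 1 ∈ N ^ (n + 1) →
      ((hs.foldl (fun a b : Aˣ => a⁻¹ * b⁻¹ * a * b) h0 : Aˣ) : A) - 1 ∈ N ^ (n + hs.length + 1) := by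
  induction hs with
  | nil => intro n h0 _ h; simpa using h
  | cons b t ih =>
    intro n h0 h0m h
    have hb := hhs b (by simp)
    simp only [List.foldl_cons, List.length_cons]
    have := ih (fun c hc => hhs c (by simp [hc])) (n + 1) (h0⁻¹ * b⁻¹ * h0 * b)
      (Subgroup.mul_mem _ (Subgroup.mul_mem _ (Subgroup.mul_mem _ (Subgroup.inv_mem _ h0m)
        (Subgroup.inv_mem _ hb)) h0m) hb)
      (comm_mem hN h hb.1 h0m.2 hb.2)
    have e : n + 1 + t.length + 1 = n + (t.length + 1) + 1 := by omega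
    rw [← e]; exact this

theorem foldl_eq_one {N : Submodule R A} (hN : N * N ≤ N) {m : ℕ} (hm : N ^ (m + 1) = ⊥)
    (hs : List Aˣ) (hlen : hs.length = m)
    (hhs : ∀ b ∈ hs, b ∈ unitGroup N hN) (h0 : Aˣ) (h0m : h0 ∈ unitGroup N hN) :
      hs.foldl (fun a b : Aˣ => a⁻¹ * b⁻¹ * a * b) h0 = 1 := by
  have := foldl_mem hN hs hhs 0 h0 h0m (by simpa using h0m.1)
  rw [hlen, zero_add, hm, Submodule.mem_bot, sub_eq_zero] at this
  exact Units.ext this

theorem iterate_eq_one {N : Submodule R A} (hN : N * N ≤ N) {m : ℕ} (hm : N ^ (m + 1) = ⊥)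
    (x g : Aˣ) (hx : x ∈ unitGroup N hN) (hg : g ∈ unitGroup N hN) :
      (fun y : Aˣ => y⁻¹ * x⁻¹ * y * x)^[m] g = 1 := by
  have h1 := foldl_eq_one hN hm (List.replicate m x) (by simp)
    (by intro b hb; rw [List.eq_of_mem_replicate hb]; exact hx) g hg
  have h2 : ∀ (m : ℕ) (g : Aˣ), (List.replicate m x).foldl (fun a b : Aˣ => a⁻¹ * b⁻¹ * a * b) g
      = (fun y : Aˣ => y⁻¹ * x⁻¹ * y * x)^[m] g := by
    intro m
    induction m with
    | zero => intro g; rfl
    | succ m ih => intro g; rw [List.replicate_succ, List.foldl_cons, ih, Function.iterate_succ_apply]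
  rw [← h2]; exact h1

end ringpart

section matpart

variable {R : Type*} [CommRing R]

/-- Matrices all of whose entries lie in `I`. -/
def MI (I : Ideal R) : Submodule R (Matrix (Fin 3) (Fin 3) R) where
  carrier := {X | ∀ i j, X i j ∈ I}
  add_mem' := fun ha hb i j => I.add_mem (ha i j) (hb i j)
  zero_mem' := fun _ _ => I.zero_mem
  smul_mem' := fun c _ hX i j => I.mul_mem_left c (hX i j)

/-- Matrices all of whose entries, except possibly the `(0,1)` entry, lie in `I`. -/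
def NI (I : Ideal R) : Submodule R (Matrix (Fin 3) (Fin 3) R) where
  carrier := {X | ∀ i j, ¬ (i = 0 ∧ j = 1) → X i j ∈ I}
  add_mem' := fun ha hb i j h => I.add_mem (ha i j h) (hb i j h)
  zero_mem' := fun _ _ _ => I.zero_mem
  smul_mem' := fun c _ hX i j h => I.mul_mem_left c (hX i j h)

theorem mem_MI {I : Ideal R} {X : Matrix (Fin 3) (Fin 3) R} : X ∈ MI I ↔ ∀ i j, X i j ∈ I := Iff.rfl

theorem mem_NI {I : Ideal R} {X : Matrix (Fin 3) (Fin 3) R} :
    X ∈ NI I ↔ ∀ i j, ¬ (i = 0 ∧ j = 1) → X i j ∈ I := Iff.rfl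

theorem MI_le_NI (I : Ideal R) : MI I ≤ NI I := fun _ hX i j _ => hX i j

theorem NI_mono {I J : Ideal R} (h : I ≤ J) : NI I ≤ NI J := fun _ hX i j hij => h (hX i j hij)

theorem MI_mul_MI (I J : Ideal R) : MI I * MI J ≤ MI (I * J) := by
  rw [Submodule.mul_le]
  intro X hX Y hY i j
  rw [Matrix.mul_apply]
  exact Ideal.sum_mem _ (fun k _ => Ideal.mul_mem_mul (hX i k) (hY k j))

theorem NI_mul_NI (I : Ideal R) : NI I * NI I ≤ MI I := by
  rw [Submodule.mul_le]
  intro X hX Y hY i j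
  rw [Matrix.mul_apply]
  refine Ideal.sum_mem _ (fun k _ => ?_)
  by_cases h : i = 0 ∧ k = 1
  · refine I.mul_mem_left _ (hY k j ?_)
    rintro ⟨h1, _⟩
    rw [h.2] at h1; exact absurd h1 (by decide)
  · exact I.mul_mem_right _ (hX i k h)

theorem NI_mul_NI' (I : Ideal R) : NI I * NI I ≤ NI I := (NI_mul_NI I).trans (MI_le_NI I)

theorem NI_pow (I : Ideal R) (k : ℕ) : NI I ^ (2 * (k + 1)) ≤ MI (I ^ (k + 1)) := by
  induction k with
  | zero => simpa [pow_two] using NI_mul_NI I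
  | succ k ih =>
    have e : 2 * (k + 1 + 1) = 2 * (k + 1) + 2 := by ring
    rw [e, pow_add, pow_succ I (k + 1)]
    refine (mul_le_mul' ih ?_).trans (MI_mul_MI _ _)
    rw [pow_two]; exact NI_mul_NI I

theorem MI_bot : MI (⊥ : Ideal R) = ⊥ := by
  rw [eq_bot_iff]
  intro X hX
  rw [Submodule.mem_bot]
  ext i j
  have := hX i j
  simpa using this

theorem NI_pow_eq_bot {I : Ideal R} {k : ℕ} (h : I ^ (k + 1) = ⊥) : NI I ^ (2 * k + 1 + 1) = ⊥ := by
  have e : 2 * k + 1 + 1 = 2 * (k + 1) := by ring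
  rw [e, eq_bot_iff, ← MI_bot, ← h]
  exact NI_pow I k

/-- The group of matrices congruent to upper unitriangular matrices `1 + c e_{01}` modulo `I`. -/
def GI (I : Ideal R) : Subgroup (Matrix (Fin 3) (Fin 3) R)ˣ := unitGroup (NI I) (NI_mul_NI' I)

theorem mem_GI {I : Ideal R} {g : (Matrix (Fin 3) (Fin 3) R)ˣ} :
    g ∈ GI I ↔ (g : Matrix (Fin 3) (Fin 3) R) - 1 ∈ NI I ∧
      ((g⁻¹ : (Matrix (Fin 3) (Fin 3) R)ˣ) : Matrix (Fin 3) (Fin 3) R) - 1 ∈ NI I := Iff.rfl

end matpart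

section nilideal

variable {R : Type*} [CommRing R]

/-- An ideal generated by `k` elements of square zero has nilpotency index at most `k + 1`. -/
theorem span_finset_pow (s : Finset R) (hs : ∀ c ∈ s, c ^ 2 = 0) :
    (Ideal.span (s : Set R)) ^ (s.card + 1) = ⊥ := by
  classical
  induction s using Finset.induction_on with
  | empty => simp
  | insert a s ha ih =>
    have h1 : (Ideal.span (s : Set R)) ^ (s.card + 1) = ⊥ := ih (fun c hc => hs c (by simp [hc]))
    have ha2 : a ^ 2 = 0 := hs a (by simp)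
    rw [Finset.coe_insert, Ideal.span_insert, Finset.card_insert_of_notMem ha]
    rw [eq_bot_iff]
    set K := Ideal.span (s : Set R)
    -- (span{a} ⊔ K)^(c+2) ≤ span{a}^2 ⊔ K^(c+1)
    have h2 : (Ideal.span ({a} : Set R)) ^ 2 = ⊥ := by
      rw [Ideal.span_singleton_pow, ha2]; simp
    have key : ∀ n : ℕ, (Ideal.span {a} ⊔ K) ^ (n + 1) ≤ Ideal.span {a} * K ^ n ⊔ K ^ (n + 1) := by
      intro n
      induction n with
      | zero => simp
      | succ n ihn =>
        rw [pow_succ]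
        refine (mul_le_mul' ihn le_rfl).trans ?_
        rw [Ideal.sup_mul, Ideal.mul_sup, Ideal.mul_sup]
        refine sup_le (sup_le ?_ ?_) (sup_le ?_ ?_)
        · have : Ideal.span {a} * K ^ n * Ideal.span {a} = (Ideal.span ({a} : Set R)) ^ 2 * K ^ n := by
            ring
          rw [this, h2]; simp
        · refine le_sup_of_le_left ?_
          rw [pow_succ, ← mul_assoc]
        · refine le_sup_of_le_left ?_
          rw [mul_comm]
        · refine le_sup_of_le_right ?_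
          rw [pow_succ K (n + 1)]
    refine (key (s.card + 1)).trans ?_
    rw [h1, pow_succ K (s.card + 1), h1]
    simp

theorem span_finset_pow_le (s : Finset R) (hs : ∀ c ∈ s, c ^ 2 = 0) (k : ℕ) (hk : s.card ≤ k) :
    (Ideal.span (s : Set R)) ^ (k + 1) = ⊥ := by
  have h1 := span_finset_pow s hs
  have h2 : Ideal.span (s : Set R) ^ (k + 1) ≤ Ideal.span (s : Set R) ^ (s.card + 1) :=
    Ideal.pow_le_pow_right (Nat.succ_le_succ hk)
  exact le_bot_iff.1 (h2.trans h1.le)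

end nilideal

end Pool.Agent.Helper94
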