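import Mathlib
import Pool.Agent.Helper94.Elem
import Pool.Agent.Helper94.Nil

set_option autoImplicit false

namespace Pool.Agent.Helper94

open Matrix

/-- A commutative ring with an ideal `J` such that `R / J` has two elements, every element of `J`
has square zero, and `J` is not nilpotent. -/
structure Good (R : Type*) [CommRing R] (J : Ideal R) : Prop where
  sq : ∀ c ∈ J, c ^ 2 = 0
  res : ∀ r : R, r ∈ J ∨ r - 1 ∈ J
  notnil : ∀ m : ℕ, J ^ m ≠ ⊥

variable {R : Type*} [CommRing R]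

/-- `r ↦ 1 + r e_{ij}` as a homomorphism. -/
def ElHom (i j : Fin 3) (h : i ≠ j) : Multiplicative R →* (Matrix (Fin 3) (Fin 3) R)ˣ where
  toFun r := El i j h (Multiplicative.toAdd r)
  map_one' := El_zero i j h
  map_mul' x y := by rw [El_mul]; rfl

theorem El02_mem_zpowers {r : R}
    (h : El 0 2 (by decide) r ∈ Subgroup.zpowers (El 0 1 (by decide) (1 : R))) : r = 0 := by
  obtain ⟨k, hk⟩ := Subgroup.mem_zpowers_iff.1 h
  have e : (El 0 1 (by decide) (1 : R)) ^ k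
      = El 0 1 (by decide) (Multiplicative.toAdd ((Multiplicative.ofAdd (1 : R)) ^ k)) := by
    have := map_zpow (ElHom (R := R) 0 1 (by decide)) (Multiplicative.ofAdd (1 : R)) k
    exact this.symm
  rw [e] at hk
  have h2 := congrArg (fun g : (Matrix (Fin 3) (Fin 3) R)ˣ => (g : Matrix (Fin 3) (Fin 3) R) 0 2) hk
  simp [El_val, single] at h2
  exact h2.symm

theorem El_mem_GI {J : Ideal R} {i j : Fin 3} (h : i ≠ j) {r : R} (hr : r ∈ J) :
    El i j h r ∈ GI J := by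
  have key : ∀ r ∈ J, single i j r ∈ NI J := by
    intro r hr a b _
    by_cases h1 : i = a <;> by_cases h2 : j = b <;> simp [single, h1, h2, hr]
  rw [mem_GI]
  constructor
  · rw [El_val, add_sub_cancel_left]; exact key r hr
  · rw [El_inv, El_val, add_sub_cancel_left]; exact key _ (J.neg_mem hr)

theorem El01_mem_GI {J : Ideal R} (r : R) : El 0 1 (by decide) r ∈ GI J := by
  have key : ∀ r : R, single (0 : Fin 3) (1 : Fin 3) r ∈ NI J := by
    intro r a b hab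
    have : ¬ ((0 : Fin 3) = a ∧ (1 : Fin 3) = b) := by
      rintro ⟨h1, h2⟩; exact hab ⟨h1.symm, h2.symm⟩
    simp [single, this]
  rw [mem_GI]
  constructor
  · rw [El_val, add_sub_cancel_left]; exact key r
  · rw [El_inv, El_val, add_sub_cancel_left]; exact key _

/-- The homomorphism on unit groups of `3 × 3` matrices induced by a ring homomorphism. -/
def mapU {S : Type*} [CommRing S] (π : R →+* S) :
    (Matrix (Fin 3) (Fin 3) R)ˣ →* (Matrix (Fin 3) (Fin 3) S)ˣ :=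
  Units.map (π.mapMatrix : Matrix (Fin 3) (Fin 3) R →+* Matrix (Fin 3) (Fin 3) S).toMonoidHom

theorem mapU_val {S : Type*} [CommRing S] (π : R →+* S) (g : (Matrix (Fin 3) (Fin 3) R)ˣ)
    (i j : Fin 3) : ((mapU π g : (Matrix (Fin 3) (Fin 3) S)ˣ) : Matrix (Fin 3) (Fin 3) S) i j
      = π ((g : Matrix (Fin 3) (Fin 3) R) i j) := rfl

theorem mapU_El {S : Type*} [CommRing S] (π : R →+* S) (i j : Fin 3) (h : i ≠ j) (r : R) :
    mapU π (El i j h r) = El i j h (π r) := by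
  apply Units.ext
  ext p q
  rw [mapU_val, El_val, El_val]
  simp only [Matrix.add_apply, single, Matrix.of_apply, Matrix.one_apply]
  split_ifs <;> simp

/-- Abstract form of the non-subnormality argument. -/
theorem push {G : Type*} [Group G] {S : Type*} [CommRing S] (J : Ideal S)
    (Ψ : G →* (Matrix (Fin 3) (Fin 3) S)ˣ) (y : G) (hy : Ψ y = El 0 1 (by decide) 1)
    (hJ : HasEl Ψ.range J) (n : ℕ) (K : ℕ → Subgroup G)
    (h0 : K 0 = Subgroup.zpowers y) (hn : K n = ⊤)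
    (hK : ∀ i : ℕ, i < n → (K i ≤ K (i + 1) ∧
      ∀ a : G, a ∈ K (i + 1) → ∀ b : G, b ∈ K i → a * b * a⁻¹ ∈ K i)) :
    ∃ m : ℕ, J ^ m = ⊥ := by
  have hK'0 : (K 0).map Ψ = Subgroup.zpowers (El 0 1 (by decide) (1 : S)) := by
    rw [h0, MonoidHom.map_zpowers, hy]
  have hK'n : HasEl ((K n).map Ψ) J := by
    intro i j h r hr
    obtain ⟨g, hg⟩ := hJ i j h r hr
    exact ⟨g, by rw [hn]; trivial, hg⟩
  have hmono' : ∀ i < n, (K i).map Ψ ≤ (K (i + 1)).map Ψ := fun i hi => Subgroup.map_mono (hK i hi).1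
  have hnorm' : ∀ i < n, ∀ a ∈ (K (i + 1)).map Ψ, ∀ b ∈ (K i).map Ψ, a * b * a⁻¹ ∈ (K i).map Ψ := by
    rintro i hi _ ⟨a, ha, rfl⟩ _ ⟨b, hb, rfl⟩
    exact ⟨a * b * a⁻¹, (hK i hi).2 a ha b hb, by simp⟩
  obtain ⟨m, hm⟩ := chain (K := fun i => (K i).map Ψ) hmono' hnorm'
    (by show _ ∈ (K 0).map Ψ; rw [hK'0]; exact Subgroup.mem_zpowers _) hK'n
  refine ⟨m, ?_⟩
  rw [eq_bot_iff]
  intro r hr
  have := hm 0 2 (by decide) r hr
  rw [hK'0] at this
  rw [Ideal.mem_bot]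
  exact El02_mem_zpowers this

/-- Elements of `GI J` generating a subnormal cyclic subgroup are congruent to `1` modulo `J`. -/
theorem subnormal_mem {J : Ideal R} (hG : Good R J) (y : GI J) (n : ℕ) (K : ℕ → Subgroup (GI J))
    (h0 : K 0 = Subgroup.zpowers y) (hn : K n = ⊤)
    (hK : ∀ i : ℕ, i < n → (K i ≤ K (i + 1) ∧
      ∀ a : GI J, a ∈ K (i + 1) → ∀ b : GI J, b ∈ K i → a * b * a⁻¹ ∈ K i)) :
    ((y : (Matrix (Fin 3) (Fin 3) R)ˣ) : Matrix (Fin 3) (Fin 3) R) - 1 ∈ MI J := by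
  classical
  by_contra hy
  obtain ⟨Y, hYdef⟩ : ∃ Y : Matrix (Fin 3) (Fin 3) R,
    Y = ((y : (Matrix (Fin 3) (Fin 3) R)ˣ) : Matrix (Fin 3) (Fin 3) R) := ⟨_, rfl⟩
  rw [← hYdef] at hy
  have hYN : Y - 1 ∈ NI J := by rw [hYdef]; exact (mem_GI.1 y.2).1
  -- the (0,1) entry is not in J
  have h01 : (Y - 1) 0 1 ∉ J := by
    intro h
    apply hy
    intro i j
    by_cases hij : i = 0 ∧ j = 1
    · rw [hij.1, hij.2]; exact h
    · exact hYN i j hij
  have h01' : (Y - 1) 0 1 - 1 ∈ J := (hG.res _).resolve_left h01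
  obtain ⟨a, ha⟩ : ∃ a : (Matrix (Fin 3) (Fin 3) R)ˣ, a = El 0 1 (by decide) (1 : R) := ⟨_, rfl⟩
  have hYa : Y - (a : Matrix (Fin 3) (Fin 3) R) ∈ MI J := by
    intro i j
    by_cases hij : i = 0 ∧ j = 1
    · rw [hij.1, hij.2]
      have : (Y - (a : Matrix (Fin 3) (Fin 3) R)) 0 1 = (Y - 1) 0 1 - 1 := by
        simp [ha, El_val, single]
      rw [this]; exact h01'
    · have : (Y - (a : Matrix (Fin 3) (Fin 3) R)) i j = (Y - 1) i j := by
        have h3 : ¬ ((0 : Fin 3) = i ∧ (1 : Fin 3) = j) := by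
          rintro ⟨h1, h2⟩; exact hij ⟨h1.symm, h2.symm⟩
        simp [ha, El_val, single, h3]
      rw [this]; exact hYN i j hij
  -- the ideal generated by the entries of Y - a
  obtain ⟨s, hs⟩ : ∃ s : Finset R, s = Finset.image
    (fun p : Fin 3 × Fin 3 => (Y - (a : Matrix (Fin 3) (Fin 3) R)) p.1 p.2) Finset.univ := ⟨_, rfl⟩
  have hsJ : ∀ c ∈ s, c ∈ J := by
    intro c hc
    rw [hs, Finset.mem_image] at hc
    obtain ⟨p, _, rfl⟩ := hc
    exact hYa p.1 p.2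
  have hnil : Ideal.span (s : Set R) ^ (s.card + 1) = ⊥ :=
    span_finset_pow s (fun c hc => hG.sq c (hsJ c hc))
  have hyΨ : ((mapU (Ideal.Quotient.mk (Ideal.span (s : Set R)))).comp (GI J).subtype) y
      = El 0 1 (by decide) 1 := by
    have h1 : mapU (Ideal.Quotient.mk (Ideal.span (s : Set R))) a = El 0 1 (by decide) 1 := by
      rw [ha, mapU_El, map_one]
    rw [← h1]
    apply Units.ext
    ext p q
    rw [MonoidHom.comp_apply, Subgroup.subtype_apply, mapU_val, mapU_val, ← hYdef,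
      Ideal.Quotient.eq]
    apply Ideal.subset_span
    rw [hs, Finset.coe_image]
    exact ⟨(p, q), by simp, rfl⟩
  have hrange : HasEl ((mapU (Ideal.Quotient.mk (Ideal.span (s : Set R)))).comp
      (GI J).subtype).range (J.map (Ideal.Quotient.mk (Ideal.span (s : Set R)))) := by
    intro i j h r hr
    obtain ⟨r', hr', rfl⟩ :=
      (Ideal.mem_map_iff_of_surjective _ Ideal.Quotient.mk_surjective).1 hr
    rw [← mapU_El]
    exact ⟨⟨El i j h r', El_mem_GI h hr'⟩, rfl⟩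
  obtain ⟨m, hzero⟩ := push _ _ y hyΨ hrange n K h0 hn hK
  rw [← Ideal.map_pow, Ideal.map_eq_bot_iff_le_ker, Ideal.mk_ker] at hzero
  apply hG.notnil (m * (s.card + 1))
  rw [eq_bot_iff, pow_mul, ← hnil]
  exact Ideal.pow_right_mono hzero _

/-- Any finite set of elements of `GI J` lies in `GI I` for some ideal `I` with `I ^ (k+1) = 0`. -/
theorem finite_subset_GI {J : Ideal R} (hsq : ∀ c ∈ J, c ^ 2 = 0)
    (F : Set (Matrix (Fin 3) (Fin 3) R)ˣ) (hF : F.Finite) (hFJ : ∀ g ∈ F, g ∈ GI J) :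
    ∃ (I : Ideal R) (k : ℕ), I ^ (k + 1) = ⊥ ∧ ∀ g ∈ F, g ∈ GI I := by
  classical
  set P : Finset (Fin 3 × Fin 3) := Finset.univ.filter (fun p => ¬ (p.1 = 0 ∧ p.2 = 1)) with hP
  set s : Finset R := hF.toFinset.biUnion (fun g =>
    (P.image (fun p => ((g : Matrix (Fin 3) (Fin 3) R) - 1) p.1 p.2)) ∪
    (P.image (fun p => (((g⁻¹ : (Matrix (Fin 3) (Fin 3) R)ˣ) : Matrix (Fin 3) (Fin 3) R) - 1) p.1 p.2)))
    with hs
  have hsJ : ∀ c ∈ s, c ∈ J := by
    intro c hc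
    rw [hs, Finset.mem_biUnion] at hc
    obtain ⟨g, hg, hc⟩ := hc
    have hgJ := mem_GI.1 (hFJ g (hF.mem_toFinset.1 hg))
    rw [Finset.mem_union, Finset.mem_image, Finset.mem_image] at hc
    rcases hc with ⟨p, hp, rfl⟩ | ⟨p, hp, rfl⟩
    · exact hgJ.1 p.1 p.2 (by simpa [hP] using hp)
    · exact hgJ.2 p.1 p.2 (by simpa [hP] using hp)
  refine ⟨Ideal.span (s : Set R), s.card, span_finset_pow s (fun c hc => hsq c (hsJ c hc)), ?_⟩
  intro g hg
  rw [mem_GI]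
  constructor
  · intro i j hij
    apply Ideal.subset_span
    rw [hs]
    simp only [Finset.coe_biUnion, Set.mem_iUnion, Finset.mem_coe, Finset.mem_union,
      Finset.mem_image]
    exact ⟨g, hF.mem_toFinset.2 hg, Or.inl ⟨(i, j), by simpa [hP] using hij, rfl⟩⟩
  · intro i j hij
    apply Ideal.subset_span
    rw [hs]
    simp only [Finset.coe_biUnion, Set.mem_iUnion, Finset.mem_coe, Finset.mem_union,
      Finset.mem_image]
    exact ⟨g, hF.mem_toFinset.2 hg, Or.inr ⟨(i, j), by simpa [hP] using hij, rfl⟩⟩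

/-- The whole group is bounded Engel (with a crude bound). -/
theorem engel_aux {J : Ideal R} (hsq : ∀ c ∈ J, c ^ 2 = 0) (k : ℕ) (hk : 36 ≤ k) :
    ∀ x g : GI J, (fun y : GI J => y⁻¹ * x⁻¹ * y * x)^[2 * k + 1] g = 1 := by
  classical
  intro x g
  obtain ⟨s, hs⟩ : ∃ s : Finset R, s = ((({x, g, x⁻¹, g⁻¹} : Finset (GI J)) ×ˢ
    (Finset.univ.filter (fun p : Fin 3 × Fin 3 => ¬ (p.1 = 0 ∧ p.2 = 1)))).image
    (fun q => ((((q.1 : GI J) : (Matrix (Fin 3) (Fin 3) R)ˣ) : Matrix (Fin 3) (Fin 3) R) - 1)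
      q.2.1 q.2.2)) := ⟨_, rfl⟩
  have hcard : s.card ≤ 36 := by
    rw [hs]
    refine Finset.card_image_le.trans ?_
    rw [Finset.card_product]
    have h1 : ({x, g, x⁻¹, g⁻¹} : Finset (GI J)).card ≤ 4 := Finset.card_le_four
    have h2 : (Finset.univ.filter (fun p : Fin 3 × Fin 3 => ¬ (p.1 = 0 ∧ p.2 = 1))).card ≤ 9 := by
      refine (Finset.card_filter_le _ _).trans ?_
      simp
    calc _ ≤ 4 * 9 := Nat.mul_le_mul h1 h2
      _ = 36 := rfl
  have hsJ : ∀ c ∈ s, c ∈ J := by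
    intro c hc
    rw [hs, Finset.mem_image] at hc
    obtain ⟨⟨y, p⟩, hp, rfl⟩ := hc
    rw [Finset.mem_product] at hp
    exact (mem_GI.1 y.2).1 p.1 p.2 (by simpa using hp.2)
  have hI := span_finset_pow_le s (fun c hc => hsq c (hsJ c hc)) k (hcard.trans hk)
  have hmem : ∀ y ∈ ({x, g, x⁻¹, g⁻¹} : Finset (GI J)),
      (((y : GI J) : (Matrix (Fin 3) (Fin 3) R)ˣ) : Matrix (Fin 3) (Fin 3) R) - 1 ∈
        NI (Ideal.span (s : Set R)) := by
    intro y hy i j hij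
    apply Ideal.subset_span
    rw [hs, Finset.coe_image]
    refine ⟨(y, (i, j)), ?_, rfl⟩
    simp only [Finset.coe_product, Set.mem_prod, Finset.mem_coe]
    exact ⟨hy, by simpa using hij⟩
  have hx : (x : (Matrix (Fin 3) (Fin 3) R)ˣ) ∈ GI (Ideal.span (s : Set R)) :=
    ⟨hmem x (by simp), hmem x⁻¹ (by simp)⟩
  have hg : (g : (Matrix (Fin 3) (Fin 3) R)ˣ) ∈ GI (Ideal.span (s : Set R)) :=
    ⟨hmem g (by simp), hmem g⁻¹ (by simp)⟩
  have h2 := iterate_eq_one (m := 2 * k + 1) (NI_mul_NI' (Ideal.span (s : Set R)))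
    (NI_pow_eq_bot hI) _ _ hx hg
  apply Subtype.ext
  have h3 : ∀ (m : ℕ) (g : GI J),
      (((fun y : GI J => y⁻¹ * x⁻¹ * y * x)^[m] g : GI J) : (Matrix (Fin 3) (Fin 3) R)ˣ)
      = (fun y : (Matrix (Fin 3) (Fin 3) R)ˣ =>
          y⁻¹ * (x : (Matrix (Fin 3) (Fin 3) R)ˣ)⁻¹ * y * x)^[m] g := by
    intro m
    induction m with
    | zero => intro g; rfl
    | succ m ih =>
      intro g
      rw [Function.iterate_succ_apply, Function.iterate_succ_apply, ih]
      rfl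
  rw [h3, h2]
  rfl

theorem engel {J : Ideal R} (hsq : ∀ c ∈ J, c ^ 2 = 0) :
    ∀ x g : GI J, (fun y : GI J => y⁻¹ * x⁻¹ * y * x)^[73] g = 1 :=
  engel_aux hsq 36 le_rfl

end Pool.Agent.Helper94
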