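import Mathlib
import Pool.Agent.Helper94.Main

set_option autoImplicit false

namespace Pool.Agent.Helper94

open MvPolynomial

/-- The ideal generated by the squares of the variables. -/
noncomputable def sqIdeal : Ideal (MvPolynomial ℕ (ZMod 2)) :=
  Ideal.span (Set.range fun i : ℕ => (X i : MvPolynomial ℕ (ZMod 2)) ^ 2)

/-- The ring `F₂[x₀, x₁, …] / (x₀², x₁², …)`. -/
noncomputable abbrev RR : Type := MvPolynomial ℕ (ZMod 2) ⧸ sqIdeal

/-- The image of the `i`-th variable. -/
noncomputable def xx (i : ℕ) : RR := Ideal.Quotient.mk sqIdeal (X i)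

/-- The ideal generated by all variables. -/
noncomputable def JJ : Ideal RR := Ideal.span (Set.range xx)

theorem two_RR : (2 : RR) = 0 := by
  have h : (2 : MvPolynomial ℕ (ZMod 2)) = 0 := by
    have h2 : (2 : ZMod 2) = 0 := by decide
    have : (2 : MvPolynomial ℕ (ZMod 2)) = C (2 : ZMod 2) := (map_ofNat C 2).symm
    rw [this, h2, C_0]
  have : (2 : RR) = Ideal.Quotient.mk sqIdeal 2 := (map_ofNat (Ideal.Quotient.mk sqIdeal) 2).symm
  rw [this, h, map_zero]

theorem xx_sq (i : ℕ) : xx i ^ 2 = 0 := by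
  unfold xx
  rw [← map_pow, Ideal.Quotient.eq_zero_iff_mem]
  exact Ideal.subset_span ⟨i, rfl⟩

theorem JJ_sq : ∀ c ∈ JJ, c ^ 2 = 0 := by
  intro c hc
  refine Submodule.span_induction (p := fun c _ => c ^ 2 = 0) ?_ ?_ ?_ ?_ hc
  · rintro _ ⟨i, rfl⟩; exact xx_sq i
  · simp
  · intro a b _ _ ha hb
    have : (a + b) ^ 2 = a ^ 2 + b ^ 2 + 2 * (a * b) := by ring
    rw [this, ha, hb, two_RR]; simp
  · intro r a _ ha
    rw [smul_eq_mul, mul_pow, ha, mul_zero]

theorem JJ_res : ∀ r : RR, r ∈ JJ ∨ r - 1 ∈ JJ := by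
  intro r
  obtain ⟨p, rfl⟩ := Ideal.Quotient.mk_surjective r
  induction p using MvPolynomial.induction_on with
  | C a =>
    have : a = 0 ∨ a = 1 := by revert a; decide
    rcases this with rfl | rfl
    · left; simp
    · right; simp
  | add p q hp hq =>
    rw [map_add]
    rcases hp with hp | hp <;> rcases hq with hq | hq
    · left; exact JJ.add_mem hp hq
    · right
      have := JJ.add_mem hp hq
      rwa [← add_sub_assoc] at this
    · right
      have := JJ.add_mem hp hq
      rwa [sub_add_eq_add_sub] at this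
    · left
      have := JJ.add_mem hp hq
      have e : ∀ a b : RR, a - 1 + (b - 1) = a + b - 2 := by intro a b; ring
      rwa [e, two_RR, sub_zero] at this
  | mul_X p i _ =>
    left
    rw [map_mul]
    exact JJ.mul_mem_left _ (Ideal.subset_span ⟨i, rfl⟩)

theorem prod_xx_ne_zero (m : ℕ) : ∏ i ∈ Finset.range m, xx i ≠ 0 := by
  intro h
  have h1 : ∏ i ∈ Finset.range m, xx i
      = Ideal.Quotient.mk sqIdeal (∏ i ∈ Finset.range m, (X i : MvPolynomial ℕ (ZMod 2))) := by
    rw [map_prod]; rfl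
  rw [h1, Ideal.Quotient.eq_zero_iff_mem] at h
  have h2 : sqIdeal = Ideal.span ((fun s => monomial s (1 : ZMod 2)) ''
      (Set.range fun i : ℕ => (Finsupp.single i 2 : ℕ →₀ ℕ))) := by
    unfold sqIdeal
    congr 1
    ext p
    constructor
    · rintro ⟨i, rfl⟩
      exact ⟨Finsupp.single i 2, ⟨i, rfl⟩, by simp [X_pow_eq_monomial]⟩
    · rintro ⟨_, ⟨i, rfl⟩, rfl⟩
      exact ⟨i, by simp [X_pow_eq_monomial]⟩
  have h3 : ∏ i ∈ Finset.range m, (X i : MvPolynomial ℕ (ZMod 2))
      = monomial (∑ i ∈ Finset.range m, Finsupp.single i 1) 1 := by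
    rw [monomial_sum_one]; rfl
  rw [h2, h3, mem_ideal_span_monomial_image] at h
  obtain ⟨_, ⟨i, rfl⟩, hi⟩ := h (∑ i ∈ Finset.range m, Finsupp.single i 1) (by
    rw [mem_support_iff, coeff_monomial]; simp)
  have h4 := hi i
  simp only [Finsupp.single_eq_same, Finsupp.coe_finsetSum, Finset.sum_apply] at h4
  have h5 : ∑ c ∈ Finset.range m, (Finsupp.single c 1 : ℕ →₀ ℕ) i ≤ 1 := by
    simp only [Finsupp.single_apply]
    rw [Finset.sum_ite_eq' (Finset.range m) i (fun _ => 1)]
    split_ifs <;> simp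
  omega

theorem JJ_notnil (m : ℕ) : JJ ^ m ≠ ⊥ := by
  intro h
  apply prod_xx_ne_zero m
  have : ∏ i ∈ Finset.range m, xx i ∈ JJ ^ m := by
    have := Ideal.prod_mem_prod (s := Finset.range m) (I := fun _ => JJ) (x := xx)
      (fun i _ => Ideal.subset_span ⟨i, rfl⟩)
    simpa using this
  rw [h] at this
  simpa using this

theorem good : Good RR JJ where
  sq := JJ_sq
  res := JJ_res
  notnil := JJ_notnil

end Pool.Agent.Helper94
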