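import Mathlib
import Pool.Agent.Helper94.Ring

set_option autoImplicit false

namespace Pool.Agent.Helper94

open Matrix

theorem mul_sub_one_eq {A : Type*} [Ring A] (x y : A) :
    x * y - 1 = (x - 1) * (y - 1) + (x - 1) + (y - 1) := by noncomm_ring

/-- The congruence subgroup of `GI JJ`. -/
noncomputable def Gam : Subgroup (GI JJ) where
  carrier := {y | ((y : (Matrix (Fin 3) (Fin 3) RR)ˣ) : Matrix (Fin 3) (Fin 3) RR) - 1 ∈ MI JJ}
  one_mem' := by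
    show ((1 : (Matrix (Fin 3) (Fin 3) RR)ˣ) : Matrix (Fin 3) (Fin 3) RR) - 1 ∈ MI JJ
    simp
  mul_mem' := by
    intro a b ha hb
    have ha' : ((a : (Matrix (Fin 3) (Fin 3) RR)ˣ) : Matrix (Fin 3) (Fin 3) RR) - 1 ∈ MI JJ := ha
    have hb' : ((b : (Matrix (Fin 3) (Fin 3) RR)ˣ) : Matrix (Fin 3) (Fin 3) RR) - 1 ∈ MI JJ := hb
    show ((a * b : GI JJ) : (Matrix (Fin 3) (Fin 3) RR)ˣ).val - 1 ∈ MI JJ
    rw [Subgroup.coe_mul, Units.val_mul]
    rw [mul_sub_one_eq]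
    refine Submodule.add_mem _ (Submodule.add_mem _ ?_ ha') hb'
    have h1 := MI_mul_MI JJ JJ (Submodule.mul_mem_mul ha' hb')
    intro i j
    exact Ideal.mul_le_left (h1 i j)
  inv_mem' := by
    intro a ha
    have ha' : ((a : (Matrix (Fin 3) (Fin 3) RR)ˣ) : Matrix (Fin 3) (Fin 3) RR) - 1 ∈ MI JJ := ha
    show ((a⁻¹ : GI JJ) : (Matrix (Fin 3) (Fin 3) RR)ˣ).val - 1 ∈ MI JJ
    rw [Subgroup.coe_inv]
    have : (((a : (Matrix (Fin 3) (Fin 3) RR)ˣ)⁻¹ : (Matrix (Fin 3) (Fin 3) RR)ˣ) :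
        Matrix (Fin 3) (Fin 3) RR) - 1 = - ((((a : (Matrix (Fin 3) (Fin 3) RR)ˣ)⁻¹ :
        (Matrix (Fin 3) (Fin 3) RR)ˣ) : Matrix (Fin 3) (Fin 3) RR) *
        (((a : (Matrix (Fin 3) (Fin 3) RR)ˣ) : Matrix (Fin 3) (Fin 3) RR) - 1)) := by
      rw [mul_sub, Units.inv_mul]; simp
    rw [this]
    refine Submodule.neg_mem _ ?_
    intro i j
    rw [Matrix.mul_apply]
    exact Ideal.sum_mem _ (fun k _ => JJ.mul_mem_left _ (ha' k j))

theorem one_not_mem_JJ : (1 : RR) ∉ JJ := by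
  intro h
  have h1 : JJ = ⊤ := (Ideal.eq_top_iff_one _).2 h
  have h2 := JJ_sq 1 h
  rw [one_pow] at h2
  apply JJ_notnil 1
  rw [eq_bot_iff]
  intro x _
  have : x = x * 1 := (mul_one x).symm
  rw [this, h2, mul_zero]
  simp

/-- The transvection `1 + e_{01}` as an element of the group. -/
noncomputable def aa : GI JJ := ⟨El 0 1 (by decide) 1, El01_mem_GI 1⟩

theorem not_mem_Gam : aa ∉ Gam := by
  intro h
  have h1 : (El 0 1 (by decide) (1 : RR) : Matrix (Fin 3) (Fin 3) RR) - 1 ∈ MI JJ := h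
  have h2 := h1 0 1
  rw [El_val] at h2
  apply one_not_mem_JJ
  simpa [single] using h2

theorem finite_nilpotent (F : Set (GI JJ)) (hF : F.Finite) :
    ∃ n : ℕ, ∀ h0 : GI JJ, h0 ∈ Subgroup.closure F →
      ∀ hs : List (GI JJ), hs.length = n →
        (∀ b : GI JJ, b ∈ hs → b ∈ Subgroup.closure F) →
          hs.foldl (fun a b : GI JJ => a⁻¹ * b⁻¹ * a * b) h0 ∈ (⊥ : Subgroup (GI JJ)) := by
  obtain ⟨I, k, hI, hFI⟩ := finite_subset_GI JJ_sq (Subtype.val '' F) (hF.image _)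
    (by rintro _ ⟨g, _, rfl⟩; exact g.2)
  refine ⟨2 * k + 1, ?_⟩
  intro h0 hh0 hs hlen hhs
  have hcl : ∀ b : GI JJ, b ∈ Subgroup.closure F → (b : (Matrix (Fin 3) (Fin 3) RR)ˣ) ∈ GI I := by
    have h1 : Subgroup.closure F ≤ (GI I).comap (GI JJ).subtype := by
      rw [Subgroup.closure_le]
      intro g hg
      exact hFI _ ⟨g, hg, rfl⟩
    intro b hb
    exact h1 hb
  have h2 := foldl_eq_one (NI_mul_NI' I) (NI_pow_eq_bot hI) (hs.map Subtype.val)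
    (by simp [hlen]) (by
      intro b hb
      obtain ⟨c, hc, rfl⟩ := List.mem_map.1 hb
      exact hcl c (hhs c hc)) h0 (hcl h0 hh0)
  rw [Subgroup.mem_bot]
  apply Subtype.ext
  have h3 : ∀ (hs : List (GI JJ)) (h0 : GI JJ),
      ((hs.foldl (fun a b : GI JJ => a⁻¹ * b⁻¹ * a * b) h0 : GI JJ) : (Matrix (Fin 3) (Fin 3) RR)ˣ)
      = (hs.map Subtype.val).foldl (fun a b : (Matrix (Fin 3) (Fin 3) RR)ˣ => a⁻¹ * b⁻¹ * a * b) h0 := by
    intro hs
    induction hs with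
    | nil => intro h0; rfl
    | cons b t ih =>
      intro h0
      simp only [List.foldl_cons, List.map_cons]
      rw [ih]
      rfl
  rw [h3, h2]
  rfl

theorem bounded_engel : ∃ n : ℕ, ∀ g : GI JJ, (fun y : GI JJ => y⁻¹ * aa⁻¹ * y * aa)^[n] g = 1 :=
  ⟨73, fun g => engel JJ_sq aa g⟩

end Pool.Agent.Helper94
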