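import Mathlib
import Pool.Agent.Helper94.Grp

set_option autoImplicit false

namespace Pool.Agent.Helper94.Five

open Matrix

section alg

variable {R : Type*} [CommRing R]

/-- The Gram matrix of the form. -/
def SS : Matrix (Fin 3) (Fin 3) R := !![0,1,0;1,0,0;0,0,1]

/-- The general element of the group, in coordinates. -/
def gg (x y e p d q : R) : Matrix (Fin 3) (Fin 3) R :=
  !![1+y, p, q; e, 1+x, d; e*q+d*(1+y), (1+x)*q+d*p, (1+x)*(1+y)+e*p]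

/-- The rows `u`, `u g`, `u g ^ 2`. -/
def VV (x y e p d q : R) : Matrix (Fin 3) (Fin 3) R :=
  !![0,1,0; e,1+x,d; e*x*y, e*p+1+d*q*(1+x), e*q+d*(1+x)*y+d*e*p]

def G0 (k e : R) : Matrix (Fin 3) (Fin 3) R := !![0,e,k*e;e,0,e;k*e,e,0]
def CC (k : R) : Matrix (Fin 3) (Fin 3) R := !![0,1,0;0,0,1;1,1+k,1+k]
def A0 : Matrix (Fin 3) (Fin 3) R := !![1,0,0;0,0,0;0,0,0]
def A1 (e : R) : Matrix (Fin 3) (Fin 3) R := !![1,e,0;0,1,0;0,0,0]
def A2 (k e : R) : Matrix (Fin 3) (Fin 3) R := !![1,e,k*e;e,0,0;0,0,1]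
def A3 (k e : R) : Matrix (Fin 3) (Fin 3) R :=
  !![e,1+k+e+k*e,1+k+e+k*e;1+k+e+k*e,k*e,1+e+k*e;1+k+e+k*e,1+e+k*e,e+k*e]
def A4 (k e : R) : Matrix (Fin 3) (Fin 3) R := !![0,e,k+e+k*e;e,0,e+k*e;k+e+k*e,e+k*e,0]
def A5 (k e : R) : Matrix (Fin 3) (Fin 3) R := !![0,k+k*e,k;k+k*e,0,k+k*e;k,k+k*e,0]

theorem VS {x y e p d q : R} (h2 : (2:R)=0) (hx : x*x=0) (hy : y*y=0) (he : e*e=0) (hd : d*d=0)
    (hr : x+y+x*y+e*p+d*q=0) :
    VV x y e p d q * SS * (VV x y e p d q)ᵀ = G0 (x*y+e*p) e := by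
  ext i j
  fin_cases i <;> fin_cases j <;>
    simp [VV, SS, G0, Matrix.mul_apply, Fin.sum_univ_three, Matrix.transpose_apply] <;> grind

theorem VC {x y e p d q : R} (h2 : (2:R)=0) (hx : x*x=0) (hy : y*y=0) (he : e*e=0) (hd : d*d=0)
    (hq : q*q=0) (hr : x+y+x*y+e*p+d*q=0) :
    VV x y e p d q * gg x y e p d q = CC (x*y+e*p) * VV x y e p d q := by
  ext i j
  fin_cases i <;> fin_cases j <;>
    simp [VV, gg, CC, Matrix.mul_apply, Fin.sum_univ_three] <;> grind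

theorem VA {x y e p d q : R} (h2 : (2:R)=0) (hx : x*x=0) (hy : y*y=0) (he : e*e=0) (hd : d*d=0)
    (hq : q*q=0) (hr : x+y+x*y+e*p+d*q=0) :
    (VV x y e p d q)ᵀ * A5 (x*y+e*p) e * VV x y e p d q = 0 := by
  ext i j
  fin_cases i <;> fin_cases j <;>
    simp [VV, A5, Matrix.mul_apply, Fin.sum_univ_three, Matrix.transpose_apply] <;> grind

/-- One step of the recursion. -/
def nxt (k e : R) (A : Matrix (Fin 3) (Fin 3) R) : Matrix (Fin 3) (Fin 3) R :=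
  Aᵀ + (CC k)ᵀ * A * CC k + Aᵀ * G0 k e * ((CC k)ᵀ * A * CC k)

theorem nxt0 (k e : R) : nxt k e A0 = A1 e := by
  ext i j
  fin_cases i <;> fin_cases j <;>
    simp [nxt, A0, A1, CC, G0, Matrix.mul_apply, Fin.sum_univ_three, Matrix.transpose_apply]

theorem nxt1 (k e : R) (h2 : (2:R) = 0) (he : e*e = 0) :
    nxt k e (A1 e) = A2 k e := by
  ext i j
  fin_cases i <;> fin_cases j <;>
    simp [nxt, A1, A2, CC, G0, Matrix.mul_apply, Fin.sum_univ_three, Matrix.transpose_apply] <;> grind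

theorem nxt2 (k e : R) (h2 : (2:R) = 0) (hk : k*k = 0) (he : e*e = 0) :
    nxt k e (A2 k e) = A3 k e := by
  ext i j
  fin_cases i <;> fin_cases j <;>
    simp [nxt, A2, A3, CC, G0, Matrix.mul_apply, Fin.sum_univ_three, Matrix.transpose_apply] <;> grind

theorem nxt3 (k e : R) (h2 : (2:R) = 0) (hk : k*k = 0) (he : e*e = 0) :
    nxt k e (A3 k e) = A4 k e := by
  ext i j
  fin_cases i <;> fin_cases j <;>
    simp [nxt, A3, A4, CC, G0, Matrix.mul_apply, Fin.sum_univ_three, Matrix.transpose_apply] <;> grind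

theorem nxt4 (k e : R) (h2 : (2:R) = 0) (hk : k*k = 0) (he : e*e = 0) :
    nxt k e (A4 k e) = A5 k e := by
  ext i j
  fin_cases i <;> fin_cases j <;>
    simp [nxt, A4, A5, CC, G0, Matrix.mul_apply, Fin.sum_univ_three, Matrix.transpose_apply] <;> grind

theorem psi0 (x y e p d q : R) :
    SS * ((VV x y e p d q)ᵀ * A0 * VV x y e p d q) = single 0 1 1 := by
  ext i j
  fin_cases i <;> fin_cases j <;>
    simp [VV, SS, A0, Matrix.mul_apply, Fin.sum_univ_three, Matrix.transpose_apply]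

theorem SS_sq : (SS : Matrix (Fin 3) (Fin 3) R) * SS = 1 := by
  ext i j
  fin_cases i <;> fin_cases j <;>
    simp [SS, Matrix.mul_apply, Fin.sum_univ_three]

theorem SS_t : (SS : Matrix (Fin 3) (Fin 3) R)ᵀ = SS := by
  ext i j
  fin_cases i <;> fin_cases j <;>
    simp [SS, Matrix.transpose_apply]

end alg


section grp

variable {R : Type*} [CommRing R]

theorem orth_mul {a b s : Matrix (Fin 3) (Fin 3) R} (ha : a * s * aᵀ = s) (hb : b * s * bᵀ = s) :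
    (a * b) * s * (a * b)ᵀ = s := by
  rw [Matrix.transpose_mul]
  calc a * b * s * (bᵀ * aᵀ) = a * (b * s * bᵀ) * aᵀ := by simp only [mul_assoc]
    _ = _ := by rw [hb, ha]

theorem orth_inv {a b s : Matrix (Fin 3) (Fin 3) R} (ha : a * s * aᵀ = s) (hb : b * a = 1) :
    b * s * bᵀ = s := by
  have h2 : aᵀ * bᵀ = 1 := by
    rw [← Matrix.transpose_mul, hb, Matrix.transpose_one]
  calc b * s * bᵀ = b * (a * s * aᵀ) * bᵀ := by rw [ha]
    _ = (b * a) * s * (aᵀ * bᵀ) := by simp only [mul_assoc]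
    _ = s := by rw [hb, h2]; simp

theorem orth_inv_eq {a b s : Matrix (Fin 3) (Fin 3) R} (hs : s * s = 1) (ha : a * s * aᵀ = s)
    (hb : b * a = 1) : b = s * aᵀ * s := by
  calc b = b * (s * s) := by rw [hs, mul_one]
    _ = b * (a * s * aᵀ) * s := by rw [ha, mul_assoc]
    _ = (b * a) * s * aᵀ * s := by simp only [mul_assoc]
    _ = _ := by rw [hb, one_mul]

/-- The special orthogonal group of the form with Gram matrix `SS`. -/
def OO : Subgroup (Matrix (Fin 3) (Fin 3) R)ˣ where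
  carrier := {g | (g : Matrix (Fin 3) (Fin 3) R) * SS * (g : Matrix (Fin 3) (Fin 3) R)ᵀ = SS ∧
    (g : Matrix (Fin 3) (Fin 3) R).det = 1}
  one_mem' := by
    refine ⟨?_, ?_⟩ <;> simp
  mul_mem' := by
    rintro a b ⟨ha, ha'⟩ ⟨hb, hb'⟩
    refine ⟨?_, ?_⟩
    · rw [Units.val_mul]; exact orth_mul ha hb
    · rw [Units.val_mul, Matrix.det_mul, ha', hb', one_mul]
  inv_mem' := by
    rintro a ⟨ha, ha'⟩
    refine ⟨orth_inv ha a.inv_mul, ?_⟩
    have h1 : (a : Matrix (Fin 3) (Fin 3) R) *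
      ((a⁻¹ : (Matrix (Fin 3) (Fin 3) R)ˣ) : Matrix (Fin 3) (Fin 3) R) = 1 := a.mul_inv
    have h2 := congrArg Matrix.det h1
    rw [Matrix.det_mul, ha', one_mul, Matrix.det_one] at h2
    exact h2

theorem mem_OO {g : (Matrix (Fin 3) (Fin 3) R)ˣ} : g ∈ OO (R := R) ↔
    (g : Matrix (Fin 3) (Fin 3) R) * SS * (g : Matrix (Fin 3) (Fin 3) R)ᵀ = SS ∧
    (g : Matrix (Fin 3) (Fin 3) R).det = 1 := Iff.rfl

theorem inv_OO {g : (Matrix (Fin 3) (Fin 3) R)ˣ} (hg : g ∈ OO (R := R)) :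
    ((g⁻¹ : (Matrix (Fin 3) (Fin 3) R)ˣ) : Matrix (Fin 3) (Fin 3) R) =
      SS * (g : Matrix (Fin 3) (Fin 3) R)ᵀ * SS :=
  orth_inv_eq SS_sq hg.1 g.inv_mul

theorem step_mat {g g' z z' s V A C G : Matrix (Fin 3) (Fin 3) R} (hs : s * s = 1) (hst : sᵀ = s)
    (hg : g' = s * gᵀ * s) (hg' : g' * g = 1) (hz : z' = s * zᵀ * s)
    (hV : V * g = C * V) (hS : V * s * Vᵀ = G) (hzA : z = 1 + s * (Vᵀ * A * V)) :
    z' * (g' * z * g) = 1 + s * (Vᵀ * (Aᵀ + Cᵀ * A * C + Aᵀ * G * (Cᵀ * A * C)) * V) := by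
  have e1 : z' = 1 + s * (Vᵀ * Aᵀ * V) := by
    rw [hz, hzA, Matrix.transpose_add, Matrix.transpose_mul, Matrix.transpose_mul,
      Matrix.transpose_mul, Matrix.transpose_one, Matrix.transpose_transpose, hst]
    calc s * (1 + Vᵀ * (Aᵀ * V) * s) * s = s * s + s * (Vᵀ * (Aᵀ * V)) * (s * s) := by
          noncomm_ring
      _ = _ := by rw [hs]; simp only [mul_one, mul_assoc]
  have e2 : g' * z * g = 1 + s * (Vᵀ * (Cᵀ * A * C) * V) := by
    have h1 : gᵀ * Vᵀ = Vᵀ * Cᵀ := by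
      rw [← Matrix.transpose_mul, hV, Matrix.transpose_mul]
    rw [hzA]
    calc g' * (1 + s * (Vᵀ * A * V)) * g
        = g' * g + g' * s * Vᵀ * A * (V * g) := by noncomm_ring
      _ = 1 + s * gᵀ * (s * s) * Vᵀ * A * (C * V) := by
          rw [hg', hV, hg]; simp only [mul_assoc]
      _ = 1 + s * (gᵀ * Vᵀ) * A * (C * V) := by
          rw [hs]; simp only [mul_assoc, one_mul]
      _ = _ := by rw [h1]; simp only [mul_assoc]
  rw [e1, e2, ← hS]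
  noncomm_ring

theorem step_comm {g z : (Matrix (Fin 3) (Fin 3) R)ˣ} (hg : g ∈ OO (R := R)) (hz : z ∈ OO (R := R))
    {V A C G : Matrix (Fin 3) (Fin 3) R} (hV : V * g = C * V) (hS : V * SS * Vᵀ = G)
    (hzA : (z : Matrix (Fin 3) (Fin 3) R) = 1 + SS * (Vᵀ * A * V)) :
    ((z⁻¹ * g⁻¹ * z * g : (Matrix (Fin 3) (Fin 3) R)ˣ) : Matrix (Fin 3) (Fin 3) R) =
      1 + SS * (Vᵀ * (Aᵀ + Cᵀ * A * C + Aᵀ * G * (Cᵀ * A * C)) * V) := by
  have e3 : (z⁻¹ * g⁻¹ * z * g : (Matrix (Fin 3) (Fin 3) R)ˣ) = z⁻¹ * (g⁻¹ * z * g) := by group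
  rw [e3, Units.val_mul, Units.val_mul, Units.val_mul]
  exact step_mat SS_sq SS_t (inv_OO hg) g.inv_mul (inv_OO hz) hV hS hzA

theorem sgs (g : Matrix (Fin 3) (Fin 3) R) : SS * gᵀ * SS =
    !![g 1 1, g 0 1, g 2 1; g 1 0, g 0 0, g 2 0; g 1 2, g 0 2, g 2 2] := by
  ext i j
  fin_cases i <;> fin_cases j <;>
    simp [SS, Matrix.mul_apply, Fin.sum_univ_three, Matrix.transpose_apply, Matrix.vecMul,
      dotProduct]

/-- Coordinates on the group. -/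
theorem coords {g : Matrix (Fin 3) (Fin 3) R} (h2 : (2:R) = 0) (ho : g * SS * gᵀ = SS)
    (hd : g.det = 1) :
    g = gg (g 1 1 - 1) (g 0 0 - 1) (g 1 0) (g 0 1) (g 1 2) (g 0 2) ∧
    (g 1 1 - 1) + (g 0 0 - 1) + (g 1 1 - 1) * (g 0 0 - 1) + g 1 0 * g 0 1 + g 1 2 * g 0 2 = 0 := by
  have h1 : g * adjugate g = 1 := by rw [Matrix.mul_adjugate, hd, one_smul]
  have h1' : adjugate g * g = 1 := by rw [Matrix.adjugate_mul, hd, one_smul]
  have h3 : adjugate g = SS * gᵀ * SS := orth_inv_eq SS_sq ho h1'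
  have neg : ∀ r : R, -r = r := by
    intro r
    have : r + r = 0 := by rw [← two_mul, h2, zero_mul]
    exact neg_eq_of_add_eq_zero_left this
  rw [Matrix.adjugate_fin_three, sgs] at h3
  have e20 := congrFun (congrFun h3 1) 2
  have e21 := congrFun (congrFun h3 0) 2
  have e22 := congrFun (congrFun h3 2) 2
  have e01 := congrFun (congrFun ho 0) 1
  simp at e20 e21 e22
  simp [SS, Matrix.mul_apply, Fin.sum_univ_three, Matrix.transpose_apply] at e01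
  clear h3 h1 h1' ho hd
  constructor
  · ext i j
    fin_cases i <;> fin_cases j <;> simp [gg] <;> grind
  · grind

end grp


section engel

variable {R : Type*} [CommRing R]

theorem El01_val (r : R) : ((El 0 1 (by decide) r : (Matrix (Fin 3) (Fin 3) R)ˣ) :
    Matrix (Fin 3) (Fin 3) R) = !![1,r,0;0,1,0;0,0,1] := by
  rw [El_val]
  ext i j
  fin_cases i <;> fin_cases j <;> simp [single]

theorem El01_mem_OO (h2 : (2:R) = 0) (r : R) : El 0 1 (by decide) r ∈ OO (R := R) := by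
  rw [mem_OO, El01_val]
  refine ⟨?_, by simp [Matrix.det_fin_three]⟩
  ext i j
  fin_cases i <;> fin_cases j <;>
    simp [SS, Matrix.mul_apply, Fin.sum_univ_three, Matrix.transpose_apply]
  grind

theorem five_engel_aux (h2 : (2:R) = 0) (g : (Matrix (Fin 3) (Fin 3) R)ˣ) (hgO : g ∈ OO (R := R))
    {e k : R} {V : Matrix (Fin 3) (Fin 3) R}
    (hkk : k * k = 0) (he : e * e = 0)
    (hV : V * (g : Matrix (Fin 3) (Fin 3) R) = CC k * V)
    (hS : V * SS * Vᵀ = G0 k e) (hA : Vᵀ * A5 k e * V = 0)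
    (hP : SS * (Vᵀ * A0 * V) = single 0 1 1) :
    (fun z : (Matrix (Fin 3) (Fin 3) R)ˣ => z⁻¹ * g⁻¹ * z * g)^[5] (El 0 1 (by decide) 1) = 1 := by
  -- the iterated commutators
  have hmem : ∀ n : ℕ, (fun z : (Matrix (Fin 3) (Fin 3) R)ˣ => z⁻¹ * g⁻¹ * z * g)^[n]
      (El 0 1 (by decide) 1) ∈ OO (R := R) := by
    intro n
    induction n with
    | zero => exact El01_mem_OO h2 1
    | succ n ih =>
      rw [Function.iterate_succ_apply']
      exact Subgroup.mul_mem _ (Subgroup.mul_mem _ (Subgroup.mul_mem _ (Subgroup.inv_mem _ ih)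
        (Subgroup.inv_mem _ hgO)) ih) hgO
  have stp : ∀ (n : ℕ) (A B : Matrix (Fin 3) (Fin 3) R), nxt k e A = B →
      (((fun z : (Matrix (Fin 3) (Fin 3) R)ˣ => z⁻¹ * g⁻¹ * z * g)^[n]
        (El 0 1 (by decide) 1) : (Matrix (Fin 3) (Fin 3) R)ˣ) : Matrix (Fin 3) (Fin 3) R)
        = 1 + SS * (Vᵀ * A * V) →
      (((fun z : (Matrix (Fin 3) (Fin 3) R)ˣ => z⁻¹ * g⁻¹ * z * g)^[n + 1]
        (El 0 1 (by decide) 1) : (Matrix (Fin 3) (Fin 3) R)ˣ) : Matrix (Fin 3) (Fin 3) R)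
        = 1 + SS * (Vᵀ * B * V) := by
    intro n A B hAB hn
    rw [Function.iterate_succ_apply', ← hAB]
    exact step_comm hgO (hmem n) hV hS hn
  have s0 : (((fun z : (Matrix (Fin 3) (Fin 3) R)ˣ => z⁻¹ * g⁻¹ * z * g)^[0]
        (El 0 1 (by decide) 1) : (Matrix (Fin 3) (Fin 3) R)ˣ) : Matrix (Fin 3) (Fin 3) R)
        = 1 + SS * (Vᵀ * A0 * V) := by
    rw [hP]; rfl
  have s1 := stp 0 _ _ (nxt0 k e) s0
  have s2 := stp 1 _ _ (nxt1 k e h2 he) s1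
  have s3 := stp 2 _ _ (nxt2 k e h2 hkk he) s2
  have s4 := stp 3 _ _ (nxt3 k e h2 hkk he) s3
  have s5 := stp 4 _ _ (nxt4 k e h2 hkk he) s4
  rw [hA, mul_zero, add_zero] at s5
  exact Units.ext s5

theorem coords' {g : Matrix (Fin 3) (Fin 3) R} (h2 : (2:R) = 0) (ho : g * SS * gᵀ = SS)
    (hd : g.det = 1) : ∃ x y e p d q : R, x = g 1 1 - 1 ∧ y = g 0 0 - 1 ∧ e = g 1 0 ∧ p = g 0 1 ∧
      d = g 1 2 ∧ q = g 0 2 ∧ g = gg x y e p d q ∧ x + y + x * y + e * p + d * q = 0 := by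
  obtain ⟨hg, hr⟩ := coords h2 ho hd
  exact ⟨_, _, _, _, _, _, rfl, rfl, rfl, rfl, rfl, rfl, hg, hr⟩

theorem five_engel (h2 : (2:R) = 0) {J : Ideal R} (hsq : ∀ c ∈ J, c ^ 2 = 0)
    (g : (Matrix (Fin 3) (Fin 3) R)ˣ) (hgJ : g ∈ GI J) (hgO : g ∈ OO (R := R)) :
    (fun z : (Matrix (Fin 3) (Fin 3) R)ˣ => z⁻¹ * g⁻¹ * z * g)^[5] (El 0 1 (by decide) 1) = 1 := by
  have hN := (mem_GI.1 hgJ).1
  have m : ∀ i j : Fin 3, ¬ (i = 0 ∧ j = 1) →
      (((g : Matrix (Fin 3) (Fin 3) R) - 1) i j) * (((g : Matrix (Fin 3) (Fin 3) R) - 1) i j) = 0 := by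
    intro i j hij
    rw [← pow_two]; exact hsq _ (hN i j hij)
  have hx := m 1 1 (by decide)
  have hy := m 0 0 (by decide)
  have he := m 1 0 (by decide)
  have hd := m 1 2 (by decide)
  have hq := m 0 2 (by decide)
  rw [Matrix.sub_apply, Matrix.one_apply_eq] at hx hy
  rw [Matrix.sub_apply, Matrix.one_apply_ne (by decide), sub_zero] at he hd hq
  obtain ⟨x, y, e, p, d, q, ex, ey, ee, ep, ed, eq, hg, hr⟩ := coords' h2 hgO.1 hgO.2
  rw [← ex] at hx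
  rw [← ey] at hy
  rw [← ee] at he
  rw [← ed] at hd
  rw [← eq] at hq
  have hkk : (x * y + e * p) * (x * y + e * p) = 0 := by
    clear hg
    grind
  refine five_engel_aux (V := VV x y e p d q) (k := x * y + e * p) h2 g hgO hkk he ?_
    (VS h2 hx hy he hd hr) (VA h2 hx hy he hd hq hr) (psi0 _ _ _ _ _ _)
  rw [hg]
  exact VC h2 hx hy he hd hq hr

end engel


section chain

variable {R : Type*} [CommRing R]

/-- The involutions `1 + c X` for the three basic derivations `X`, and `1 + e_{01}`. -/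
def Mu (c : R) : Matrix (Fin 3) (Fin 3) R := !![1,0,c;0,1,0;0,c,1]
def Mw (c : R) : Matrix (Fin 3) (Fin 3) R := !![1,0,0;0,1,c;c,0,1]
def Mo (c : R) : Matrix (Fin 3) (Fin 3) R := !![1+c,0,0;0,1+c,0;0,0,1]
def Ma : Matrix (Fin 3) (Fin 3) R := !![1,1,0;0,1,0;0,0,1]

theorem Mu_sq (h2 : (2:R) = 0) {c : R} (hc : c * c = 0) : Mu c * Mu c = 1 := by
  ext i j
  fin_cases i <;> fin_cases j <;> simp [Mu, Matrix.mul_apply, Fin.sum_univ_three] <;> grind

theorem Mw_sq (h2 : (2:R) = 0) {c : R} (hc : c * c = 0) : Mw c * Mw c = 1 := by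
  ext i j
  fin_cases i <;> fin_cases j <;> simp [Mw, Matrix.mul_apply, Fin.sum_univ_three] <;> grind

theorem Mo_sq (h2 : (2:R) = 0) {c : R} (hc : c * c = 0) : Mo c * Mo c = 1 := by
  ext i j
  fin_cases i <;> fin_cases j <;> simp [Mo, Matrix.mul_apply, Fin.sum_univ_three] <;> grind

theorem Ma_sq (h2 : (2:R) = 0) : (Ma : Matrix (Fin 3) (Fin 3) R) * Ma = 1 := by
  ext i j
  fin_cases i <;> fin_cases j <;> simp [Ma, Matrix.mul_apply, Fin.sum_univ_three] <;> grind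

theorem c1 (h2 : (2:R) = 0) {c : R} (hc : c * c = 0) : Mw c * Ma * Mw c * Ma = Mu c := by
  ext i j
  fin_cases i <;> fin_cases j <;> simp [Mw, Mu, Ma, Matrix.mul_apply, Fin.sum_univ_three] <;> grind

theorem c2 (h2 : (2:R) = 0) {c d : R} (hc : c * c = 0) (hd : d * d = 0) :
    Mu c * Mw d * Mu c * Mw d = Mo (c * d) := by
  ext i j
  fin_cases i <;> fin_cases j <;> simp [Mw, Mu, Mo, Matrix.mul_apply, Fin.sum_univ_three] <;> grind

theorem c3 (h2 : (2:R) = 0) {c d : R} (hc : c * c = 0) (hd : d * d = 0) :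
    Mo c * Mw d * Mo c * Mw d = Mw (c * d) := by
  ext i j
  fin_cases i <;> fin_cases j <;> simp [Mw, Mo, Matrix.mul_apply, Fin.sum_univ_three] <;> grind

/-- `K` contains all the basic involutions with parameter in `X`. -/
def HasEx (K : Subgroup (Matrix (Fin 3) (Fin 3) R)ˣ) (X : Set R) : Prop :=
  ∀ c ∈ X, ∀ g : (Matrix (Fin 3) (Fin 3) R)ˣ,
    ((g : Matrix (Fin 3) (Fin 3) R) = Mu c ∨ (g : Matrix (Fin 3) (Fin 3) R) = Mw c ∨
      (g : Matrix (Fin 3) (Fin 3) R) = Mo c) → g ∈ K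

/-- An involution as a unit. -/
def iu (M : Matrix (Fin 3) (Fin 3) R) (h : M * M = 1) : (Matrix (Fin 3) (Fin 3) R)ˣ := ⟨M, M, h, h⟩

theorem iu_inv (M : Matrix (Fin 3) (Fin 3) R) (h : M * M = 1) : (iu M h)⁻¹ = iu M h := rfl

theorem iu_val (M : Matrix (Fin 3) (Fin 3) R) (h : M * M = 1) :
    ((iu M h : (Matrix (Fin 3) (Fin 3) R)ˣ) : Matrix (Fin 3) (Fin 3) R) = M := rfl

/-- One step down a subnormal chain. -/
theorem step5 (h2 : (2:R) = 0) {K L : Subgroup (Matrix (Fin 3) (Fin 3) R)ˣ}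
    (hnorm : ∀ a ∈ L, ∀ b ∈ K, a * b * a⁻¹ ∈ K) (ha : iu Ma (Ma_sq h2) ∈ K)
    {X Y : Set R} (hX : ∀ c ∈ X, c * c = 0)
    (hmul : ∀ c ∈ X, ∀ d ∈ X, c * d ∈ X)
    (hY : ∀ r ∈ Y, ∃ c ∈ X, ∃ d ∈ X, ∃ f ∈ X, r = c * d * f)
    (hL : HasEx L X) : HasEx K Y := by
  have q1 : ∀ g ∈ L, ∀ k ∈ K, g * k * g⁻¹ * k⁻¹ ∈ K := by
    intro g hg k hk
    exact K.mul_mem (hnorm g hg k hk) (K.inv_mem hk)
  have q2 : ∀ k ∈ K, ∀ g ∈ L, k * g * k⁻¹ * g⁻¹ ∈ K := by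
    intro k hk g hg
    have := hnorm g hg k⁻¹ (K.inv_mem hk)
    have e : k * g * k⁻¹ * g⁻¹ = k * (g * k⁻¹ * g⁻¹) := by group
    rw [e]
    exact K.mul_mem hk this
  have eu : ∀ c (hc : c ∈ X), iu (Mu c) (Mu_sq h2 (hX c hc)) ∈ K := by
    intro c hc
    have h := q1 (iu (Mw c) (Mw_sq h2 (hX c hc))) (hL c hc _ (Or.inr (Or.inl rfl))) _ ha
    have e : iu (Mw c) (Mw_sq h2 (hX c hc)) * iu Ma (Ma_sq h2) *
        (iu (Mw c) (Mw_sq h2 (hX c hc)))⁻¹ * (iu Ma (Ma_sq h2))⁻¹ =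
        iu (Mu c) (Mu_sq h2 (hX c hc)) := by
      apply Units.ext
      exact c1 h2 (hX c hc)
    rwa [e] at h
  have eo : ∀ c (hc : c ∈ X), ∀ d (hd : d ∈ X),
      iu (Mo (c * d)) (Mo_sq h2 (hX _ (hmul c hc d hd))) ∈ K := by
    intro c hc d hd
    have h := q2 _ (eu c hc) (iu (Mw d) (Mw_sq h2 (hX d hd))) (hL d hd _ (Or.inr (Or.inl rfl)))
    have e : iu (Mu c) (Mu_sq h2 (hX c hc)) * iu (Mw d) (Mw_sq h2 (hX d hd)) *
        (iu (Mu c) (Mu_sq h2 (hX c hc)))⁻¹ * (iu (Mw d) (Mw_sq h2 (hX d hd)))⁻¹ =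
        iu (Mo (c * d)) (Mo_sq h2 (hX _ (hmul c hc d hd))) := by
      apply Units.ext
      exact c2 h2 (hX c hc) (hX d hd)
    rwa [e] at h
  have ew : ∀ c (hc : c ∈ X), ∀ d (hd : d ∈ X), ∀ f (hf : f ∈ X),
      iu (Mw (c * d * f)) (Mw_sq h2 (hX _ (hmul _ (hmul c hc d hd) f hf))) ∈ K := by
    intro c hc d hd f hf
    have h := q2 _ (eo c hc d hd) (iu (Mw f) (Mw_sq h2 (hX f hf))) (hL f hf _ (Or.inr (Or.inl rfl)))
    have e : iu (Mo (c * d)) (Mo_sq h2 (hX _ (hmul c hc d hd))) * iu (Mw f) (Mw_sq h2 (hX f hf)) *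
        (iu (Mo (c * d)) (Mo_sq h2 (hX _ (hmul c hc d hd))))⁻¹ *
        (iu (Mw f) (Mw_sq h2 (hX f hf)))⁻¹ =
        iu (Mw (c * d * f)) (Mw_sq h2 (hX _ (hmul _ (hmul c hc d hd) f hf))) := by
      apply Units.ext
      exact c3 h2 (hX _ (hmul c hc d hd)) (hX f hf)
    rwa [e] at h
  intro r hr g hg
  obtain ⟨c, hc, d, hd, f, hf, rfl⟩ := hY r hr
  rcases hg with hg | hg | hg
  · have := eu _ (hmul _ (hmul c hc d hd) f hf)
    have e : g = iu (Mu (c * d * f)) (Mu_sq h2 (hX _ (hmul _ (hmul c hc d hd) f hf))) :=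
      Units.ext hg
    rw [e]; exact this
  · have := ew c hc d hd f hf
    have e : g = iu (Mw (c * d * f)) (Mw_sq h2 (hX _ (hmul _ (hmul c hc d hd) f hf))) :=
      Units.ext hg
    rw [e]; exact this
  · have := eo _ (hmul c hc d hd) f hf
    have e : g = iu (Mo (c * d * f)) (Mo_sq h2 (hX _ (hmul _ (hmul c hc d hd) f hf))) :=
      Units.ext hg
    rw [e]; exact this

open Pointwise in
/-- Down a subnormal chain of length `n`. -/
theorem chain5 (h2 : (2:R) = 0) {J : Ideal R} (hJ : ∀ c ∈ J, c * c = 0)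
    (n : ℕ) (K : ℕ → Subgroup (Matrix (Fin 3) (Fin 3) R)ˣ)
    (hmono : ∀ i, i < n → K i ≤ K (i + 1))
    (hnorm : ∀ i, i < n → ∀ a ∈ K (i + 1), ∀ b ∈ K i, a * b * a⁻¹ ∈ K i)
    (ha : iu Ma (Ma_sq h2) ∈ K 0) (hn : HasEx (K n) (J : Set R)) :
    ∃ m : ℕ, 1 ≤ m ∧ HasEx (K 0) ((J : Set R) ^ m) := by
  induction n generalizing K with
  | zero => exact ⟨1, le_rfl, by simpa using hn⟩
  | succ n ih =>
    obtain ⟨m, hm1, hm⟩ := ih (fun i => K (i + 1)) (fun i hi => hmono (i + 1) (by omega))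
      (fun i hi => hnorm (i + 1) (by omega)) (hmono 0 (by omega) ha) hn
    have hmJ : ∀ m, 1 ≤ m → ((J : Set R) ^ m) ⊆ (J : Set R) := by
      intro m hm
      obtain ⟨k, rfl⟩ := Nat.exists_eq_add_of_le' hm
      rw [pow_succ']
      rintro _ ⟨a, ha, b, hb, rfl⟩
      exact J.mul_mem_right _ ha
    have hmul : ∀ c ∈ ((J : Set R) ^ m), ∀ d ∈ ((J : Set R) ^ m), c * d ∈ ((J : Set R) ^ m) := by
      intro c hc d hd
      obtain ⟨k, rfl⟩ := Nat.exists_eq_add_of_le' hm1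
      rw [pow_succ] at hc ⊢
      obtain ⟨a, ha, b, hb, rfl⟩ := hc
      refine ⟨a, ha, b * d, J.mul_mem_right _ hb, by ring⟩
    refine ⟨3 * m, by omega, step5 h2 (hnorm 0 (by omega)) ha (X := (J : Set R) ^ m)
      (fun c hc => hJ c (hmJ m hm1 hc)) hmul ?_ hm⟩
    intro r hr
    have e : 3 * m = m + m + m := by ring
    rw [e, pow_add, pow_add] at hr
    obtain ⟨_, ⟨c, hc, d, hd, rfl⟩, f, hf, rfl⟩ := hr
    exact ⟨c, hc, d, hd, f, hf, rfl⟩

end chain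


section final

variable {R : Type*} [CommRing R]

theorem iu_Ma_eq (h2 : (2:R) = 0) : iu Ma (Ma_sq h2) = El 0 1 (by decide) (1 : R) := by
  apply Units.ext
  rw [iu_val, El01_val]
  rfl

theorem Mw_mem_zpowers (h2 : (2:R) = 0) {c : R} {g : (Matrix (Fin 3) (Fin 3) R)ˣ}
    (hg : (g : Matrix (Fin 3) (Fin 3) R) = Mw c)
    (h : g ∈ Subgroup.zpowers (iu Ma (Ma_sq h2))) : c = 0 := by
  rw [iu_Ma_eq h2] at h
  obtain ⟨k, hk⟩ := Subgroup.mem_zpowers_iff.1 h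
  have e : (El 0 1 (by decide) (1 : R)) ^ k
      = El 0 1 (by decide) (Multiplicative.toAdd ((Multiplicative.ofAdd (1 : R)) ^ k)) := by
    have := map_zpow (ElHom (R := R) 0 1 (by decide)) (Multiplicative.ofAdd (1 : R)) k
    exact this.symm
  rw [e] at hk
  have h3 := congrArg (fun g : (Matrix (Fin 3) (Fin 3) R)ˣ => (g : Matrix (Fin 3) (Fin 3) R) 1 2) hk
  simp only [hg, El01_val] at h3
  simp [Mw] at h3
  exact h3.symm

open Pointwise in
theorem pow_eq_bot_of_set {J : Ideal R} {m : ℕ} (h : ∀ c ∈ (J : Set R) ^ m, c = 0) :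
    J ^ m = ⊥ := by
  have e : J = Submodule.span R (J : Set R) := (Submodule.span_eq J).symm
  rw [e, Submodule.span_pow, Submodule.span_eq_bot]
  exact h

open Pointwise in
/-- Abstract form of the non-subnormality argument. -/
theorem push5 {G : Type*} [Group G] {S : Type*} [CommRing S] (h2 : (2:S) = 0) (J : Ideal S)
    (hJ2 : ∀ c ∈ J, c * c = 0)
    (Ψ : G →* (Matrix (Fin 3) (Fin 3) S)ˣ) (y : G) (hy : Ψ y = iu Ma (Ma_sq h2))
    (hJ : HasEx Ψ.range (J : Set S)) (n : ℕ) (K : ℕ → Subgroup G)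
    (h0 : K 0 = Subgroup.zpowers y) (hn : K n = ⊤)
    (hK : ∀ i : ℕ, i < n → (K i ≤ K (i + 1) ∧
      ∀ a : G, a ∈ K (i + 1) → ∀ b : G, b ∈ K i → a * b * a⁻¹ ∈ K i)) :
    ∃ m : ℕ, J ^ m = ⊥ := by
  have hK'0 : (K 0).map Ψ = Subgroup.zpowers (iu Ma (Ma_sq h2)) := by
    rw [h0, MonoidHom.map_zpowers, hy]
  have hK'n : HasEx ((K n).map Ψ) (J : Set S) := by
    intro c hc g hg
    obtain ⟨g', hg'⟩ := hJ c hc g hg
    exact ⟨g', by rw [hn]; trivial, hg'⟩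
  have hmono' : ∀ i < n, (K i).map Ψ ≤ (K (i + 1)).map Ψ := fun i hi => Subgroup.map_mono (hK i hi).1
  have hnorm' : ∀ i < n, ∀ a ∈ (K (i + 1)).map Ψ, ∀ b ∈ (K i).map Ψ, a * b * a⁻¹ ∈ (K i).map Ψ := by
    rintro i hi _ ⟨a, ha, rfl⟩ _ ⟨b, hb, rfl⟩
    exact ⟨a * b * a⁻¹, (hK i hi).2 a ha b hb, by simp⟩
  obtain ⟨m, hm1, hm⟩ := chain5 h2 hJ2 n (fun i => (K i).map Ψ) hmono' hnorm'
    (by show _ ∈ (K 0).map Ψ; rw [hK'0]; exact Subgroup.mem_zpowers _) hK'n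
  refine ⟨m, pow_eq_bot_of_set ?_⟩
  intro c hc
  have hcJ : c ∈ J := by
    obtain ⟨k, rfl⟩ := Nat.exists_eq_add_of_le' hm1
    rw [pow_succ'] at hc
    obtain ⟨a, ha, b, _, rfl⟩ := hc
    exact J.mul_mem_right _ ha
  have := hm c hc (iu (Mw c) (Mw_sq h2 (hJ2 c hcJ))) (Or.inr (Or.inl rfl))
  have h3 : iu (Mw c) (Mw_sq h2 (hJ2 c hcJ)) ∈ (K 0).map Ψ := this
  rw [hK'0] at h3
  exact Mw_mem_zpowers h2 rfl h3

/-- The group: matrices congruent to `1` or `1 + e_{01}` modulo `J` which preserve the form and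
have determinant one. -/
def G5 (J : Ideal R) : Subgroup (Matrix (Fin 3) (Fin 3) R)ˣ := GI J ⊓ OO (R := R)

theorem Mu_mem (h2 : (2:R) = 0) {J : Ideal R} (hsq : ∀ c ∈ J, c * c = 0) {c : R} (hc : c ∈ J) :
    iu (Mu c) (Mu_sq h2 (hsq c hc)) ∈ G5 J := by
  have h3 : c * c = 0 := hsq c hc
  have e : (Mu c : Matrix (Fin 3) (Fin 3) R) - 1 ∈ NI J := by
    rw [mem_NI]
    intro i j _
    fin_cases i <;> fin_cases j <;> simp [Mu, hc]
  refine ⟨mem_GI.2 ⟨by rw [iu_val]; exact e, by rw [iu_inv, iu_val]; exact e⟩, mem_OO.2 ?_⟩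
  rw [iu_val]
  constructor
  · ext i j
    fin_cases i <;> fin_cases j <;>
      simp [Mu, SS, Matrix.mul_apply, Fin.sum_univ_three, Matrix.transpose_apply] <;> grind
  · simp [Mu, Matrix.det_fin_three]

theorem Mw_mem (h2 : (2:R) = 0) {J : Ideal R} (hsq : ∀ c ∈ J, c * c = 0) {c : R} (hc : c ∈ J) :
    iu (Mw c) (Mw_sq h2 (hsq c hc)) ∈ G5 J := by
  have h3 : c * c = 0 := hsq c hc
  have e : (Mw c : Matrix (Fin 3) (Fin 3) R) - 1 ∈ NI J := by
    rw [mem_NI]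
    intro i j _
    fin_cases i <;> fin_cases j <;> simp [Mw, hc]
  refine ⟨mem_GI.2 ⟨by rw [iu_val]; exact e, by rw [iu_inv, iu_val]; exact e⟩, mem_OO.2 ?_⟩
  rw [iu_val]
  constructor
  · ext i j
    fin_cases i <;> fin_cases j <;>
      simp [Mw, SS, Matrix.mul_apply, Fin.sum_univ_three, Matrix.transpose_apply] <;> grind
  · simp [Mw, Matrix.det_fin_three]

theorem Mo_mem (h2 : (2:R) = 0) {J : Ideal R} (hsq : ∀ c ∈ J, c * c = 0) {c : R} (hc : c ∈ J) :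
    iu (Mo c) (Mo_sq h2 (hsq c hc)) ∈ G5 J := by
  have h3 : c * c = 0 := hsq c hc
  have e : (Mo c : Matrix (Fin 3) (Fin 3) R) - 1 ∈ NI J := by
    rw [mem_NI]
    intro i j _
    fin_cases i <;> fin_cases j <;> simp [Mo, hc]
  refine ⟨mem_GI.2 ⟨by rw [iu_val]; exact e, by rw [iu_inv, iu_val]; exact e⟩, mem_OO.2 ?_⟩
  rw [iu_val]
  constructor
  · ext i j
    fin_cases i <;> fin_cases j <;>
      simp [Mo, SS, Matrix.mul_apply, Fin.sum_univ_three, Matrix.transpose_apply] <;> grind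
  · simp [Mo, Matrix.det_fin_three]
    grind

theorem map_Mu {S : Type*} [CommRing S] (π : R →+* S) {c : R} (h : Mu c * Mu c = 1)
    (h' : Mu (π c) * Mu (π c) = 1) : mapU π (iu (Mu c) h) = iu (Mu (π c)) h' := by
  apply Units.ext
  ext i j
  rw [mapU_val, iu_val, iu_val]
  fin_cases i <;> fin_cases j <;> simp [Mu]

theorem map_Mw {S : Type*} [CommRing S] (π : R →+* S) {c : R} (h : Mw c * Mw c = 1)
    (h' : Mw (π c) * Mw (π c) = 1) : mapU π (iu (Mw c) h) = iu (Mw (π c)) h' := by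
  apply Units.ext
  ext i j
  rw [mapU_val, iu_val, iu_val]
  fin_cases i <;> fin_cases j <;> simp [Mw]

theorem map_Mo {S : Type*} [CommRing S] (π : R →+* S) {c : R} (h : Mo c * Mo c = 1)
    (h' : Mo (π c) * Mo (π c) = 1) : mapU π (iu (Mo c) h) = iu (Mo (π c)) h' := by
  apply Units.ext
  ext i j
  rw [mapU_val, iu_val, iu_val]
  fin_cases i <;> fin_cases j <;> simp [Mo]

/-- Elements of `G5 J` generating a subnormal cyclic subgroup are congruent to `1` modulo `J`. -/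
theorem subnormal_mem5 (h2 : (2:R) = 0) {J : Ideal R} (hG : Good R J) (y : G5 J) (n : ℕ)
    (K : ℕ → Subgroup (G5 J))
    (h0 : K 0 = Subgroup.zpowers y) (hn : K n = ⊤)
    (hK : ∀ i : ℕ, i < n → (K i ≤ K (i + 1) ∧
      ∀ a : G5 J, a ∈ K (i + 1) → ∀ b : G5 J, b ∈ K i → a * b * a⁻¹ ∈ K i)) :
    ((y : (Matrix (Fin 3) (Fin 3) R)ˣ) : Matrix (Fin 3) (Fin 3) R) - 1 ∈ MI J := by
  classical
  by_contra hy
  obtain ⟨Y, hYdef⟩ : ∃ Y : Matrix (Fin 3) (Fin 3) R,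
    Y = ((y : (Matrix (Fin 3) (Fin 3) R)ˣ) : Matrix (Fin 3) (Fin 3) R) := ⟨_, rfl⟩
  rw [← hYdef] at hy
  have hYN : Y - 1 ∈ NI J := by rw [hYdef]; exact (mem_GI.1 y.2.1).1
  -- the (0,1) entry is not in J
  have h01 : (Y - 1) 0 1 ∉ J := by
    intro h
    apply hy
    intro i j
    by_cases hij : i = 0 ∧ j = 1
    · rw [hij.1, hij.2]; exact h
    · exact hYN i j hij
  have h01' : (Y - 1) 0 1 - 1 ∈ J := (hG.res _).resolve_left h01
  obtain ⟨a, ha⟩ : ∃ a : (Matrix (Fin 3) (Fin 3) R)ˣ, a = El 0 1 (by decide) (1 : R) := ⟨_, rfl⟩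
  have hYa : Y - (a : Matrix (Fin 3) (Fin 3) R) ∈ MI J := by
    intro i j
    by_cases hij : i = 0 ∧ j = 1
    · rw [hij.1, hij.2]
      have : (Y - (a : Matrix (Fin 3) (Fin 3) R)) 0 1 = (Y - 1) 0 1 - 1 := by
        simp [ha, El_val, single]
      rw [this]; exact h01'
    · have : (Y - (a : Matrix (Fin 3) (Fin 3) R)) i j = (Y - 1) i j := by
        have h3 : ¬ ((0 : Fin 3) = i ∧ (1 : Fin 3) = j) := by
          rintro ⟨h1, h2⟩; exact hij ⟨h1.symm, h2.symm⟩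
        simp [ha, El_val, single, h3]
      rw [this]; exact hYN i j hij
  -- the ideal generated by the entries of Y - a
  obtain ⟨s, hs⟩ : ∃ s : Finset R, s = Finset.image
    (fun p : Fin 3 × Fin 3 => (Y - (a : Matrix (Fin 3) (Fin 3) R)) p.1 p.2) Finset.univ := ⟨_, rfl⟩
  have hsJ : ∀ c ∈ s, c ∈ J := by
    intro c hc
    rw [hs, Finset.mem_image] at hc
    obtain ⟨p, _, rfl⟩ := hc
    exact hYa p.1 p.2
  have hnil : Ideal.span (s : Set R) ^ (s.card + 1) = ⊥ :=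
    span_finset_pow s (fun c hc => hG.sq c (hsJ c hc))
  have h2' : (2 : R ⧸ Ideal.span (s : Set R)) = 0 := by
    have : (2 : R ⧸ Ideal.span (s : Set R)) = Ideal.Quotient.mk (Ideal.span (s : Set R)) 2 :=
      (map_ofNat (Ideal.Quotient.mk (Ideal.span (s : Set R))) 2).symm
    rw [this, h2, map_zero]
  have hyΨ : ((mapU (Ideal.Quotient.mk (Ideal.span (s : Set R)))).comp (G5 J).subtype) y
      = iu Ma (Ma_sq h2') := by
    have h1 : mapU (Ideal.Quotient.mk (Ideal.span (s : Set R))) a = El 0 1 (by decide) 1 := by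
      rw [ha, mapU_El, map_one]
    rw [iu_Ma_eq h2', ← h1]
    apply Units.ext
    ext p q
    rw [MonoidHom.comp_apply, Subgroup.subtype_apply, mapU_val, mapU_val, ← hYdef,
      Ideal.Quotient.eq]
    apply Ideal.subset_span
    rw [hs, Finset.coe_image]
    exact ⟨(p, q), by simp, rfl⟩
  have hJ2 : ∀ c ∈ J, c * c = 0 := fun c hc => by rw [← pow_two]; exact hG.sq c hc
  have hJ2' : ∀ c ∈ J.map (Ideal.Quotient.mk (Ideal.span (s : Set R))), c * c = 0 := by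
    intro c hc
    obtain ⟨c', hc', rfl⟩ :=
      (Ideal.mem_map_iff_of_surjective _ Ideal.Quotient.mk_surjective).1 hc
    rw [← map_mul, hJ2 c' hc', map_zero]
  have hrange : HasEx ((mapU (Ideal.Quotient.mk (Ideal.span (s : Set R)))).comp
      (G5 J).subtype).range
      ((J.map (Ideal.Quotient.mk (Ideal.span (s : Set R))) : Ideal _) : Set _) := by
    intro c hc g hg
    obtain ⟨c', hc', rfl⟩ :=
      (Ideal.mem_map_iff_of_surjective _ Ideal.Quotient.mk_surjective).1 hc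
    have hcc := hJ2' _ hc
    rcases hg with hg | hg | hg
    · refine ⟨⟨_, Mu_mem h2 hJ2 hc'⟩, ?_⟩
      rw [MonoidHom.comp_apply, Subgroup.subtype_apply, map_Mu _ _ (Mu_sq h2' hcc)]
      exact (Units.ext hg).symm
    · refine ⟨⟨_, Mw_mem h2 hJ2 hc'⟩, ?_⟩
      rw [MonoidHom.comp_apply, Subgroup.subtype_apply, map_Mw _ _ (Mw_sq h2' hcc)]
      exact (Units.ext hg).symm
    · refine ⟨⟨_, Mo_mem h2 hJ2 hc'⟩, ?_⟩
      rw [MonoidHom.comp_apply, Subgroup.subtype_apply, map_Mo _ _ (Mo_sq h2' hcc)]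
      exact (Units.ext hg).symm
  obtain ⟨m, hzero⟩ := push5 h2' _ hJ2' _ y hyΨ hrange n K h0 hn hK
  rw [← Ideal.map_pow, Ideal.map_eq_bot_iff_le_ker, Ideal.mk_ker] at hzero
  apply hG.notnil (m * (s.card + 1))
  rw [eq_bot_iff, pow_mul, ← hnil]
  exact Ideal.pow_right_mono hzero _

/-- The congruence subgroup of `G5 JJ`. -/
noncomputable def Gam5 : Subgroup (G5 JJ) :=
  Gam.comap (Subgroup.inclusion (show G5 JJ ≤ GI JJ from inf_le_left))

/-- The element `1 + e_{01}`. -/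
noncomputable def a5 : G5 JJ := ⟨El 0 1 (by decide) 1, El01_mem_GI 1, El01_mem_OO two_RR 1⟩

theorem not_mem_Gam5 : a5 ∉ Gam5 := fun h => not_mem_Gam h

theorem a5_engel (g : G5 JJ) : (fun z : G5 JJ => z⁻¹ * g⁻¹ * z * g)^[5] a5 = 1 := by
  apply Subtype.ext
  have h := five_engel two_RR JJ_sq (g : (Matrix (Fin 3) (Fin 3) RR)ˣ) g.2.1 g.2.2
  have h3 : ∀ (m : ℕ) (z : G5 JJ),
      (((fun y : G5 JJ => y⁻¹ * g⁻¹ * y * g)^[m] z : G5 JJ) : (Matrix (Fin 3) (Fin 3) RR)ˣ)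
      = (fun y : (Matrix (Fin 3) (Fin 3) RR)ˣ =>
          y⁻¹ * (g : (Matrix (Fin 3) (Fin 3) RR)ˣ)⁻¹ * y * g)^[m] z := by
    intro m
    induction m with
    | zero => intro z; rfl
    | succ m ih =>
      intro z
      rw [Function.iterate_succ_apply, Function.iterate_succ_apply, ih]
      rfl
  rw [h3]
  exact h

theorem baer_le (y : G5 JJ) (hy : (Subgroup.zpowers y).IsSubnormal) : y ∈ Gam5 := by
  obtain ⟨n, K, hmono, hnorm, h0, hn⟩ := Subgroup.IsSubnormal.isSubnormal_iff.1 hy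
  refine subnormal_mem5 two_RR good y n K h0 hn ?_
  intro i _
  refine ⟨hmono (Nat.le_succ i), ?_⟩
  intro a ha b hb
  have h := (hnorm i).conj_mem (⟨b, hmono (Nat.le_succ i) hb⟩ : K (i + 1))
    (by rw [Subgroup.mem_subgroupOf]; exact hb) ⟨a, ha⟩
  rw [Subgroup.mem_subgroupOf] at h
  exact h

end final

end Pool.Agent.Helper94.Five
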