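import Mathlib
import Pool.Agent.Helper94.Grp

set_option autoImplicit false

namespace Pool.Agent.Helper94

open Matrix

section gen

variable {R : Type*} [CommRing R] {J : Ideal R}

theorem MI_mono {I I' : Ideal R} (h : I ≤ I') : MI I ≤ MI I' := fun _ hX i j => h (hX i j)

theorem mul_mem_MI_left {I : Ideal R} (X : Matrix (Fin 3) (Fin 3) R) {Y : Matrix (Fin 3) (Fin 3) R}
    (hY : Y ∈ MI I) : X * Y ∈ MI I := by
  intro i j
  rw [Matrix.mul_apply]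
  exact Ideal.sum_mem _ (fun k _ => I.mul_mem_left _ (hY k j))

theorem mul_mem_MI_right {I : Ideal R} (X : Matrix (Fin 3) (Fin 3) R) {Y : Matrix (Fin 3) (Fin 3) R}
    (hY : Y ∈ MI I) : Y * X ∈ MI I := by
  intro i j
  rw [Matrix.mul_apply]
  exact Ideal.sum_mem _ (fun k _ => I.mul_mem_right _ (hY i k))

/-- Elements of `GI J` congruent to `1` modulo `I`. -/
def GamI (J I : Ideal R) : Subgroup (GI J) where
  carrier := {y | ((y : (Matrix (Fin 3) (Fin 3) R)ˣ) : Matrix (Fin 3) (Fin 3) R) - 1 ∈ MI I}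
  one_mem' := by
    show ((1 : (Matrix (Fin 3) (Fin 3) R)ˣ) : Matrix (Fin 3) (Fin 3) R) - 1 ∈ MI I
    simp
  mul_mem' := by
    intro a b ha hb
    have ha' : ((a : (Matrix (Fin 3) (Fin 3) R)ˣ) : Matrix (Fin 3) (Fin 3) R) - 1 ∈ MI I := ha
    have hb' : ((b : (Matrix (Fin 3) (Fin 3) R)ˣ) : Matrix (Fin 3) (Fin 3) R) - 1 ∈ MI I := hb
    show ((a * b : GI J) : (Matrix (Fin 3) (Fin 3) R)ˣ).val - 1 ∈ MI I
    rw [Subgroup.coe_mul, Units.val_mul, mul_sub_one_eq]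
    exact Submodule.add_mem _ (Submodule.add_mem _ (mul_mem_MI_left _ hb') ha') hb'
  inv_mem' := by
    intro a ha
    have ha' : ((a : (Matrix (Fin 3) (Fin 3) R)ˣ) : Matrix (Fin 3) (Fin 3) R) - 1 ∈ MI I := ha
    show ((a⁻¹ : GI J) : (Matrix (Fin 3) (Fin 3) R)ˣ).val - 1 ∈ MI I
    rw [Subgroup.coe_inv]
    have : (((a : (Matrix (Fin 3) (Fin 3) R)ˣ)⁻¹ : (Matrix (Fin 3) (Fin 3) R)ˣ) :
        Matrix (Fin 3) (Fin 3) R) - 1 = - ((((a : (Matrix (Fin 3) (Fin 3) R)ˣ)⁻¹ :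
        (Matrix (Fin 3) (Fin 3) R)ˣ) : Matrix (Fin 3) (Fin 3) R) *
        (((a : (Matrix (Fin 3) (Fin 3) R)ˣ) : Matrix (Fin 3) (Fin 3) R) - 1)) := by
      rw [mul_sub, Units.inv_mul]; simp
    rw [this]
    exact Submodule.neg_mem _ (mul_mem_MI_left _ ha')

theorem mem_GamI {I : Ideal R} {y : GI J} : y ∈ GamI J I ↔
    ((y : (Matrix (Fin 3) (Fin 3) R)ˣ) : Matrix (Fin 3) (Fin 3) R) - 1 ∈ MI I := Iff.rfl

theorem GamI_conj {I : Ideal R} (a b : GI J) (hb : b ∈ GamI J I) : a * b * a⁻¹ ∈ GamI J I := by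
  rw [mem_GamI] at hb ⊢
  rw [Subgroup.coe_mul, Subgroup.coe_mul, Units.val_mul, Units.val_mul, Subgroup.coe_inv]
  have : ((a : (Matrix (Fin 3) (Fin 3) R)ˣ) : Matrix (Fin 3) (Fin 3) R) *
      ((b : (Matrix (Fin 3) (Fin 3) R)ˣ) : Matrix (Fin 3) (Fin 3) R) *
      (((a : (Matrix (Fin 3) (Fin 3) R)ˣ)⁻¹ : (Matrix (Fin 3) (Fin 3) R)ˣ) :
        Matrix (Fin 3) (Fin 3) R) - 1 =
      ((a : (Matrix (Fin 3) (Fin 3) R)ˣ) : Matrix (Fin 3) (Fin 3) R) *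
      (((b : (Matrix (Fin 3) (Fin 3) R)ˣ) : Matrix (Fin 3) (Fin 3) R) - 1) *
      (((a : (Matrix (Fin 3) (Fin 3) R)ˣ)⁻¹ : (Matrix (Fin 3) (Fin 3) R)ˣ) :
        Matrix (Fin 3) (Fin 3) R) := by
    rw [mul_sub, sub_mul, mul_one, Units.mul_inv]
  rw [this]
  exact mul_mem_MI_right _ (mul_mem_MI_left _ hb)

theorem GamI_comm {I : Ideal R} (a b : GI J)
    (hab : (((a : (Matrix (Fin 3) (Fin 3) R)ˣ) : Matrix (Fin 3) (Fin 3) R) - 1) *
      (((b : (Matrix (Fin 3) (Fin 3) R)ˣ) : Matrix (Fin 3) (Fin 3) R) - 1) ∈ MI I)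
    (hba : (((b : (Matrix (Fin 3) (Fin 3) R)ˣ) : Matrix (Fin 3) (Fin 3) R) - 1) *
      (((a : (Matrix (Fin 3) (Fin 3) R)ˣ) : Matrix (Fin 3) (Fin 3) R) - 1) ∈ MI I) :
    a * b * a⁻¹ * b⁻¹ ∈ GamI J I := by
  rw [mem_GamI]
  rw [Subgroup.coe_mul, Subgroup.coe_mul, Subgroup.coe_mul, Units.val_mul, Units.val_mul,
    Units.val_mul, Subgroup.coe_inv, Subgroup.coe_inv]
  revert hab hba
  generalize (a : (Matrix (Fin 3) (Fin 3) R)ˣ) = u
  generalize (b : (Matrix (Fin 3) (Fin 3) R)ˣ) = v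
  intro hab hba
  have e0 : (u : Matrix (Fin 3) (Fin 3) R) * v * (u⁻¹ : (Matrix (Fin 3) (Fin 3) R)ˣ) *
      (v⁻¹ : (Matrix (Fin 3) (Fin 3) R)ˣ) - 1 =
      (((u : Matrix (Fin 3) (Fin 3) R) - 1) * ((v : Matrix (Fin 3) (Fin 3) R) - 1) -
       ((v : Matrix (Fin 3) (Fin 3) R) - 1) * ((u : Matrix (Fin 3) (Fin 3) R) - 1)) *
       ((u⁻¹ : (Matrix (Fin 3) (Fin 3) R)ˣ) * (v⁻¹ : (Matrix (Fin 3) (Fin 3) R)ˣ)) := by
    have e1 : (((u : Matrix (Fin 3) (Fin 3) R) - 1) * ((v : Matrix (Fin 3) (Fin 3) R) - 1) -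
       ((v : Matrix (Fin 3) (Fin 3) R) - 1) * ((u : Matrix (Fin 3) (Fin 3) R) - 1))
       = (u : Matrix (Fin 3) (Fin 3) R) * v - v * u := by noncomm_ring
    rw [e1, sub_mul]
    have e2 : (v : Matrix (Fin 3) (Fin 3) R) * u *
      ((u⁻¹ : (Matrix (Fin 3) (Fin 3) R)ˣ) * (v⁻¹ : (Matrix (Fin 3) (Fin 3) R)ˣ)) = 1 := by
      rw [mul_assoc, ← mul_assoc (u : Matrix (Fin 3) (Fin 3) R)]
      rw [Units.mul_inv, one_mul, Units.mul_inv]
    rw [e2, mul_assoc, mul_assoc]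
  rw [e0]
  exact mul_mem_MI_right _ (Submodule.sub_mem _ hab hba)

theorem GamI_bot : GamI J (⊥ : Ideal R) = ⊥ := by
  rw [eq_bot_iff]
  intro y hy
  rw [mem_GamI, MI_bot, Submodule.mem_bot, sub_eq_zero] at hy
  rw [Subgroup.mem_bot]
  apply Subtype.ext
  apply Units.ext
  exact hy

end gen

/-- The ideal generated by the first `m` variables. -/
noncomputable def JS (m : ℕ) : Ideal RR := Ideal.span (xx '' {i | i < m})

theorem JS_zero : JS 0 = ⊥ := by simp [JS]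

theorem JS_mono {m n : ℕ} (h : m ≤ n) : JS m ≤ JS n := by
  apply Ideal.span_mono
  apply Set.image_mono
  intro i hi
  exact lt_of_lt_of_le hi h

theorem JS_le (m : ℕ) : JS m ≤ JJ := by
  apply Ideal.span_mono
  rintro _ ⟨i, _, rfl⟩
  exact ⟨i, rfl⟩

theorem JS_succ (m : ℕ) : JS (m + 1) = JS m ⊔ Ideal.span {xx m} := by
  unfold JS
  rw [← Ideal.span_union]
  congr 1
  ext r
  simp only [Set.mem_image, Set.mem_ofPred_eq, Set.mem_union, Set.mem_singleton_iff]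
  constructor
  · rintro ⟨i, hi, rfl⟩
    rcases Nat.lt_succ_iff_lt_or_eq.1 hi with h | h
    · left; exact ⟨i, h, rfl⟩
    · right; rw [h]
  · rintro (⟨i, hi, rfl⟩ | rfl)
    · exact ⟨i, by omega, rfl⟩
    · exact ⟨m, by omega, rfl⟩

theorem JS_sq (m : ℕ) : JS (m + 1) * JS (m + 1) ≤ JS m := by
  rw [JS_succ, Ideal.sup_mul, Ideal.mul_sup, Ideal.mul_sup]
  refine sup_le (sup_le Ideal.mul_le_left Ideal.mul_le_left) (sup_le Ideal.mul_le_right ?_)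
  rw [Ideal.span_singleton_mul_span_singleton, ← pow_two, xx_sq]
  simp

theorem mem_JJ_iff {r : RR} : r ∈ JJ ↔ ∃ m, r ∈ JS m := by
  constructor
  · intro h
    refine Submodule.span_induction (p := fun c _ => ∃ m, c ∈ JS m) ?_ ?_ ?_ ?_ h
    · rintro _ ⟨i, rfl⟩
      exact ⟨i + 1, Ideal.subset_span ⟨i, by simp, rfl⟩⟩
    · exact ⟨0, Ideal.zero_mem _⟩
    · rintro a b _ _ ⟨m, hm⟩ ⟨n, hn⟩
      exact ⟨max m n, Ideal.add_mem _ (JS_mono (le_max_left _ _) hm) (JS_mono (le_max_right _ _) hn)⟩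
    · rintro c a _ ⟨m, hm⟩
      exact ⟨m, Ideal.mul_mem_left _ _ hm⟩
  · rintro ⟨m, hm⟩
    exact JS_le m hm

theorem mem_MI_JJ_iff {X : Matrix (Fin 3) (Fin 3) RR} : X ∈ MI JJ ↔ ∃ m, X ∈ MI (JS m) := by
  constructor
  · intro h
    have h1 : ∀ i j, ∃ m, X i j ∈ JS m := fun i j => mem_JJ_iff.1 (h i j)
    choose f hf using h1
    refine ⟨Finset.univ.sup (fun p : Fin 3 × Fin 3 => f p.1 p.2), ?_⟩
    intro i j
    refine JS_mono ?_ (hf i j)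
    exact Finset.le_sup (f := fun p : Fin 3 × Fin 3 => f p.1 p.2) (Finset.mem_univ (i, j))
  · rintro ⟨m, hm⟩
    exact MI_mono (JS_le m) hm

/-- A natural-number-indexed abelian series of normal subgroups whose union has abelian quotient. -/
theorem series_spec :
    GamI JJ (JS 0) = ⊥ ∧
    (∀ m, GamI JJ (JS m) ≤ GamI JJ (JS (m + 1))) ∧
    (∀ m, ∀ a b : GI JJ, b ∈ GamI JJ (JS m) → a * b * a⁻¹ ∈ GamI JJ (JS m)) ∧
    (∀ m, ∀ a b : GI JJ, a ∈ GamI JJ (JS (m + 1)) → b ∈ GamI JJ (JS (m + 1)) →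
      a * b * a⁻¹ * b⁻¹ ∈ GamI JJ (JS m)) ∧
    (∀ y : GI JJ, y ∈ GamI JJ JJ ↔ ∃ m, y ∈ GamI JJ (JS m)) ∧
    (∀ a b : GI JJ, b ∈ GamI JJ JJ → a * b * a⁻¹ ∈ GamI JJ JJ) ∧
    (∀ a b : GI JJ, a * b * a⁻¹ * b⁻¹ ∈ GamI JJ JJ) := by
  refine ⟨by rw [JS_zero, GamI_bot], ?_, ?_, ?_, ?_, ?_, ?_⟩
  · intro m y hy
    exact MI_mono (JS_mono (Nat.le_succ m)) hy
  · intro m a b hb; exact GamI_conj a b hb
  · intro m a b ha hb
    apply GamI_comm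
    · exact MI_mono (JS_sq m) (MI_mul_MI _ _ (Submodule.mul_mem_mul ha hb))
    · exact MI_mono (JS_sq m) (MI_mul_MI _ _ (Submodule.mul_mem_mul hb ha))
  · intro y
    exact mem_MI_JJ_iff
  · intro a b hb; exact GamI_conj a b hb
  · intro a b
    apply GamI_comm
    · exact NI_mul_NI _ (Submodule.mul_mem_mul (mem_GI.1 a.2).1 (mem_GI.1 b.2).1)
    · exact NI_mul_NI _ (Submodule.mul_mem_mul (mem_GI.1 b.2).1 (mem_GI.1 a.2).1)

end Pool.Agent.Helper94
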