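import Mathlib

set_option autoImplicit false

namespace Pool.Agent.Helper94.Sol

/-- The group `C₄^ℕ`, written additively. -/
abbrev V : Type := ℕ → ZMod 4

theorem four_V (t : V) : t + t + t + t = 0 := by
  ext i
  have : ∀ a : ZMod 4, a + a + a + a = 0 := by decide
  exact this (t i)

/-- The generalized dihedral group over `V`: affine maps `t ↦ s t + v` with `s = ±1`. -/
@[ext] structure HH : Type where
  s : ℤˣ
  v : V

namespace HH

/-- The action on `V`. -/
def act (h : HH) (t : V) : V := (h.s : ℤ) • t + h.v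

instance : Mul HH := ⟨fun a b => ⟨a.s * b.s, a.act b.v⟩⟩
instance : One HH := ⟨⟨1, 0⟩⟩
instance : Inv HH := ⟨fun a => ⟨a.s, -((a.s : ℤ) • a.v)⟩⟩

@[simp] theorem mul_s (a b : HH) : (a * b).s = a.s * b.s := rfl
@[simp] theorem mul_v (a b : HH) : (a * b).v = (a.s : ℤ) • b.v + a.v := rfl
@[simp] theorem one_s : (1 : HH).s = 1 := rfl
@[simp] theorem one_v : (1 : HH).v = 0 := rfl
@[simp] theorem inv_s (a : HH) : (a⁻¹).s = a.s := rfl
@[simp] theorem inv_v (a : HH) : (a⁻¹).v = -((a.s : ℤ) • a.v) := rfl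

instance : Group HH := Group.ofLeftAxioms
  (by
    intro a b c
    apply HH.ext
    · simp [mul_assoc]
    · simp [mul_smul, smul_add, add_assoc])
  (by
    intro a
    apply HH.ext <;> simp)
  (by
    intro a
    apply HH.ext
    · simp
    · simp)

theorem act_mul (a b : HH) (t : V) : (a * b).act t = a.act (b.act t) := by
  simp [act, mul_smul, smul_add, add_assoc]

@[simp] theorem act_one (t : V) : (1 : HH).act t = t := by simp [act]

theorem act_inv_act (a : HH) (t : V) : a⁻¹.act (a.act t) = t := by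
  rw [← act_mul, inv_mul_cancel, act_one]

theorem act_act_inv (a : HH) (t : V) : a.act (a⁻¹.act t) = t := by
  rw [← act_mul, mul_inv_cancel, act_one]

end HH

/-- The permutational wreath product of a group of order two by `HH` acting on `V`. -/
@[ext] structure GG : Type where
  f : V → ZMod 2
  h : HH

namespace GG

instance : Mul GG := ⟨fun a b => ⟨fun t => a.f (b.h.act t) + b.f t, a.h * b.h⟩⟩
instance : One GG := ⟨⟨0, 1⟩⟩
instance : Inv GG := ⟨fun a => ⟨fun t => a.f (a.h⁻¹.act t), a.h⁻¹⟩⟩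

@[simp] theorem mul_f (a b : GG) (t : V) : (a * b).f t = a.f (b.h.act t) + b.f t := rfl
@[simp] theorem mul_h (a b : GG) : (a * b).h = a.h * b.h := rfl
@[simp] theorem one_f (t : V) : (1 : GG).f t = 0 := rfl
@[simp] theorem one_h : (1 : GG).h = 1 := rfl
@[simp] theorem inv_f (a : GG) (t : V) : (a⁻¹).f t = a.f (a.h⁻¹.act t) := rfl
@[simp] theorem inv_h (a : GG) : (a⁻¹).h = a.h⁻¹ := rfl

theorem two_eq (a : ZMod 2) : a + a = 0 := by revert a; decide

instance : Group GG := Group.ofLeftAxioms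
  (by
    intro a b c
    apply GG.ext
    · funext t; simp [HH.act_mul, add_assoc]
    · simp [mul_assoc])
  (by
    intro a
    apply GG.ext
    · funext t; simp
    · simp)
  (by
    intro a
    apply GG.ext
    · funext t; simp [HH.act_inv_act, two_eq]
    · simp)

theorem comm_f (w g : GG) (t : V) :
    (w⁻¹ * g⁻¹ * w * g).f t = w.f ((w.h⁻¹ * g.h⁻¹ * w.h * g.h).act t) +
      g.f ((g.h⁻¹ * w.h * g.h).act t) + w.f (g.h.act t) + g.f t := by
  simp [HH.act_mul]

theorem comm_h (w g : GG) : (w⁻¹ * g⁻¹ * w * g).h = w.h⁻¹ * g.h⁻¹ * w.h * g.h := rfl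

end GG

/-- Commutators in `HH` are translations by elements of `2V`; more precisely: -/
theorem comm_HH (w g : HH) : ∃ u : V, w⁻¹ * g⁻¹ * w * g = ⟨1, u + u⟩ ∧
    (g.s = 1 → u = 0 ∨ u = g.v) := by
  have hs : (w⁻¹ * g⁻¹ * w * g).s = 1 := by
    simp only [HH.mul_s, HH.inv_s]
    rcases Int.units_eq_one_or w.s with h | h <;> rcases Int.units_eq_one_or g.s with h' | h' <;>
      simp [h, h']
  rcases Int.units_eq_one_or w.s with h | h <;> rcases Int.units_eq_one_or g.s with h' | h'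
  · refine ⟨0, ?_, fun _ => Or.inl rfl⟩
    apply HH.ext
    · exact hs
    · simp [h, h']
  · refine ⟨w.v, ?_, fun h1 => ?_⟩
    · apply HH.ext
      · exact hs
      · have e := four_V w.v
        simp only [HH.mul_v, HH.inv_v, HH.mul_s, HH.inv_s, h, h']
        simp
        have : w.v + w.v = -(w.v + w.v) := by
          rw [eq_neg_iff_add_eq_zero]; rw [← e]; abel
        rw [this]; abel
    · rw [h'] at h1; exact absurd h1 (by decide)
  · refine ⟨g.v, ?_, fun _ => Or.inr rfl⟩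
    apply HH.ext
    · exact hs
    · simp [h, h']
  · refine ⟨w.v - g.v, ?_, fun h1 => ?_⟩
    · apply HH.ext
      · exact hs
      · simp [h, h']
        abel
    · rw [h'] at h1; exact absurd h1 (by decide)

theorem translation_comm (u : V) (g : HH) :
    (⟨1, u + u⟩ : HH)⁻¹ * g⁻¹ * (⟨1, u + u⟩ : HH) * g = 1 := by
  have e := four_V u
  rcases Int.units_eq_one_or g.s with h | h
  · apply HH.ext
    · simp [h]
    · simp [h]
      abel
  · apply HH.ext
    · simp [h]
    · simp only [HH.mul_v, HH.inv_v, HH.mul_s, HH.inv_s, h]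
      simp
      have : -g.v + (-u + -u + (g.v + (-u + -u))) = -(u + u + u + u) := by abel
      rw [this, e, neg_zero]

theorem act_one_v (u t : V) : (⟨1, u⟩ : HH).act t = t + u := by simp [HH.act]

/-- The step for elements of the abelian normal subgroup `h = 1`. -/
theorem step_f (w g : GG) (hw : w.h = 1) :
    (w⁻¹ * g⁻¹ * w * g).h = 1 ∧ ∀ t, (w⁻¹ * g⁻¹ * w * g).f t = w.f (g.h.act t) + w.f t := by
  constructor
  · rw [GG.comm_h, hw]; simp
  · intro t
    rw [GG.comm_f, hw]
    simp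
    have := GG.two_eq (g.f t)
    calc w.f t + g.f t + w.f (g.h.act t) + g.f t
        = w.f (g.h.act t) + w.f t + (g.f t + g.f t) := by ring
      _ = _ := by rw [this, add_zero]

theorem engel5 (x y : GG) : (fun z : GG => z⁻¹ * y⁻¹ * z * y)^[5] x = 1 := by
  obtain ⟨w1, hw1⟩ : ∃ w1 : GG, w1 = x⁻¹ * y⁻¹ * x * y := ⟨_, rfl⟩
  obtain ⟨w2, hw2⟩ : ∃ w2 : GG, w2 = w1⁻¹ * y⁻¹ * w1 * y := ⟨_, rfl⟩
  obtain ⟨w3, hw3⟩ : ∃ w3 : GG, w3 = w2⁻¹ * y⁻¹ * w2 * y := ⟨_, rfl⟩
  obtain ⟨w4, hw4⟩ : ∃ w4 : GG, w4 = w3⁻¹ * y⁻¹ * w3 * y := ⟨_, rfl⟩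
  obtain ⟨w5, hw5⟩ : ∃ w5 : GG, w5 = w4⁻¹ * y⁻¹ * w4 * y := ⟨_, rfl⟩
  have hit : (fun z : GG => z⁻¹ * y⁻¹ * z * y)^[5] x = w5 := by
    rw [hw5, hw4, hw3, hw2, hw1]; rfl
  rw [hit]
  obtain ⟨u, hu, huy⟩ := comm_HH x.h y.h
  have h1 : w1.h = ⟨1, u + u⟩ := by rw [hw1, GG.comm_h, hu]
  have h2 : w2.h = 1 := by rw [hw2, GG.comm_h, h1, translation_comm]
  obtain ⟨h3, f3⟩ := step_f w2 y h2
  rw [← hw3] at h3 f3
  obtain ⟨h4, f4⟩ := step_f w3 y h3
  rw [← hw4] at h4 f4
  obtain ⟨h5, f5⟩ := step_f w4 y h4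
  rw [← hw5] at h5 f5
  -- the function part of w2
  have f2 : ∀ t, w2.f t = w1.f (y.h.act t) + w1.f t + (y.f (t + (u + u)) + y.f t) := by
    intro t
    rw [hw2, GG.comm_f, h1]
    have e1 : (⟨1, u + u⟩ : HH)⁻¹ * y.h⁻¹ * (⟨1, u + u⟩ : HH) * y.h = 1 := translation_comm u y.h
    have e2 : y.h⁻¹ * (⟨1, u + u⟩ : HH) * y.h = ⟨1, u + u⟩ := by
      have : (⟨1, u + u⟩ : HH) * ((⟨1, u + u⟩ : HH)⁻¹ * y.h⁻¹ * (⟨1, u + u⟩ : HH) * y.h)
          = ⟨1, u + u⟩ := by rw [e1, mul_one]
      calc y.h⁻¹ * (⟨1, u + u⟩ : HH) * y.h = (⟨1, u + u⟩ : HH) *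
            ((⟨1, u + u⟩ : HH)⁻¹ * y.h⁻¹ * (⟨1, u + u⟩ : HH) * y.h) := by
              generalize (⟨1, u + u⟩ : HH) = q; group
        _ = _ := this
    rw [e1, e2, HH.act_one, act_one_v]
    ring
  have key : ∀ t, w5.f t = w2.f (y.h.act (y.h.act (y.h.act t))) + w2.f (y.h.act (y.h.act t))
      + w2.f (y.h.act t) + w2.f t := by
    intro t
    rw [f5, f4, f4, f3, f3, f3]
    have a1 := GG.two_eq (w2.f (y.h.act (y.h.act t)))
    have a2 := GG.two_eq (w2.f (y.h.act t))
    linear_combination a1 + a2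
  apply GG.ext
  · funext t
    rw [key, f2, f2, f2, f2]
    show _ = (0 : ZMod 2)
    rcases Int.units_eq_one_or y.h.s with hs | hs
    · have hact : ∀ t, y.h.act t = t + y.h.v := by intro t; simp [HH.act, hs]
      simp only [hact]
      have e4 : t + y.h.v + y.h.v + y.h.v + y.h.v = t := by
        have := four_V y.h.v
        calc t + y.h.v + y.h.v + y.h.v + y.h.v = t + (y.h.v + y.h.v + y.h.v + y.h.v) := by abel
          _ = t := by rw [this, add_zero]
      rw [e4]
      rcases huy hs with hu0 | hu0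
      · rw [hu0]
        simp only [add_zero]
        have b0 := GG.two_eq (w1.f t)
        have b1 := GG.two_eq (w1.f (t + y.h.v))
        have b2 := GG.two_eq (w1.f (t + y.h.v + y.h.v))
        have b3 := GG.two_eq (w1.f (t + y.h.v + y.h.v + y.h.v))
        have c0 := GG.two_eq (y.f t)
        have c1 := GG.two_eq (y.f (t + y.h.v))
        have c2 := GG.two_eq (y.f (t + y.h.v + y.h.v))
        have c3 := GG.two_eq (y.f (t + y.h.v + y.h.v + y.h.v))
        linear_combination b0 + b1 + b2 + b3 + c0 + c1 + c2 + c3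
      · rw [hu0]
        have e2 : t + y.h.v + y.h.v + y.h.v + (y.h.v + y.h.v) = t + y.h.v := by
          rw [← e4]; rw [e4]
          calc t + y.h.v + y.h.v + y.h.v + (y.h.v + y.h.v)
              = (t + y.h.v + y.h.v + y.h.v + y.h.v) + y.h.v := by abel
            _ = _ := by rw [e4]
        have e3 : t + y.h.v + y.h.v + (y.h.v + y.h.v) = t := by
          calc t + y.h.v + y.h.v + (y.h.v + y.h.v) = t + y.h.v + y.h.v + y.h.v + y.h.v := by abel
            _ = _ := e4
        have e5 : t + y.h.v + (y.h.v + y.h.v) = t + y.h.v + y.h.v + y.h.v := by abel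
        have e6 : t + (y.h.v + y.h.v) = t + y.h.v + y.h.v := by abel
        rw [e2, e3, e5, e6]
        have b0 := GG.two_eq (w1.f t)
        have b1 := GG.two_eq (w1.f (t + y.h.v))
        have b2 := GG.two_eq (w1.f (t + y.h.v + y.h.v))
        have b3 := GG.two_eq (w1.f (t + y.h.v + y.h.v + y.h.v))
        have c0 := GG.two_eq (y.f t)
        have c1 := GG.two_eq (y.f (t + y.h.v))
        have c2 := GG.two_eq (y.f (t + y.h.v + y.h.v))
        have c3 := GG.two_eq (y.f (t + y.h.v + y.h.v + y.h.v))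
        linear_combination b0 + b1 + b2 + b3 + c0 + c1 + c2 + c3
    · have hact : ∀ t, y.h.act (y.h.act t) = t := by
        intro t
        simp [HH.act, hs]
      simp only [hact]
      have b0 := GG.two_eq (w1.f t)
      have b1 := GG.two_eq (w1.f (y.h.act t))
      have c0 := GG.two_eq (y.f t)
      have c1 := GG.two_eq (y.f (y.h.act t))
      have d0 := GG.two_eq (y.f (t + (u + u)))
      have d1 := GG.two_eq (y.f (y.h.act t + (u + u)))
      linear_combination 2 * b0 + 2 * b1 + c0 + c1 + d0 + d1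
  · exact h5

/-! ### Solubility -/

/-- The sign homomorphism on `HH`. -/
def HHs : HH →* ℤˣ where
  toFun a := a.s
  map_one' := rfl
  map_mul' _ _ := rfl

/-- The translations. -/
def HHt : Multiplicative V →* HH where
  toFun u := ⟨1, Multiplicative.toAdd u⟩
  map_one' := rfl
  map_mul' a b := by
    apply HH.ext
    · simp
    · simp [add_comm]

instance : Group.IsSolvable HH := by
  apply Group.isSolvable_of_ker_le_range HHt HHs
  intro a ha
  have h : a.s = 1 := ha
  exact ⟨Multiplicative.ofAdd a.v, HH.ext h.symm rfl⟩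

/-- The projection to `HH`. -/
def GGh : GG →* HH where
  toFun a := a.h
  map_one' := rfl
  map_mul' _ _ := rfl

/-- The base group. -/
def GGf : Multiplicative (V → ZMod 2) →* GG where
  toFun u := ⟨Multiplicative.toAdd u, 1⟩
  map_one' := rfl
  map_mul' a b := by
    apply GG.ext
    · funext t; simp
    · simp

instance : Group.IsSolvable GG := by
  apply Group.isSolvable_of_ker_le_range GGf GGh
  intro a ha
  have h : a.h = 1 := ha
  exact ⟨Multiplicative.ofAdd a.f, GG.ext rfl h.symm⟩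

/-! ### Exponent eight -/

theorem HH_pow_four (a : HH) : a ^ 4 = 1 := by
  have e := four_V a.v
  have : a ^ 4 = a * a * (a * a) := by
    rw [← mul_assoc, pow_succ, pow_succ, pow_succ, pow_one]
  rw [this]
  rcases Int.units_eq_one_or a.s with h | h
  · apply HH.ext
    · simp [h]
    · simp [h]; rw [← e]; abel
  · apply HH.ext
    · simp [h]
    · simp [h]

theorem isPGroup : IsPGroup 2 GG := by
  intro g
  refine ⟨3, ?_⟩
  have h4 : (g ^ 4).h = 1 := by
    have : (g ^ 4).h = g.h ^ 4 := map_pow GGh g 4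
    rw [this, HH_pow_four]
  have : g ^ 2 ^ 3 = g ^ 4 * g ^ 4 := by rw [← pow_add]; norm_num
  rw [this]
  apply GG.ext
  · funext t
    rw [GG.mul_f, h4]
    simp [GG.two_eq]
  · rw [GG.mul_h, h4]; simp

/-! ### The reflection lies in no nilpotent normal subgroup -/

/-- The translation by `u`. -/
def tr (u : V) : GG := ⟨0, ⟨1, u⟩⟩

/-- The reflection `t ↦ -t`. -/
def refl : GG := ⟨0, ⟨-1, 0⟩⟩

theorem comm_tr (w : GG) (hw : w.h = 1) (u : V) :
    (w * tr (u + u) * w⁻¹ * (tr (u + u))⁻¹).h = 1 ∧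
    ∀ t, (w * tr (u + u) * w⁻¹ * (tr (u + u))⁻¹).f t = w.f t + w.f (t + (u + u)) := by
  have e := four_V u
  constructor
  · simp only [GG.mul_h, GG.inv_h, hw, tr]
    simp
  · intro t
    have h1 : (tr (u + u)).h⁻¹.act t = t + (u + u) := by
      have : -(u + u) = u + u := by
        rw [neg_eq_iff_add_eq_zero, ← e]; abel
      simp [tr, HH.act, this]
    have h2 : ∀ t, (tr (u + u)).f t = 0 := fun _ => rfl
    have h3 : (tr (u + u)).h.act (t + (u + u)) = t := by
      have : t + (u + u) + (u + u) = t + (u + u + u + u) := by abel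
      simp only [tr, act_one_v]
      rw [this, e, add_zero]
    simp only [GG.mul_f, GG.inv_f, GG.inv_h, hw, h1, h2]
    simp [h3]

/-- The basis vectors. -/
def ee (k : ℕ) : V := Pi.single k 1

open Classical in
/-- The iterated commutators. -/
noncomputable def bb : ℕ → GG
  | 0 => ⟨fun t => if t = 0 then 1 else 0, 1⟩
  | (k + 1) => bb k * tr (ee k + ee k) * (bb k)⁻¹ * (tr (ee k + ee k))⁻¹

theorem bb_spec (k : ℕ) : (bb k).h = 1 ∧ (bb k).f 0 = 1 ∧
    ∀ t : V, (∃ j, k ≤ j ∧ t j ≠ 0) → (bb k).f t = 0 := by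
  induction k with
  | zero =>
    refine ⟨rfl, by simp [bb], ?_⟩
    rintro t ⟨j, -, hj⟩
    have : t ≠ 0 := by rintro rfl; exact hj rfl
    simp [bb, this]
  | succ k ih =>
    obtain ⟨h1, h2, h3⟩ := ih
    obtain ⟨c1, c2⟩ := comm_tr (bb k) h1 (ee k)
    refine ⟨c1, ?_, ?_⟩
    · show (bb k * tr (ee k + ee k) * (bb k)⁻¹ * (tr (ee k + ee k))⁻¹).f 0 = 1
      rw [c2, h2, h3 _ ⟨k, le_rfl, ?_⟩, add_zero]
      simp only [ee, Pi.add_apply, Pi.single_eq_same, Pi.zero_apply]
      decide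
    · rintro t ⟨j, hj, hne⟩
      show (bb k * tr (ee k + ee k) * (bb k)⁻¹ * (tr (ee k + ee k))⁻¹).f t = 0
      rw [c2, h3 t ⟨j, by omega, hne⟩, h3 _ ⟨j, by omega, ?_⟩, add_zero]
      have : j ≠ k := by omega
      simp [ee, this, hne]

theorem bb_ne_one (k : ℕ) : bb k ≠ 1 := by
  intro h
  have := (bb_spec k).2.1
  rw [h] at this
  simp at this

theorem not_fitting : ¬ (∀ g : GG, ∃ N : Subgroup GG, N.Normal ∧ Group.IsNilpotent N ∧ g ∈ N) := by
  intro H
  obtain ⟨N, hN, hnil, hx⟩ := H refl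
  -- translations by elements of `2V` lie in `N`
  have htr : ∀ u : V, tr (u + u) ∈ N := by
    intro u
    have h1 : (tr u) * refl * (tr u)⁻¹ * refl⁻¹ ∈ N :=
      N.mul_mem (hN.conj_mem _ hx _) (N.inv_mem hx)
    have h2 : (tr u) * refl * (tr u)⁻¹ * refl⁻¹ = tr (u + u) := by
      apply GG.ext
      · funext t
        simp [tr, refl]
      · apply HH.ext
        · simp [tr, refl]
        · simp [tr, refl]
    rwa [h2] at h1
  have hb : ∀ k, bb (k + 1) ∈ N.lowerCentralSeries k := by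
    intro k
    induction k with
    | zero =>
      show bb 0 * tr (ee 0 + ee 0) * (bb 0)⁻¹ * (tr (ee 0 + ee 0))⁻¹ ∈ N
      exact N.mul_mem (hN.conj_mem _ (htr _) _) (N.inv_mem (htr _))
    | succ k ih =>
      show bb (k + 1) * tr (ee (k + 1) + ee (k + 1)) * (bb (k + 1))⁻¹ *
        (tr (ee (k + 1) + ee (k + 1)))⁻¹ ∈ _
      rw [Subgroup.lowerCentralSeries_succ]
      exact Subgroup.commutator_mem_commutator ih (htr _)
  obtain ⟨n, hn⟩ := (Subgroup.isNilpotent_iff_lowerCentralSeries N).1 hnil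
  have := hb n
  rw [hn, Subgroup.mem_bot] at this
  exact bb_ne_one _ this

end Pool.Agent.Helper94.Sol
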